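import Pool.Agent.helper306_pp.WinB

/-!
# Primes in almost all short intervals, in mean: the theorem
-/

set_option autoImplicit false

namespace Pool.Agent.helper306_pp

open Finset Filter
open Pool.Agent.H373R2.T7 (lamI lamzI lamz Vz pz mem_pz)
open Pool.Agent.helper24_UT

lemma tlog : Tendsto (fun N : ℕ => Real.log (N : ℝ)) atTop atTop :=
  Real.tendsto_log_atTop.comp tendsto_natCast_atTop_atTop

/-- `∑ |θ(u + W) - θ(u) - W|` over `u < X` is small if `W ≥ X ^ θ`, `θ > 1 / 3` -/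
theorem win (hSI : S_SI13) (θ : ℝ) (hθ : 1 / 3 < θ) (δ : ℝ) (hδ : 0 < δ) :
    ∃ X₀ : ℕ, ∀ X : ℕ, X₀ ≤ X → ∀ W : ℕ, (X : ℝ) ^ θ ≤ W → W ≤ X →
      ∑ u ∈ range X, |thW u W - W| ≤ δ * (X * W) := by
  -- the exponent
  obtain ⟨e₀, he₀⟩ := exists_nat_gt (2 / (θ - 1 / 3))
  set e := max e₀ 4 with he
  have he4 : 4 ≤ e := le_max_right _ _
  have hepos : (0 : ℝ) < e := by
    have : 0 < e := by omega
    exact_mod_cast this
  have he1 : 1 / 3 + 2 / (e : ℝ) ≤ θ := by
    have h1 : (2 / (θ - 1 / 3)) < e := he₀.trans_le (by exact_mod_cast le_max_left e₀ 4)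
    rw [div_lt_iff₀ (by linarith)] at h1
    have h2 : 2 / (e : ℝ) ≤ θ - 1 / 3 := by
      rw [div_le_iff₀ hepos]; linarith
    linarith
  obtain ⟨E₀, h0⟩ := hSI e 2 0 he4
  obtain ⟨X₁, h1⟩ := h0 (E₀ + 1)
  obtain ⟨W₀, hmod⟩ := model (E₀ + 2)
  -- conditions for large `X`
  have hlog := tlog
  have hth : Tendsto (fun X : ℕ => (X : ℝ) ^ θ) atTop atTop :=
    (tendsto_rpow_atTop (by linarith)).comp tendsto_natCast_atTop_atTop
  have hsq : ∀ᶠ y : ℝ in atTop, ‖Real.log y‖ ≤ δ / 12 * ‖y ^ (1 / 2 : ℝ)‖ :=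
    (isLittleO_log_rpow_atTop (by norm_num : (0 : ℝ) < 1 / 2)).def (by positivity)
  have h2X : Tendsto (fun X : ℕ => 2 * (X : ℝ)) atTop atTop :=
    tendsto_natCast_atTop_atTop.const_mul_atTop (by norm_num)
  have hev := ((hlog.eventually_ge_atTop (max 2 (max (3 / δ) (18 / δ)))).and
    ((hlog.eventually_ge_atTop (3 * 3 ^ (E₀ + 1))).and
    ((hth.eventually_ge_atTop (W₀ : ℝ)).and ((h2X.eventually hsq).and
    (eventually_ge_atTop (max X₁ 1))))))
  obtain ⟨X₂, hX₂⟩ := eventually_atTop.1 hev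
  refine ⟨X₂, fun X hX W hW1 hW2 => ?_⟩
  obtain ⟨g1, g2, g3, g4, g5⟩ := hX₂ X hX
  set L := Real.log (X : ℝ) with hL
  have hL2 : 2 ≤ L := (le_max_left _ _).trans g1
  have hLδ : 3 / δ ≤ L := ((le_max_left _ _).trans (le_max_right _ _)).trans g1
  have hLδ' : 18 / δ ≤ L := ((le_max_right _ _).trans (le_max_right _ _)).trans g1
  have hX1 : 1 ≤ X := (le_max_right _ _).trans g5
  have hXr : (1 : ℝ) ≤ X := by exact_mod_cast hX1
  have hX0 : (0 : ℝ) < X := by linarith
  have hL0 : 0 < L := by linarith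
  have hWpos : (0 : ℝ) < W := lt_of_lt_of_le (by positivity) hW1
  have hW1' : 1 ≤ W := by exact_mod_cast hWpos
  have hWr : (1 : ℝ) ≤ W := by exact_mod_cast hW1'
  -- `log W`
  have hlogW : L / 3 ≤ Real.log W := by
    calc L / 3 ≤ θ * L := by nlinarith
      _ = Real.log ((X : ℝ) ^ θ) := by rw [Real.log_rpow hX0]
      _ ≤ Real.log W := Real.log_le_log (by positivity) hW1
  have hlogW0 : 0 < Real.log W := by linarith
  -- `z`
  set z := ⌈L ^ E₀⌉₊ with hz
  have hz1 : L ^ E₀ ≤ z := Nat.le_ceil _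
  have hLE : 1 ≤ L ^ E₀ := one_le_pow₀ (by linarith)
  have hz2 : (z : ℝ) ≤ L ^ (E₀ + 1) := by
    have h3 : (z : ℝ) < L ^ E₀ + 1 := Nat.ceil_lt_add_one (by positivity)
    rw [pow_succ]
    nlinarith
  have hz3 : 1 ≤ z := by
    have : (1 : ℝ) ≤ z := hLE.trans hz1
    exact_mod_cast this
  have hz4 : (z : ℝ) ≤ (Real.log W) ^ (E₀ + 2) := by
    have h3 : L ≤ 3 * Real.log W := by linarith
    calc (z : ℝ) ≤ L ^ (E₀ + 1) := hz2
      _ ≤ (3 * Real.log W) ^ (E₀ + 1) := pow_le_pow_left₀ hL0.le h3 _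
      _ = 3 ^ (E₀ + 1) * (Real.log W) ^ (E₀ + 1) := by rw [mul_pow]
      _ ≤ Real.log W * (Real.log W) ^ (E₀ + 1) := by
          gcongr
          linarith
      _ = (Real.log W) ^ (E₀ + 2) := by ring
  -- the difference of the primes and the model
  have hpow : (X : ℝ) ^ (1 / 3 + 2 / e : ℝ) ≤ W :=
    (Real.rpow_le_rpow_of_exponent_le hXr he1).trans hW1
  have h2 := h1 X ((le_max_left _ _).trans g5) z hz1 hz2 1 le_rfl (by simp) W hpow hW2
  set a : ℕ → ℝ := fun u => ∑ m ∈ Ioc u (u + W), Ed z (m : ℤ) with ha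
  have h3 : ∑ u ∈ range X, (a u) ^ 2 ≤ X * (W : ℝ) ^ 2 / L ^ 2 := by
    refine le_trans (le_of_eq ?_) h2
    refine Finset.sum_congr rfl fun u _ => ?_
    rw [NN_one]
  have h4 : ∑ u ∈ range X, |a u| ≤ X * W / L := by
    have h5 : (∑ u ∈ range X, |a u|) ^ 2 ≤ (X * W / L) ^ 2 := by
      calc (∑ u ∈ range X, |a u|) ^ 2 ≤ (range X).card * ∑ u ∈ range X, |a u| ^ 2 :=
            sq_sum_le_card_mul_sum_sq
        _ = X * ∑ u ∈ range X, (a u) ^ 2 := by
            rw [card_range]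
            simp only [sq_abs]
        _ ≤ X * (X * (W : ℝ) ^ 2 / L ^ 2) := by gcongr
        _ = (X * W / L) ^ 2 := by ring
    exact (pow_le_pow_iff_left₀ (Finset.sum_nonneg fun _ _ => abs_nonneg _) (by positivity)
      two_ne_zero).1 h5
  -- the sum
  have h6 : ∀ u, thW u W - W = a u + (∑ m ∈ Ioc u (u + W), lamzI z (m : ℤ) - W) -
      ∑ m ∈ Ioc u (u + W), npp m := by
    intro u
    have h7 := lam_split u W
    have h8 : a u = ∑ m ∈ Ioc u (u + W), lamI (m : ℤ) - ∑ m ∈ Ioc u (u + W), lamzI z (m : ℤ) := by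
      rw [ha, ← Finset.sum_sub_distrib]
      rfl
    rw [h8, h7]; ring
  have h9 : ∀ u ∈ range X, |thW u W - W| ≤
      |a u| + 2 * (W / Real.log W) + ∑ m ∈ Ioc u (u + W), npp m := by
    intro u _
    rw [h6 u]
    have h10 := hmod W (by
      have : (W₀ : ℝ) ≤ W := g3.trans hW1
      exact_mod_cast this) z hz3 hz4 u
    have h11 : 0 ≤ ∑ m ∈ Ioc u (u + W), npp m := Finset.sum_nonneg fun m _ => npp_nonneg m
    rw [abs_le] at h10 ⊢
    have h12 := neg_abs_le (a u)
    have h13 := le_abs_self (a u)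
    constructor <;> linarith
  have h14 := npp_sum X W hX1
  have h15 : 2 * Real.sqrt (X + W : ℕ) * Real.log (X + W : ℕ) ≤ δ / 3 * X := by
    set y : ℝ := 2 * (X : ℝ) with hy
    have hyX : ((X + W : ℕ) : ℝ) ≤ y := by
      have : ((X + W : ℕ) : ℝ) ≤ ((2 * X : ℕ) : ℝ) := by exact_mod_cast (by omega : X + W ≤ 2 * X)
      push_cast at this ⊢
      linarith
    have hXW1 : (1 : ℝ) ≤ ((X + W : ℕ) : ℝ) := by
      have : 1 ≤ X + W := by omega
      exact_mod_cast this
    have hy1 : 1 ≤ y := hXW1.trans hyX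
    have hlogy : 0 ≤ Real.log y := Real.log_nonneg hy1
    rw [Real.norm_eq_abs, Real.norm_eq_abs, abs_of_nonneg hlogy,
      abs_of_nonneg (by positivity), ← Real.sqrt_eq_rpow] at g4
    calc 2 * Real.sqrt (X + W : ℕ) * Real.log (X + W : ℕ) ≤ 2 * Real.sqrt y * Real.log y := by
          gcongr
      _ ≤ 2 * Real.sqrt y * (δ / 12 * Real.sqrt y) := by gcongr
      _ = δ / 6 * (Real.sqrt y * Real.sqrt y) := by ring
      _ = δ / 3 * X := by
          rw [Real.mul_self_sqrt (by linarith), hy]; ring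
  calc ∑ u ∈ range X, |thW u W - W|
      ≤ ∑ u ∈ range X, (|a u| + 2 * (W / Real.log W) + ∑ m ∈ Ioc u (u + W), npp m) :=
        Finset.sum_le_sum h9
    _ = ∑ u ∈ range X, |a u| + X * (2 * (W / Real.log W)) +
        ∑ u ∈ range X, ∑ m ∈ Ioc u (u + W), npp m := by
        rw [Finset.sum_add_distrib, Finset.sum_add_distrib, Finset.sum_const, card_range,
          nsmul_eq_mul]
    _ ≤ X * W / L + X * (2 * (W / Real.log W)) + W * (δ / 3 * X) := by
        have h16 : ∑ u ∈ range X, ∑ m ∈ Ioc u (u + W), npp m ≤ W * (δ / 3 * X) :=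
          h14.trans (mul_le_mul_of_nonneg_left h15 hWpos.le)
        linarith
    _ ≤ δ / 3 * (X * W) + δ / 3 * (X * W) + δ / 3 * (X * W) := by
        have h17 : X * W / L ≤ δ / 3 * (X * W) := by
          rw [div_le_iff₀ hL0]
          have h18 : 1 ≤ δ / 3 * L := by
            rw [div_le_iff₀ hδ] at hLδ
            linarith
          calc (X : ℝ) * W = 1 * (X * W) := (one_mul _).symm
            _ ≤ (δ / 3 * L) * (X * W) := by gcongr
            _ = δ / 3 * (X * W) * L := by ring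
        have h19 : X * (2 * (W / Real.log W)) ≤ δ / 3 * (X * W) := by
          have h20 : 2 ≤ δ / 3 * Real.log W := by
            rw [div_le_iff₀ hδ] at hLδ'
            nlinarith
          have h21 : (X : ℝ) * (2 * (W / Real.log W)) = 2 * (X * W) / Real.log W := by ring
          rw [h21, div_le_iff₀ hlogW0]
          calc 2 * ((X : ℝ) * W) ≤ (δ / 3 * Real.log W) * (X * W) := by gcongr
            _ = δ / 3 * (X * W) * Real.log W := by ring
        linarith
    _ = δ * (X * W) := by ring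

end Pool.Agent.helper306_pp
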