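import Pool.Agent.helper306_pp.Sup
import Pool.Agent.helper306_pp.WinC

/-!
# The mean density of the perturbed primes on a dyadic block
-/

set_option autoImplicit false

namespace Pool.Agent.helper306_pp

open Finset Filter
open Pool.Agent.helper24_UT (S_SI13)

theorem rho_int (H : ℕ → ℕ) (h2 : ∀ j, H j ≤ 2 ^ j) (j D x : ℕ) (hD1 : H (j - 1) ≤ D)
    (hD : H j ≤ D) (hx1 : 2 ^ j + D ≤ x) (hx2 : x < 2 ^ (j + 1)) :
    rho (wH H) x = (((Ioc (x - H j) x).filter Nat.Prime).card : ℝ) / H j := by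
  have hterm : ∀ p ∈ Pr x, fp (wH H) p x = if x - H j < p then 1 / (H j : ℝ) else 0 := by
    intro p hp
    simp only [Pr, mem_filter, mem_range] at hp
    have hp0 : p ≠ 0 := hp.2.ne_zero
    unfold fp
    by_cases hpj : 2 ^ j ≤ p
    · have hlog : Nat.log 2 p = j := Nat.log_eq_of_pow_le_of_lt_pow hpj (by omega)
      have hw : wH H p = H j := by unfold wH; rw [hlog]
      rw [hw]
      by_cases h : x - H j < p
      · rw [if_pos h, if_pos (by omega)]
      · rw [if_neg h, if_neg (by omega)]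
    · rw [if_neg, if_neg (by omega)]
      rintro ⟨_, h4⟩
      have hlog : Nat.log 2 p ≤ j - 1 := by
        have h5 : Nat.log 2 p < j := Nat.log_lt_of_lt_pow hp0 (by omega)
        omega
      rcases Nat.lt_or_ge (Nat.log 2 p) (j - 1) with h5 | h5
      · have h6 : p < 2 ^ (j - 1) := (Nat.log_lt_iff_lt_pow (by norm_num) hp0).1 h5
        have h7 := (h2 (Nat.log 2 p)).trans (Nat.pow_log_le_self 2 hp0)
        unfold wH at h4
        have h8 : 2 ^ j = 2 * 2 ^ (j - 1) := by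
          rw [← pow_succ']
          congr 1
          omega
        omega
      · have h6 : Nat.log 2 p = j - 1 := by omega
        unfold wH at h4
        rw [h6] at h4
        omega
  unfold rho
  rw [sum_congr rfl hterm, ← sum_filter, sum_const, nsmul_eq_mul]
  have hset : (Pr x).filter (fun p => x - H j < p) = (Ioc (x - H j) x).filter Nat.Prime := by
    ext p
    simp only [Pr, mem_filter, mem_range, mem_Ioc]
    constructor
    · rintro ⟨⟨h3, h4⟩, h5⟩
      exact ⟨⟨h5, by omega⟩, h4⟩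
    · rintro ⟨⟨h3, h4⟩, h5⟩
      exact ⟨⟨by omega, h5⟩, h3⟩
  rw [hset]
  ring

lemma card_log (x W B : ℕ) (hB : 1 ≤ B) (hx : B + W ≤ x) :
    |(((Ioc (x - W) x).filter Nat.Prime).card : ℝ) * Real.log x - thW (x - W) W| ≤
      (W : ℝ) * (W / B) := by
  have h1 : x - W + W = x := by omega
  unfold thW
  rw [h1]
  have hBr : (1 : ℝ) ≤ B := by exact_mod_cast hB
  have h2 : (((Ioc (x - W) x).filter Nat.Prime).card : ℝ) * Real.log x -
      ∑ p ∈ (Ioc (x - W) x).filter Nat.Prime, Real.log p =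
      ∑ p ∈ (Ioc (x - W) x).filter Nat.Prime, (Real.log x - Real.log p) := by
    rw [sum_sub_distrib, sum_const, nsmul_eq_mul]
  have h3 : ∀ p ∈ (Ioc (x - W) x).filter Nat.Prime, 0 ≤ Real.log x - Real.log p ∧
      Real.log x - Real.log p ≤ W / B := by
    intro p hp
    rw [mem_filter, mem_Ioc] at hp
    have hpB : B ≤ p := by omega
    have hpr : (B : ℝ) ≤ p := by exact_mod_cast hpB
    have hp0 : (0 : ℝ) < p := by linarith
    have hpx : (p : ℝ) ≤ x := by exact_mod_cast hp.1.2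
    have hx0 : (0 : ℝ) < x := by linarith
    constructor
    · have := Real.log_le_log hp0 hpx
      linarith
    · have h4 : Real.log x - Real.log p = Real.log (x / p) := by
        rw [Real.log_div hx0.ne' hp0.ne']
      have h5 : Real.log ((x : ℝ) / p) ≤ x / p - 1 := Real.log_le_sub_one_of_pos (by positivity)
      have h6 : (x : ℝ) / p - 1 = (x - p) / p := by field_simp
      have h7 : (x : ℝ) - p ≤ W := by
        have : x ≤ p + W := by omega
        have : (x : ℝ) ≤ p + W := by exact_mod_cast this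
        linarith
      have h8 : ((x : ℝ) - p) / p ≤ W / B := by
        apply div_le_div₀ (Nat.cast_nonneg _) h7 (by linarith) hpr
      linarith
  have h4 : (((Ioc (x - W) x).filter Nat.Prime).card : ℝ) ≤ W := by
    have h5 : ((Ioc (x - W) x).filter Nat.Prime).card ≤ W := by
      refine (card_filter_le _ _).trans ?_
      rw [Nat.card_Ioc]
      omega
    exact_mod_cast h5
  rw [h2, abs_of_nonneg (sum_nonneg fun p hp => (h3 p hp).1)]
  calc ∑ p ∈ (Ioc (x - W) x).filter Nat.Prime, (Real.log x - Real.log p)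
      ≤ ∑ _p ∈ (Ioc (x - W) x).filter Nat.Prime, (W : ℝ) / B := sum_le_sum fun p hp => (h3 p hp).2
    _ = (((Ioc (x - W) x).filter Nat.Prime).card : ℝ) * (W / B) := by
        rw [sum_const, nsmul_eq_mul]
    _ ≤ (W : ℝ) * (W / B) := by gcongr

/-- a dyadic block -/
theorem blk (hSI : S_SI13) (H : ℕ → ℕ) (h1 : ∀ j, 1 ≤ H j) (h2 : ∀ j, H j ≤ 2 ^ j)
    (θ θ' : ℝ) (hθ : 1 / 3 < θ) (hθ0' : 0 ≤ θ') (hθ' : θ' < 1)
    (h3 : ∀ᶠ j : ℕ in atTop, (2 : ℝ) ^ (θ * j) ≤ H j)
    (h4 : ∀ᶠ j : ℕ in atTop, (H j : ℝ) ≤ 2 ^ (θ' * j))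
    (M : ℝ) (hM : 1 ≤ M) (hrho : ∀ x : ℕ, rho (wH H) x * Real.log x ≤ M)
    (δ : ℝ) (hδ : 0 < δ) :
    ∀ᶠ j : ℕ in atTop, ∑ x ∈ Ico (2 ^ j) (2 ^ (j + 1)), |rho (wH H) x - 1 / Real.log x| ≤
      δ * (2 ^ j / j) := by
  set θ₂ : ℝ := (1 / 3 + θ) / 2 with hθ₂
  have hθ₂1 : 1 / 3 < θ₂ := by rw [hθ₂]; linarith
  have hθ₂2 : θ₂ < θ := by rw [hθ₂]; linarith
  obtain ⟨X₀, hwin⟩ := win hSI θ₂ hθ₂1 (δ / 8) (by positivity)
  have hl2 : 1 / 2 < Real.log 2 := by
    have := Real.log_two_gt_d9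
    linarith
  -- the conditions
  have hcast : Tendsto (fun j : ℕ => (j : ℝ)) atTop atTop := tendsto_natCast_atTop_atTop
  have hpow : Tendsto (fun j : ℕ => (2 : ℝ) ^ ((1 - θ') * (j : ℝ))) atTop atTop := by
    have h5 : Tendsto (fun j : ℕ => (1 - θ') * (j : ℝ)) atTop atTop :=
      hcast.const_mul_atTop (by linarith)
    have h6 := (tendsto_rpow_atTop_of_base_gt_one 2 (by norm_num)).comp h5
    exact h6
  have h4' : ∀ᶠ j : ℕ in atTop, (H (j - 1) : ℝ) ≤ 2 ^ (θ' * ((j - 1 : ℕ) : ℝ)) :=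
    (tendsto_sub_atTop_nat 1).eventually h4
  filter_upwards [h3, h4, h4', hpow.eventually_ge_atTop (32 * M / δ),
    hcast.eventually_ge_atTop (θ₂ / (θ - θ₂)), eventually_ge_atTop (X₀ + 1)]
    with j g3 g4 g4' g5 g6 g7
  have hj1 : 1 ≤ j := by omega
  have hjr : (1 : ℝ) ≤ j := by exact_mod_cast hj1
  have hj0 : (0 : ℝ) < j := by linarith
  set W := H j with hW
  have hW1 : 1 ≤ W := h1 j
  have hWr : (1 : ℝ) ≤ W := by exact_mod_cast hW1
  have hW0 : (0 : ℝ) < W := by linarith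
  set D := ⌈(2 : ℝ) ^ (θ' * (j : ℝ))⌉₊ with hD
  have hDge : (2 : ℝ) ^ (θ' * (j : ℝ)) ≤ D := Nat.le_ceil _
  have hpge : (1 : ℝ) ≤ (2 : ℝ) ^ (θ' * (j : ℝ)) := Real.one_le_rpow (by norm_num) (by positivity)
  have hDle : (D : ℝ) ≤ 2 * (2 : ℝ) ^ (θ' * (j : ℝ)) := by
    have := Nat.ceil_lt_add_one (R := ℝ) (a := (2 : ℝ) ^ (θ' * (j : ℝ))) (by positivity)
    linarith
  have hWD : W ≤ D := by
    have : (W : ℝ) ≤ D := g4.trans hDge
    exact_mod_cast this
  have hWD' : H (j - 1) ≤ D := by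
    have h5 : (2 : ℝ) ^ (θ' * ((j - 1 : ℕ) : ℝ)) ≤ (2 : ℝ) ^ (θ' * (j : ℝ)) := by
      apply Real.rpow_le_rpow_of_exponent_le (by norm_num)
      apply mul_le_mul_of_nonneg_left _ hθ0'
      exact_mod_cast Nat.sub_le j 1
    have : (H (j - 1) : ℝ) ≤ D := (g4'.trans h5).trans hDge
    exact_mod_cast this
  have hDsmall : 2 * M * D ≤ δ / 8 * 2 ^ j := by
    have h5 : (2 : ℝ) ^ ((1 - θ') * (j : ℝ)) * 2 ^ (θ' * (j : ℝ)) = 2 ^ j := by
      rw [← Real.rpow_add (by norm_num), ← Real.rpow_natCast 2 j]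
      congr 1; ring
    have h6 : 32 * M ≤ δ * (2 : ℝ) ^ ((1 - θ') * (j : ℝ)) := by
      rw [div_le_iff₀ hδ] at g5
      linarith
    have hp0 : (0 : ℝ) < 2 ^ (θ' * (j : ℝ)) := by positivity
    have h7 : 32 * M * 2 ^ (θ' * (j : ℝ)) ≤ δ * 2 ^ j := by
      calc 32 * M * 2 ^ (θ' * (j : ℝ)) ≤ δ * (2 : ℝ) ^ ((1 - θ') * (j : ℝ)) * 2 ^ (θ' * (j : ℝ)) := by
            gcongr
        _ = δ * ((2 : ℝ) ^ ((1 - θ') * (j : ℝ)) * 2 ^ (θ' * (j : ℝ))) := by ring
        _ = δ * 2 ^ j := by rw [h5]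
    have h8 : 2 * M * D ≤ 2 * M * (2 * 2 ^ (θ' * (j : ℝ))) := by gcongr
    linarith
  -- the window
  have hwinj : ∑ u ∈ range (2 ^ (j + 1)), |thW u W - W| ≤ δ / 8 * ((2 ^ (j + 1) : ℕ) * W) := by
    apply hwin
    · have h5 : j + 1 < 2 ^ (j + 1) := Nat.lt_two_pow_self
      omega
    · refine le_trans ?_ g3
      push_cast
      rw [← Real.rpow_natCast, ← Real.rpow_mul (by norm_num)]
      apply Real.rpow_le_rpow_of_exponent_le (by norm_num)
      rw [div_le_iff₀ (by linarith)] at g6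
      push_cast
      linarith
    · exact (h2 j).trans (Nat.pow_le_pow_right (by norm_num) (by omega))
  push_cast at hwinj
  -- logarithms
  have hlogx : ∀ x : ℕ, 2 ^ j ≤ x → j * Real.log 2 ≤ Real.log x := by
    intro x hx
    have h5 : (2 : ℝ) ^ j ≤ x := by exact_mod_cast hx
    calc j * Real.log 2 = Real.log ((2 : ℝ) ^ j) := by rw [Real.log_pow]
      _ ≤ Real.log x := Real.log_le_log (by positivity) h5
  have hlp : 0 < j * Real.log 2 := by positivity
  have hlp2 : (j : ℝ) / 2 ≤ j * Real.log 2 := by nlinarith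
  -- the boundary
  have hb : ∑ x ∈ Ico (2 ^ j) (2 ^ j + D), |rho (wH H) x - 1 / Real.log x| ≤
      D * (M / (j * Real.log 2)) := by
    have h5 : ∀ x ∈ Ico (2 ^ j) (2 ^ j + D), |rho (wH H) x - 1 / Real.log x| ≤
        M / (j * Real.log 2) := by
      intro x hx
      rw [mem_Ico] at hx
      have h6 := hlogx x hx.1
      have h7 : 0 < Real.log x := by linarith
      have h8 : rho (wH H) x ≤ M / (j * Real.log 2) := by
        calc rho (wH H) x ≤ M / Real.log x := by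
              rw [le_div_iff₀ h7]; exact hrho x
          _ ≤ M / (j * Real.log 2) := by gcongr
      have h9 : 1 / Real.log x ≤ M / (j * Real.log 2) := by
        calc 1 / Real.log x ≤ M / Real.log x := by gcongr
          _ ≤ M / (j * Real.log 2) := by gcongr
      have h10 : 0 ≤ 1 / Real.log x := by positivity
      have h11 := rho_nonneg (wH H) x
      rw [abs_le]
      constructor <;> linarith
    refine (sum_le_sum h5).trans (le_of_eq ?_)
    rw [sum_const, Nat.card_Ico, nsmul_eq_mul, Nat.add_sub_cancel_left]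
  -- the interior
  have hi : ∑ x ∈ Ico (2 ^ j + D) (2 ^ (j + 1)), |rho (wH H) x - 1 / Real.log x| ≤
      (δ / 8 * (2 * 2 ^ j) + W) / (j * Real.log 2) := by
    have h5 : ∀ x ∈ Ico (2 ^ j + D) (2 ^ (j + 1)), |rho (wH H) x - 1 / Real.log x| ≤
        (|thW (x - W) W - W| + (W : ℝ) * (W / ((2 ^ j : ℕ) : ℝ))) / (W * (j * Real.log 2)) := by
      intro x hx
      rw [mem_Ico] at hx
      have h6 := hlogx x (by omega)
      have h7 : 0 < Real.log x := by linarith
      rw [rho_int H h2 j D x hWD' hWD hx.1 hx.2, ← hW]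
      have h8 := card_log x W (2 ^ j) Nat.one_le_two_pow (by omega)
      set N : ℝ := (((Ioc (x - W) x).filter Nat.Prime).card : ℝ) with hN
      have h9 : N / W - 1 / Real.log x = (N * Real.log x - W) / (W * Real.log x) := by
        field_simp
      rw [h9, abs_div, abs_of_pos (show 0 < (W : ℝ) * Real.log x by positivity)]
      have h10 : |N * Real.log x - W| ≤ |thW (x - W) W - W| + (W : ℝ) * (W / ((2 ^ j : ℕ) : ℝ)) := by
        have h11 : N * Real.log x - W = (N * Real.log x - thW (x - W) W) + (thW (x - W) W - W) := by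
          ring
        rw [h11]
        refine (abs_add_le _ _).trans ?_
        linarith
      gcongr
    refine (sum_le_sum h5).trans ?_
    rw [← sum_div, sum_add_distrib, sum_const, Nat.card_Ico, nsmul_eq_mul]
    have h6 : ∑ x ∈ Ico (2 ^ j + D) (2 ^ (j + 1)), |thW (x - W) W - W| ≤
        ∑ u ∈ range (2 ^ (j + 1)), |thW u W - W| := by
      have h7 : ∑ x ∈ Ico (2 ^ j + D) (2 ^ (j + 1)), |thW (x - W) W - W| =
          ∑ u ∈ (Ico (2 ^ j + D) (2 ^ (j + 1))).image (fun x => x - W), |thW u W - W| := by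
        rw [sum_image]
        intro a ha b hb h
        rw [mem_coe, mem_Ico] at ha hb
        simp only at h
        omega
      rw [h7]
      refine sum_le_sum_of_subset_of_nonneg ?_ (fun _ _ _ => abs_nonneg _)
      intro u hu
      rw [mem_image] at hu
      obtain ⟨x, hx, rfl⟩ := hu
      rw [mem_Ico] at hx
      rw [mem_range]
      omega
    have h8 : ((2 ^ (j + 1) - (2 ^ j + D) : ℕ) : ℝ) * ((W : ℝ) * (W / ((2 ^ j : ℕ) : ℝ))) ≤
        (W : ℝ) * W := by
      have h9 : ((2 ^ (j + 1) - (2 ^ j + D) : ℕ) : ℝ) ≤ ((2 ^ j : ℕ) : ℝ) := by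
        have : 2 ^ (j + 1) - (2 ^ j + D) ≤ 2 ^ j := by
          rw [pow_succ]
          omega
        exact_mod_cast this
      calc ((2 ^ (j + 1) - (2 ^ j + D) : ℕ) : ℝ) * ((W : ℝ) * (W / ((2 ^ j : ℕ) : ℝ)))
          ≤ ((2 ^ j : ℕ) : ℝ) * ((W : ℝ) * (W / ((2 ^ j : ℕ) : ℝ))) := by gcongr
        _ = (W : ℝ) * W := by
            push_cast
            field_simp
    calc (∑ x ∈ Ico (2 ^ j + D) (2 ^ (j + 1)), |thW (x - W) W - W| +
          ((2 ^ (j + 1) - (2 ^ j + D) : ℕ) : ℝ) * ((W : ℝ) * (W / ((2 ^ j : ℕ) : ℝ)))) /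
          (W * (j * Real.log 2))
        ≤ (δ / 8 * (2 ^ (j + 1) * W) + W * W) / (W * (j * Real.log 2)) := by
          gcongr
          linarith
      _ = (δ / 8 * (2 * 2 ^ j) + W) / (j * Real.log 2) := by
          rw [pow_succ]
          field_simp
          try ring
  -- the sum
  have hsplit : ∑ x ∈ Ico (2 ^ j) (2 ^ (j + 1)), |rho (wH H) x - 1 / Real.log x| ≤
      ∑ x ∈ Ico (2 ^ j) (2 ^ j + D), |rho (wH H) x - 1 / Real.log x| +
      ∑ x ∈ Ico (2 ^ j + D) (2 ^ (j + 1)), |rho (wH H) x - 1 / Real.log x| := by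
    have h5 : Ico (2 ^ j) (2 ^ (j + 1)) ⊆ Ico (2 ^ j) (2 ^ j + D) ∪ Ico (2 ^ j + D) (2 ^ (j + 1)) := by
      intro x hx
      rw [mem_union, mem_Ico, mem_Ico]
      rw [mem_Ico] at hx
      omega
    refine (sum_le_sum_of_subset_of_nonneg h5 (fun _ _ _ => abs_nonneg _)).trans ?_
    rw [sum_union]
    rw [disjoint_left]
    intro x hx hx'
    rw [mem_Ico] at hx hx'
    omega
  have hWD2 : (W : ℝ) ≤ D := by exact_mod_cast hWD
  have hD0 : (0 : ℝ) ≤ D := Nat.cast_nonneg _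
  calc ∑ x ∈ Ico (2 ^ j) (2 ^ (j + 1)), |rho (wH H) x - 1 / Real.log x|
      ≤ D * (M / (j * Real.log 2)) + (δ / 8 * (2 * 2 ^ j) + W) / (j * Real.log 2) := by linarith
    _ = (D * M + δ / 8 * (2 * 2 ^ j) + W) / (j * Real.log 2) := by ring
    _ ≤ (δ / 2 * 2 ^ j) / (j * Real.log 2) := by
        gcongr
        nlinarith
    _ ≤ (δ / 2 * 2 ^ j) / (j / 2) := by gcongr
    _ = δ * (2 ^ j / j) := by field_simp

end Pool.Agent.helper306_pp
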