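import Mathlib

/-!
# Chernoff bounds for sums of independent events that depend on disjoint sets of coordinates
-/

set_option autoImplicit false

namespace Pool.Agent.helper306_pp

open MeasureTheory ProbabilityTheory Filter

variable {Ω : Type*} [MeasurableSpace Ω]

/-- extension of a tuple by zero -/
noncomputable def extz (I : Finset ℕ) (v : I → ℕ) : ℕ → ℕ := fun n => if h : n ∈ I then v ⟨n, h⟩ else 0

lemma extz_res (I : Finset ℕ) (u : ℕ → ℕ) : ∀ n ∈ I, extz I (fun m : I => u m) n = u n := by
  intro n hn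
  simp only [extz, hn, dif_pos]

/-- `G` depends on the coordinates in `I` only. -/
def DepOn (I : Finset ℕ) (G : (ℕ → ℕ) → ℝ) : Prop :=
  ∀ u u' : ℕ → ℕ, (∀ n ∈ I, u n = u' n) → G u = G u'

lemma depOn_eq {I : Finset ℕ} {G : (ℕ → ℕ) → ℝ} (hG : DepOn I G) (u : ℕ → ℕ) :
    G u = G (extz I (fun m : I => u m)) :=
  hG _ _ fun n hn => (extz_res I u n hn).symm

lemma depOn_meas (U : ℕ → Ω → ℕ) (hU : ∀ n, Measurable (U n)) {I : Finset ℕ} {G : (ℕ → ℕ) → ℝ}
    (hG : DepOn I G) : Measurable fun ω => G (fun n => U n ω) := by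
  have h1 : (fun ω => G (fun n => U n ω)) =
      (fun v : I → ℕ => G (extz I v)) ∘ (fun ω (m : I) => U m ω) := by
    funext ω
    exact depOn_eq hG _
  rw [h1]
  have h2 : Measurable (fun v : I → ℕ => G (extz I v)) := measurable_of_countable _
  exact h2.comp (measurable_pi_lambda _ fun m => hU m)

theorem integral_prod (P : Measure Ω) [IsProbabilityMeasure P] (U : ℕ → Ω → ℕ)
    (hU : ∀ n, Measurable (U n)) (hind : iIndepFun U P) {ι : Type*} (T : Finset ι)
    (I : ι → Finset ℕ) (hd : (T : Set ι).PairwiseDisjoint I) (G : ι → (ℕ → ℕ) → ℝ)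
    (hG : ∀ i ∈ T, DepOn (I i) (G i)) :
    ∫ ω, ∏ i ∈ T, G i (fun n => U n ω) ∂P = ∏ i ∈ T, ∫ ω, G i (fun n => U n ω) ∂P := by
  classical
  induction T using Finset.induction_on with
  | empty => simp
  | insert i T hi ih =>
    have hd' : (T : Set ι).PairwiseDisjoint I :=
      hd.subset (by simp)
    have ih' := ih hd' (fun j hj => hG j (Finset.mem_insert_of_mem hj))
    have hGi := hG i (Finset.mem_insert_self i T)
    set J : Finset ℕ := T.biUnion I with hJ
    have hGT : DepOn J (fun u => ∏ j ∈ T, G j u) := by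
      intro u u' huu
      refine Finset.prod_congr rfl fun j hj => ?_
      exact hG j (Finset.mem_insert_of_mem hj) u u' fun n hn =>
        huu n (Finset.mem_biUnion.2 ⟨j, hj, hn⟩)
    have hdis : Disjoint (I i) J := by
      rw [hJ, Finset.disjoint_biUnion_right]
      intro j hj
      refine hd (by simp) (by simp [hj]) ?_
      rintro rfl
      exact hi hj
    have hindep := hind.indepFun_finset (I i) J hdis hU
    have h1 : IndepFun (fun ω => G i (fun n => U n ω)) (fun ω => ∏ j ∈ T, G j (fun n => U n ω)) P := by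
      have e1 : (fun ω => G i (fun n => U n ω)) =
          (fun v : I i → ℕ => G i (extz (I i) v)) ∘ (fun ω (m : I i) => U m ω) := by
        funext ω
        exact depOn_eq hGi _
      have e2 : (fun ω => ∏ j ∈ T, G j (fun n => U n ω)) =
          (fun v : J → ℕ => ∏ j ∈ T, G j (extz J v)) ∘ (fun ω (m : J) => U m ω) := by
        funext ω
        exact depOn_eq hGT _
      rw [e1, e2]
      exact hindep.comp (measurable_of_countable _) (measurable_of_countable _)
    simp only [Finset.prod_insert hi]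
    rw [← ih']
    exact h1.integral_mul_eq_mul_integral (depOn_meas U hU hGi).aestronglyMeasurable
      (depOn_meas U hU hGT).aestronglyMeasurable

open Classical in
/-- the number of the events that occur -/
noncomputable def cnt {ι : Type*} (T : Finset ι) (E : ι → (ℕ → ℕ) → Prop) (u : ℕ → ℕ) : ℝ :=
  ∑ i ∈ T, if E i u then 1 else 0

/-- the expected number of the events that occur -/
noncomputable def mu {ι : Type*} (P : Measure Ω) (U : ℕ → Ω → ℕ) (T : Finset ι)
    (E : ι → (ℕ → ℕ) → Prop) : ℝ :=
  ∑ i ∈ T, P.real {ω | E i (fun n => U n ω)}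

/-- `E` depends on the coordinates in `I` only. -/
def EvOn (I : Finset ℕ) (E : (ℕ → ℕ) → Prop) : Prop :=
  ∀ u u' : ℕ → ℕ, (∀ n ∈ I, u n = u' n) → (E u ↔ E u')

open Classical in
theorem mgf_cnt (P : Measure Ω) [IsProbabilityMeasure P] (U : ℕ → Ω → ℕ)
    (hU : ∀ n, Measurable (U n)) (hind : iIndepFun U P) {ι : Type*} (T : Finset ι)
    (I : ι → Finset ℕ) (hd : (T : Set ι).PairwiseDisjoint I) (E : ι → (ℕ → ℕ) → Prop)
    (hE : ∀ i ∈ T, EvOn (I i) (E i)) (s : ℝ) :
    mgf (fun ω => cnt T E (fun n => U n ω)) P s ≤ Real.exp (mu P U T E * (Real.exp s - 1)) := by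
  set G : ι → (ℕ → ℕ) → ℝ := fun i u => Real.exp (s * (if E i u then 1 else 0)) with hGdef
  have hG : ∀ i ∈ T, DepOn (I i) (G i) := by
    intro i hi u u' huu
    simp only [hGdef]
    have := hE i hi u u' huu
    simp only [this]
  have h1 : mgf (fun ω => cnt T E (fun n => U n ω)) P s = ∏ i ∈ T, ∫ ω, G i (fun n => U n ω) ∂P := by
    rw [← integral_prod P U hU hind T I hd G hG]
    unfold mgf
    congr 1
    funext ω
    simp only [cnt]
    rw [Finset.mul_sum, Real.exp_sum]
  rw [h1]
  have h2 : ∀ i ∈ T, ∫ ω, G i (fun n => U n ω) ∂P =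
      1 + P.real {ω | E i (fun n => U n ω)} * (Real.exp s - 1) := by
    intro i hi
    have hm : MeasurableSet {ω | E i (fun n => U n ω)} := by
      have hd1 : DepOn (I i) (fun u => if E i u then (1 : ℝ) else 0) := by
        intro u u' huu
        have := hE i hi u u' huu
        simp only [this]
      have h3 := depOn_meas U hU hd1
      have h4 : {ω | E i (fun n => U n ω)} =
          (fun ω => if E i (fun n => U n ω) then (1 : ℝ) else 0) ⁻¹' {1} := by
        ext ω
        simp
      rw [h4]
      exact h3 (measurableSet_singleton 1)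
    have h5 : (fun ω => G i (fun n => U n ω)) =
        fun ω => 1 + Set.indicator {ω | E i (fun n => U n ω)} (fun _ => Real.exp s - 1) ω := by
      funext ω
      by_cases h : E i (fun n => U n ω)
      · simp [hGdef, h, Set.indicator]
      · simp [hGdef, h, Set.indicator]
    rw [h5, integral_add (integrable_const _) ((integrable_const _).indicator hm),
      integral_const, integral_indicator_const _ hm]
    simp
  rw [Finset.prod_congr rfl h2]
  calc ∏ i ∈ T, (1 + P.real {ω | E i (fun n => U n ω)} * (Real.exp s - 1))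
      ≤ ∏ i ∈ T, Real.exp (P.real {ω | E i (fun n => U n ω)} * (Real.exp s - 1)) := by
        refine Finset.prod_le_prod (fun i _ => ?_) (fun i _ => ?_)
        · have h6 : 0 ≤ P.real {ω | E i (fun n => U n ω)} := measureReal_nonneg
          have h7 : P.real {ω | E i (fun n => U n ω)} ≤ 1 := measureReal_le_one
          have h8 := Real.exp_pos s
          nlinarith
        · have := Real.add_one_le_exp (P.real {ω | E i (fun n => U n ω)} * (Real.exp s - 1))
          linarith
    _ = Real.exp (mu P U T E * (Real.exp s - 1)) := by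
        rw [← Real.exp_sum, mu, Finset.sum_mul]

lemma cnt_nonneg {ι : Type*} (T : Finset ι) (E : ι → (ℕ → ℕ) → Prop) (u : ℕ → ℕ) :
    0 ≤ cnt T E u := by
  classical
  unfold cnt
  refine Finset.sum_nonneg fun i _ => ?_
  split_ifs <;> norm_num

lemma cnt_le {ι : Type*} (T : Finset ι) (E : ι → (ℕ → ℕ) → Prop) (u : ℕ → ℕ) :
    cnt T E u ≤ T.card := by
  classical
  unfold cnt
  calc ∑ i ∈ T, (if E i u then (1 : ℝ) else 0) ≤ ∑ _i ∈ T, (1 : ℝ) := by
        refine Finset.sum_le_sum fun i _ => ?_
        split_ifs <;> norm_num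
    _ = T.card := by simp

/-- **Chernoff's bound.** -/
theorem chernoff (P : Measure Ω) [IsProbabilityMeasure P] (U : ℕ → Ω → ℕ)
    (hU : ∀ n, Measurable (U n)) (hind : iIndepFun U P) {ι : Type*} (T : Finset ι)
    (I : ι → Finset ℕ) (hd : (T : Set ι).PairwiseDisjoint I) (E : ι → (ℕ → ℕ) → Prop)
    (hE : ∀ i ∈ T, EvOn (I i) (E i)) (ε lam : ℝ) (hε : 0 < ε) (hε1 : ε ≤ 1) :
    P.real {ω | ε * mu P U T E + lam < |cnt T E (fun n => U n ω) - mu P U T E|} ≤
      2 * Real.exp (-(ε * lam)) := by
  set X : Ω → ℝ := fun ω => cnt T E (fun n => U n ω) with hX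
  set m := mu P U T E with hm
  have hm0 : 0 ≤ m := Finset.sum_nonneg fun i _ => measureReal_nonneg
  have hXm : Measurable X := by
    have : DepOn (T.biUnion I) (fun u => cnt T E u) := by
      intro u u' huu
      unfold cnt
      refine Finset.sum_congr rfl fun i hi => ?_
      have := hE i hi u u' fun n hn => huu n (Finset.mem_biUnion.2 ⟨i, hi, hn⟩)
      by_cases h : E i u
      · rw [if_pos h, if_pos (this.1 h)]
      · rw [if_neg h, if_neg (fun h' => h (this.2 h'))]
    exact depOn_meas U hU this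
  have hint : ∀ s : ℝ, Integrable (fun ω => Real.exp (s * X ω)) P := by
    intro s
    refine Integrable.of_bound (C := Real.exp (|s| * T.card)) (by fun_prop) (ae_of_all _ fun ω => ?_)
    rw [Real.norm_eq_abs, abs_of_pos (Real.exp_pos _)]
    refine Real.exp_le_exp.mpr ?_
    calc s * X ω ≤ |s| * X ω := mul_le_mul_of_nonneg_right (le_abs_self s) (cnt_nonneg _ _ _)
      _ ≤ |s| * T.card := mul_le_mul_of_nonneg_left (cnt_le _ _ _) (abs_nonneg s)
  have hsub : {ω | ε * m + lam < |X ω - m|} ⊆
      {ω | m + (ε * m + lam) ≤ X ω} ∪ {ω | X ω ≤ m - (ε * m + lam)} := by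
    intro ω hω
    simp only [Set.mem_ofPred_eq] at hω
    rcases le_total 0 (X ω - m) with h | h
    · left
      rw [abs_of_nonneg h] at hω
      show m + (ε * m + lam) ≤ X ω
      linarith
    · right
      rw [abs_of_nonpos h] at hω
      show X ω ≤ m - (ε * m + lam)
      linarith
  have h1 : P.real {ω | m + (ε * m + lam) ≤ X ω} ≤ Real.exp (-(ε * lam)) := by
    refine (measure_ge_le_exp_mul_mgf (m + (ε * m + lam)) hε.le (hint ε)).trans ?_
    calc Real.exp (-ε * (m + (ε * m + lam))) * mgf X P ε
        ≤ Real.exp (-ε * (m + (ε * m + lam))) * Real.exp (m * (Real.exp ε - 1)) := by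
          gcongr
          exact mgf_cnt P U hU hind T I hd E hE ε
      _ = Real.exp (m * (Real.exp ε - 1 - ε - ε ^ 2) - ε * lam) := by
          rw [← Real.exp_add]; congr 1; ring
      _ ≤ Real.exp (-(ε * lam)) := by
          refine Real.exp_le_exp.mpr ?_
          have h2 : Real.exp ε ≤ 1 + ε + ε ^ 2 := by
            have h3 := Real.abs_exp_sub_one_sub_id_le (x := ε) (by rw [abs_of_pos hε]; exact hε1)
            have := (abs_le.1 h3).2
            linarith
          have h4 : m * (Real.exp ε - 1 - ε - ε ^ 2) ≤ 0 :=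
            mul_nonpos_of_nonneg_of_nonpos hm0 (by linarith)
          linarith
  have h2 : P.real {ω | X ω ≤ m - (ε * m + lam)} ≤ Real.exp (-(ε * lam)) := by
    refine (measure_le_le_exp_mul_mgf (m - (ε * m + lam)) (by linarith : -ε ≤ 0) (hint (-ε))).trans ?_
    calc Real.exp (-(-ε) * (m - (ε * m + lam))) * mgf X P (-ε)
        ≤ Real.exp (-(-ε) * (m - (ε * m + lam))) * Real.exp (m * (Real.exp (-ε) - 1)) := by
          gcongr
          exact mgf_cnt P U hU hind T I hd E hE (-ε)
      _ = Real.exp (m * (Real.exp (-ε) - 1 + ε - ε ^ 2) - ε * lam) := by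
          rw [← Real.exp_add]; congr 1; ring
      _ ≤ Real.exp (-(ε * lam)) := by
          refine Real.exp_le_exp.mpr ?_
          have h3 := Real.abs_exp_sub_one_sub_id_le (x := -ε) (by rw [abs_neg, abs_of_pos hε]; exact hε1)
          have h4 := (abs_le.1 h3).2
          have h5 : m * (Real.exp (-ε) - 1 + ε - ε ^ 2) ≤ 0 :=
            mul_nonpos_of_nonneg_of_nonpos hm0 (by nlinarith)
          linarith
  calc P.real {ω | ε * m + lam < |X ω - m|}
      ≤ P.real ({ω | m + (ε * m + lam) ≤ X ω} ∪ {ω | X ω ≤ m - (ε * m + lam)}) :=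
        measureReal_mono hsub
    _ ≤ P.real {ω | m + (ε * m + lam) ≤ X ω} + P.real {ω | X ω ≤ m - (ε * m + lam)} :=
        measureReal_union_le _ _
    _ ≤ 2 * Real.exp (-(ε * lam)) := by linarith

end Pool.Agent.helper306_pp
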