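import Pool.Agent.helper306_pp.Chern

/-!
# Concentration of the number of representations by perturbed primes
-/

set_option autoImplicit false

namespace Pool.Agent.helper306_pp

open MeasureTheory ProbabilityTheory Filter Topology

variable {Ω : Type*} [MeasurableSpace Ω]

/-- Borel-Cantelli with an eventual summable bound -/
lemma bc {μ : Measure Ω} {B : ℕ → Set Ω} {f : ℕ → ℝ} (hf : Summable f) (hf0 : ∀ n, 0 ≤ f n)
    (h : ∀ᶠ n in atTop, μ (B n) ≤ ENNReal.ofReal (f n)) :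
    ∀ᵐ ω ∂μ, ∀ᶠ n in atTop, ω ∉ B n := by
  obtain ⟨N, hN⟩ := eventually_atTop.mp h
  have h1 : ∀ᵐ ω ∂μ, ∀ᶠ n in atTop, ω ∉ (if N ≤ n then B n else ∅) := by
    refine ae_eventually_notMem ?_
    have h2 : ∀ n, μ (if N ≤ n then B n else ∅) ≤ ENNReal.ofReal (f n) := by
      intro n
      split_ifs with hn
      · exact hN n hn
      · simp
    refine ne_top_of_le_ne_top ?_ (ENNReal.tsum_le_tsum h2)
    rw [← ENNReal.ofReal_tsum_of_nonneg hf0 hf]
    exact ENNReal.ofReal_ne_top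
  filter_upwards [h1] with ω hω
  filter_upwards [hω, eventually_ge_atTop N] with n hn hNn
  rwa [if_pos hNn] at hn

/-- the pairs of primes `p < q ≤ n` -/
def Qp (n : ℕ) : Finset (ℕ × ℕ) :=
  {x ∈ Finset.range (n + 1) ×ˢ Finset.range (n + 1) | x.1.Prime ∧ x.2.Prime ∧ x.1 < x.2}

/-- `p + u p` and `q + u q` have the sum `n` -/
def Ev (n : ℕ) (x : ℕ × ℕ) (u : ℕ → ℕ) : Prop := x.1 + u x.1 + (x.2 + u x.2) = n

/-- the number of representations -/
noncomputable def Rep (u : ℕ → ℕ) (n : ℕ) : ℝ := cnt (Qp n) (Ev n) u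

/-- the expected number of representations -/
noncomputable def Mean (P : Measure Ω) (U : ℕ → Ω → ℕ) (n : ℕ) : ℝ := mu P U (Qp n) (Ev n)

/-- the pairs with sum `m` -/
def Qm (n m : ℕ) : Finset (ℕ × ℕ) := {x ∈ Qp n | x.1 + x.2 = m}

lemma sum_Qm (n : ℕ) (F : ℕ × ℕ → ℝ) :
    ∑ x ∈ Qp n, F x = ∑ m ∈ Finset.range (2 * n + 1), ∑ x ∈ Qm n m, F x := by
  unfold Qm
  symm
  refine Finset.sum_fiberwise_of_maps_to (fun x hx => ?_) F
  have h1 := (Finset.mem_filter.1 hx).1
  rw [Finset.mem_product, Finset.mem_range, Finset.mem_range] at h1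
  rw [Finset.mem_range]
  omega

lemma Qm_disj (n m : ℕ) :
    ((Qm n m : Finset (ℕ × ℕ)) : Set (ℕ × ℕ)).PairwiseDisjoint (fun x => ({x.1, x.2} : Finset ℕ)) := by
  rintro ⟨p, q⟩ hx ⟨p', q'⟩ hy hne
  simp only [Qm, Qp, Finset.coe_filter, Finset.mem_filter, Set.mem_ofPred_eq] at hx hy
  obtain ⟨⟨_, _, _, h1⟩, h2⟩ := hx
  obtain ⟨⟨_, _, _, h3⟩, h4⟩ := hy
  rw [Function.onFun, Finset.disjoint_left]
  intro a ha ha'
  simp only [Finset.mem_insert, Finset.mem_singleton] at ha ha'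
  apply hne
  rw [Prod.mk.injEq]
  omega

lemma ev_on (n : ℕ) (x : ℕ × ℕ) : EvOn {x.1, x.2} (Ev n x) := by
  intro u u' huu
  unfold Ev
  rw [huu x.1 (by simp), huu x.2 (by simp)]

theorem conc (P : Measure Ω) [IsProbabilityMeasure P] (U : ℕ → Ω → ℕ)
    (hU : ∀ n, Measurable (U n)) (hind : iIndepFun U P) (w : ℕ → ℕ)
    (hlt : ∀ᵐ ω ∂P, ∀ p : ℕ, p.Prime → U p ω < w p) (ε : ℝ) (hε : 0 < ε) (hε1 : ε ≤ 1) :
    ∀ᵐ ω ∂P, ∀ᶠ n : ℕ in atTop, ∀ W : ℕ, (∀ p ≤ n, p.Prime → w p ≤ W) →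
      |Rep (fun p => U p ω) n - Mean P U n| ≤
        ε * Mean P U n + (2 * W + 1) * (5 / ε * Real.log n) := by
  classical
  set lam : ℕ → ℝ := fun n => 5 / ε * Real.log n with hlam
  set B : ℕ → Set Ω := fun n => ⋃ m ∈ Finset.range (2 * n + 1),
    {ω | ε * mu P U (Qm n m) (Ev n) + lam n <
      |cnt (Qm n m) (Ev n) (fun p => U p ω) - mu P U (Qm n m) (Ev n)|} with hB
  have hBn : ∀ᶠ n : ℕ in atTop, P (B n) ≤ ENNReal.ofReal (1 / (n : ℝ) ^ 2) := by
    filter_upwards [eventually_ge_atTop 6] with n hn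
    have hn0 : (0 : ℝ) < n := by
      have : 0 < n := by omega
      exact_mod_cast this
    have h1 : P.real (B n) ≤ ∑ _m ∈ Finset.range (2 * n + 1), 2 * (1 / (n : ℝ) ^ 5) := by
      refine (measureReal_biUnion_finset_le _ _).trans ?_
      refine Finset.sum_le_sum fun m _ => ?_
      refine (chernoff P U hU hind (Qm n m) (fun x => {x.1, x.2}) (Qm_disj n m) (Ev n)
        (fun x _ => ev_on n x) ε (lam n) hε hε1).trans (le_of_eq ?_)
      congr 1
      have h2 : -(ε * lam n) = -(Real.log n * 5) := by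
        rw [hlam]; field_simp
      rw [h2, Real.exp_neg, Real.exp_mul, Real.exp_log hn0, one_div]
      norm_cast
    have h3 : P.real (B n) ≤ 1 / (n : ℝ) ^ 2 := by
      refine h1.trans ?_
      rw [Finset.sum_const, Finset.card_range, nsmul_eq_mul]
      have hn6 : (6 : ℝ) ≤ n := by exact_mod_cast hn
      push_cast
      rw [mul_one_div, mul_div_assoc', div_le_div_iff₀ (by positivity) (by positivity)]
      have h4 : (2 * (n : ℝ) + 1) * 2 ≤ (n : ℝ) ^ 3 := by nlinarith [sq_nonneg ((n : ℝ) - 6)]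
      calc (2 * (n : ℝ) + 1) * 2 * (n : ℝ) ^ 2 ≤ (n : ℝ) ^ 3 * (n : ℝ) ^ 2 := by gcongr
        _ = 1 * (n : ℝ) ^ 5 := by ring
    rw [← ENNReal.ofReal_toReal (measure_ne_top P (B n))]
    exact ENNReal.ofReal_le_ofReal h3
  have hbc := bc (μ := P) (f := fun n : ℕ => 1 / (n : ℝ) ^ 2)
    (Real.summable_one_div_nat_pow.mpr (by norm_num)) (fun n => by positivity) hBn
  filter_upwards [hbc, hlt] with ω hω hωlt
  filter_upwards [hω, eventually_ge_atTop 1] with n hn hn1 W hW
  have hlog : 0 ≤ Real.log n := Real.log_nonneg (by exact_mod_cast hn1)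
  have hgood : ∀ m ∈ Finset.range (2 * n + 1),
      |cnt (Qm n m) (Ev n) (fun p => U p ω) - mu P U (Qm n m) (Ev n)| ≤
        ε * mu P U (Qm n m) (Ev n) + lam n := by
    intro m hm
    by_contra hcon
    apply hn
    simp only [hB, Set.mem_iUnion]
    exact ⟨m, hm, not_le.1 hcon⟩
  have hmu0 : ∀ m, 0 ≤ mu P U (Qm n m) (Ev n) := fun m =>
    Finset.sum_nonneg fun _ _ => measureReal_nonneg
  -- far away sums do not contribute
  have hfar : ∀ m, m + 2 * W < n ∨ n < m →
      cnt (Qm n m) (Ev n) (fun p => U p ω) = 0 ∧ mu P U (Qm n m) (Ev n) = 0 := by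
    intro m hm
    have key : ∀ u : ℕ → ℕ, (∀ p : ℕ, p.Prime → u p < w p) → ∀ x ∈ Qm n m, ¬ Ev n x u := by
      intro u hu x hx hE
      simp only [Qm, Qp, Finset.mem_filter, Finset.mem_product, Finset.mem_range] at hx
      obtain ⟨⟨⟨h1, h2⟩, h3, h4, h5⟩, h6⟩ := hx
      unfold Ev at hE
      have h7 := hu x.1 h3
      have h8 := hu x.2 h4
      have h9 := hW x.1 (by omega) h3
      have h10 := hW x.2 (by omega) h4
      omega
    constructor
    · unfold cnt
      refine Finset.sum_eq_zero fun x hx => ?_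
      rw [if_neg (key _ hωlt x hx)]
    · unfold mu
      refine Finset.sum_eq_zero fun x hx => ?_
      rw [measureReal_def]
      have h0 : P {ω | Ev n x (fun p => U p ω)} = 0 := by
        have h1 : ∀ᵐ ω' ∂P, ¬ Ev n x (fun p => U p ω') := by
          filter_upwards [hlt] with ω' hω'
          exact key _ hω' x hx
        rw [ae_iff] at h1
        simpa using h1
      rw [h0, ENNReal.toReal_zero]
  have hR : Rep (fun p => U p ω) n = ∑ m ∈ Finset.range (2 * n + 1),
      cnt (Qm n m) (Ev n) (fun p => U p ω) := by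
    unfold Rep cnt
    exact sum_Qm n _
  have hM : Mean P U n = ∑ m ∈ Finset.range (2 * n + 1), mu P U (Qm n m) (Ev n) := by
    unfold Mean mu
    exact sum_Qm n _
  rw [hR, hM, ← Finset.sum_sub_distrib]
  have hterm : ∀ m ∈ Finset.range (2 * n + 1),
      |cnt (Qm n m) (Ev n) (fun p => U p ω) - mu P U (Qm n m) (Ev n)| ≤
        ε * mu P U (Qm n m) (Ev n) + (if n ≤ m + 2 * W ∧ m ≤ n then lam n else 0) := by
    intro m hm
    split_ifs with h
    · exact hgood m hm
    · have h' : m + 2 * W < n ∨ n < m := by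
        by_contra hcon
        apply h
        omega
      obtain ⟨h1, h2⟩ := hfar m h'
      rw [h1, h2]
      simp
  calc |∑ m ∈ Finset.range (2 * n + 1),
        (cnt (Qm n m) (Ev n) (fun p => U p ω) - mu P U (Qm n m) (Ev n))|
      ≤ ∑ m ∈ Finset.range (2 * n + 1),
        |cnt (Qm n m) (Ev n) (fun p => U p ω) - mu P U (Qm n m) (Ev n)| :=
        Finset.abs_sum_le_sum_abs _ _
    _ ≤ ∑ m ∈ Finset.range (2 * n + 1),
        (ε * mu P U (Qm n m) (Ev n) + (if n ≤ m + 2 * W ∧ m ≤ n then lam n else 0)) :=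
        Finset.sum_le_sum hterm
    _ = ε * ∑ m ∈ Finset.range (2 * n + 1), mu P U (Qm n m) (Ev n) +
        ∑ m ∈ Finset.range (2 * n + 1), (if n ≤ m + 2 * W ∧ m ≤ n then lam n else 0) := by
        rw [Finset.sum_add_distrib, Finset.mul_sum]
    _ ≤ ε * ∑ m ∈ Finset.range (2 * n + 1), mu P U (Qm n m) (Ev n) +
        (2 * W + 1) * (5 / ε * Real.log n) := by
        gcongr
        rw [← Finset.sum_filter, Finset.sum_const, nsmul_eq_mul]
        have hl0 : 0 ≤ lam n := by simp only [hlam]; positivity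
        refine mul_le_mul_of_nonneg_right ?_ hl0
        have h1 : (Finset.range (2 * n + 1)).filter (fun m => n ≤ m + 2 * W ∧ m ≤ n) ⊆
            Finset.Icc (n - 2 * W) n := by
          intro m hm
          rw [Finset.mem_filter] at hm
          rw [Finset.mem_Icc]
          omega
        have h2 := Finset.card_le_card h1
        rw [Nat.card_Icc] at h2
        have h3 : (Finset.filter (fun m => n ≤ m + 2 * W ∧ m ≤ n)
            (Finset.range (2 * n + 1))).card ≤ 2 * W + 1 := by omega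
        exact_mod_cast h3

end Pool.Agent.helper306_pp
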