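import Pool.Agent.helper306_pp.MeanF

/-!
# The probability that a finite set contains no moved prime
-/

set_option autoImplicit false

namespace Pool.Agent.helper306_pp

open MeasureTheory ProbabilityTheory Filter Topology

variable {Ω : Type*} [MeasurableSpace Ω]

/-- the probability that `p + U p` lies in `S` -/
noncomputable def aS (w : ℕ → ℕ) (S : Finset ℕ) (p : ℕ) : ℝ := ∑ x ∈ S, fp w p x

/-- no prime `≤ n` is moved into `S` -/
def Emp (U : ℕ → Ω → ℕ) (n : ℕ) (S : Finset ℕ) : Set Ω := {ω | ∀ p ∈ Pr n, p + U p ω ∉ S}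

lemma aS_nonneg (w : ℕ → ℕ) (S : Finset ℕ) (p : ℕ) : 0 ≤ aS w S p :=
  Finset.sum_nonneg fun _ _ => fp_nonneg _ _ _

lemma prob_aS (P : Measure Ω) [IsProbabilityMeasure P] (V : Ω → ℕ) (hV : Measurable V)
    (w : ℕ → ℕ) (p : ℕ) (hw : 0 < w p) (hunif : ∀ j < w p, P {ω | V ω = j} = (w p : ENNReal)⁻¹)
    (S : Finset ℕ) : P.real {ω | p + V ω ∈ S} = aS w S p := by
  have h1 : {ω | p + V ω ∈ S} = ⋃ x ∈ S, {ω | p + V ω = x} := by
    ext ω
    simp
  rw [h1, measureReal_biUnion_finset]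
  · exact Finset.sum_congr rfl fun x _ => prob_fp P V hV w p hw hunif x
  · intro x _ y _ hxy
    refine Set.disjoint_left.2 fun ω h2 h3 => hxy ?_
    simp only [Set.mem_ofPred_eq] at h2 h3
    rw [← h2, h3]
  · intro x _
    exact hV (MeasurableSet.of_discrete (s := {a | p + a = x}))

lemma aS_le_one (P : Measure Ω) [IsProbabilityMeasure P] (V : Ω → ℕ) (hV : Measurable V)
    (w : ℕ → ℕ) (p : ℕ) (hw : 0 < w p) (hunif : ∀ j < w p, P {ω | V ω = j} = (w p : ENNReal)⁻¹)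
    (S : Finset ℕ) : aS w S p ≤ 1 := by
  rw [← prob_aS P V hV w p hw hunif S]
  exact measureReal_le_one

lemma emp_meas (U : ℕ → Ω → ℕ) (hU : ∀ n, Measurable (U n)) (n : ℕ) (S : Finset ℕ) :
    MeasurableSet (Emp U n S) := by
  have h1 : Emp U n S = ⋂ p ∈ Pr n, U p ⁻¹' {a | p + a ∉ S} := by
    ext ω
    simp [Emp]
  rw [h1]
  exact Finset.measurableSet_biInter _ fun p _ => (hU p) MeasurableSet.of_discrete

lemma emp_prob (P : Measure Ω) [IsProbabilityMeasure P] (U : ℕ → Ω → ℕ)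
    (hU : ∀ n, Measurable (U n)) (hind : iIndepFun U P) (w : ℕ → ℕ)
    (hw : ∀ p : ℕ, p.Prime → 0 < w p)
    (hunif : ∀ p : ℕ, p.Prime → ∀ j < w p, P {ω | U p ω = j} = (w p : ENNReal)⁻¹)
    (n : ℕ) (S : Finset ℕ) :
    P.real (Emp U n S) = ∏ p ∈ Pr n, (1 - aS w S p) := by
  have h1 : Emp U n S = ⋂ p ∈ Pr n, U p ⁻¹' {a | p + a ∉ S} := by
    ext ω
    simp [Emp]
  rw [h1, measureReal_def,
    hind.measure_inter_preimage_eq_mul (Pr n) (fun p _ => MeasurableSet.of_discrete),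
    ENNReal.toReal_prod]
  refine Finset.prod_congr rfl fun p hp => ?_
  simp only [Pr, Finset.mem_filter] at hp
  rw [← prob_aS P (U p) (hU p) w p (hw p hp.2) (hunif p hp.2) S]
  have h2 : U p ⁻¹' {a | p + a ∉ S} = {ω | p + U p ω ∈ S}ᶜ := rfl
  have h3 : MeasurableSet {ω | p + U p ω ∈ S} :=
    (hU p) (MeasurableSet.of_discrete (s := {a | p + a ∈ S}))
  rw [h2, ← measureReal_def, probReal_compl_eq_one_sub h3]

lemma emp_le (P : Measure Ω) [IsProbabilityMeasure P] (U : ℕ → Ω → ℕ)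
    (hU : ∀ n, Measurable (U n)) (hind : iIndepFun U P) (w : ℕ → ℕ)
    (hw : ∀ p : ℕ, p.Prime → 0 < w p)
    (hunif : ∀ p : ℕ, p.Prime → ∀ j < w p, P {ω | U p ω = j} = (w p : ENNReal)⁻¹)
    (n : ℕ) (S : Finset ℕ) (hS : ∀ x ∈ S, x ≤ n) :
    P.real (Emp U n S) ≤ Real.exp (-∑ x ∈ S, rho w x) := by
  rw [emp_prob P U hU hind w hw hunif]
  have h1 : ∑ x ∈ S, rho w x = ∑ p ∈ Pr n, aS w S p := by
    unfold aS
    rw [Finset.sum_comm]
    exact Finset.sum_congr rfl fun x hx => rho_eq w x n (hS x hx)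
  rw [h1, ← Finset.sum_neg_distrib, Real.exp_sum]
  refine Finset.prod_le_prod (fun p hp => ?_) (fun p _ => ?_)
  · simp only [Pr, Finset.mem_filter] at hp
    have := aS_le_one P (U p) (hU p) w p (hw p hp.2) (hunif p hp.2) S
    linarith
  · exact Real.one_sub_le_exp_neg _

lemma exp_le_one_sub (κ a : ℝ) (hκ : 0 < κ) (ha : 0 ≤ a) (ha2 : a * (1 + κ) ≤ κ) :
    Real.exp (-((1 + κ) * a)) ≤ 1 - a := by
  have h1 : a < 1 := by
    by_contra h
    push Not at h
    nlinarith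
  have h2 : 0 < 1 - a := by linarith
  have h3 : 1 - (1 - a)⁻¹ ≤ Real.log (1 - a) := Real.one_sub_inv_le_log_of_pos h2
  have h4 : -((1 + κ) * a) ≤ 1 - (1 - a)⁻¹ := by
    have h5 : (1 - a)⁻¹ ≤ 1 + (1 + κ) * a := by
      rw [inv_le_iff_one_le_mul₀ h2]
      nlinarith
    linarith
  calc Real.exp (-((1 + κ) * a)) ≤ Real.exp (Real.log (1 - a)) := Real.exp_le_exp.2 (h4.trans h3)
    _ = 1 - a := Real.exp_log h2

lemma emp_ge (P : Measure Ω) [IsProbabilityMeasure P] (U : ℕ → Ω → ℕ)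
    (hU : ∀ n, Measurable (U n)) (hind : iIndepFun U P) (w : ℕ → ℕ)
    (hw : ∀ p : ℕ, p.Prime → 0 < w p)
    (hunif : ∀ p : ℕ, p.Prime → ∀ j < w p, P {ω | U p ω = j} = (w p : ENNReal)⁻¹)
    (n : ℕ) (S : Finset ℕ) (hS : ∀ x ∈ S, x ≤ n) (κ : ℝ) (hκ : 0 < κ)
    (ha : ∀ p ∈ Pr n, aS w S p * (1 + κ) ≤ κ) :
    Real.exp (-((1 + κ) * ∑ x ∈ S, rho w x)) ≤ P.real (Emp U n S) := by
  rw [emp_prob P U hU hind w hw hunif]
  have h1 : ∑ x ∈ S, rho w x = ∑ p ∈ Pr n, aS w S p := by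
    unfold aS
    rw [Finset.sum_comm]
    exact Finset.sum_congr rfl fun x hx => rho_eq w x n (hS x hx)
  rw [h1, Finset.mul_sum, ← Finset.sum_neg_distrib, Real.exp_sum]
  refine Finset.prod_le_prod (fun p _ => (Real.exp_pos _).le) (fun p hp => ?_)
  exact exp_le_one_sub κ _ hκ (aS_nonneg _ _ _) (ha p hp)

lemma emp_pair (P : Measure Ω) [IsProbabilityMeasure P] (U : ℕ → Ω → ℕ)
    (hU : ∀ n, Measurable (U n)) (hind : iIndepFun U P) (w : ℕ → ℕ)
    (hw : ∀ p : ℕ, p.Prime → 0 < w p)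
    (hunif : ∀ p : ℕ, p.Prime → ∀ j < w p, P {ω | U p ω = j} = (w p : ENNReal)⁻¹)
    (n : ℕ) (S T : Finset ℕ) (hST : Disjoint S T) :
    P.real (Emp U n S ∩ Emp U n T) ≤ P.real (Emp U n S) * P.real (Emp U n T) := by
  classical
  have h1 : Emp U n S ∩ Emp U n T = Emp U n (S ∪ T) := by
    ext ω
    simp only [Emp, Set.mem_inter_iff, Set.mem_ofPred_eq, Finset.mem_union]
    constructor
    · rintro ⟨h2, h3⟩ p hp h4
      rcases h4 with h4 | h4
      · exact h2 p hp h4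
      · exact h3 p hp h4
    · intro h
      exact ⟨fun p hp h4 => h p hp (Or.inl h4), fun p hp h4 => h p hp (Or.inr h4)⟩
  rw [h1, emp_prob P U hU hind w hw hunif, emp_prob P U hU hind w hw hunif,
    emp_prob P U hU hind w hw hunif, ← Finset.prod_mul_distrib]
  refine Finset.prod_le_prod (fun p hp => ?_) (fun p _ => ?_)
  · simp only [Pr, Finset.mem_filter] at hp
    have := aS_le_one P (U p) (hU p) w p (hw p hp.2) (hunif p hp.2) (S ∪ T)
    linarith
  · have h2 : aS w (S ∪ T) p = aS w S p + aS w T p := by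
      unfold aS
      exact Finset.sum_union hST
    rw [h2]
    nlinarith [aS_nonneg w S p, aS_nonneg w T p, mul_nonneg (aS_nonneg w S p) (aS_nonneg w T p)]

/-- the second moment method for negatively correlated events -/
theorem second_moment (P : Measure Ω) [IsProbabilityMeasure P] (s : Finset ℕ) (E : ℕ → Set Ω)
    (hE : ∀ i ∈ s, MeasurableSet (E i))
    (hneg : ∀ i ∈ s, ∀ j ∈ s, i ≠ j → P.real (E i ∩ E j) ≤ P.real (E i) * P.real (E j))
    (μ : ℝ) (hμ : 0 < μ) (hμs : μ ≤ ∑ i ∈ s, P.real (E i)) :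
    P.real {ω | ∀ i ∈ s, ω ∉ E i} ≤ 1 / μ := by
  classical
  set m := ∑ i ∈ s, P.real (E i) with hm
  have hm0 : 0 < m := hμ.trans_le hμs
  set f : Ω → ℝ := fun ω => ∑ i ∈ s, (E i).indicator (fun _ => (1 : ℝ)) ω with hf
  have hint : ∀ A : Set Ω, MeasurableSet A → Integrable (A.indicator (fun _ => (1 : ℝ))) P :=
    fun A hA => (integrable_const (1 : ℝ)).indicator hA
  have hind1 : ∀ A : Set Ω, MeasurableSet A →
      ∫ ω, A.indicator (fun _ => (1 : ℝ)) ω ∂P = P.real A := by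
    intro A hA
    rw [integral_indicator_const _ hA, smul_eq_mul, mul_one]
  have hexp : ∀ ω, (f ω - m) ^ 2 = (∑ i ∈ s, ∑ j ∈ s, (E i ∩ E j).indicator (fun _ => (1 : ℝ)) ω) -
      2 * m * (∑ i ∈ s, (E i).indicator (fun _ => (1 : ℝ)) ω) + m ^ 2 := by
    intro ω
    have h1 : f ω ^ 2 = ∑ i ∈ s, ∑ j ∈ s, (E i ∩ E j).indicator (fun _ => (1 : ℝ)) ω := by
      rw [hf, sq, Finset.sum_mul_sum]
      refine Finset.sum_congr rfl fun i _ => Finset.sum_congr rfl fun j _ => ?_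
      by_cases hi : ω ∈ E i <;> by_cases hj : ω ∈ E j <;> simp [Set.indicator, hi, hj]
    rw [← h1]
    have h2 : ∑ i ∈ s, (E i).indicator (fun _ => (1 : ℝ)) ω = f ω := rfl
    rw [h2]
    ring
  have hI1 : Integrable (fun ω => ∑ i ∈ s, ∑ j ∈ s, (E i ∩ E j).indicator (fun _ => (1 : ℝ)) ω) P :=
    integrable_finsetSum _ fun i hi => integrable_finsetSum _ fun j hj =>
      hint _ ((hE i hi).inter (hE j hj))
  have hI2 : Integrable (fun ω => ∑ i ∈ s, (E i).indicator (fun _ => (1 : ℝ)) ω) P :=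
    integrable_finsetSum _ fun i hi => hint _ (hE i hi)
  have hintg : Integrable (fun ω => (f ω - m) ^ 2) P := by
    have h1 : (fun ω => (f ω - m) ^ 2) = fun ω =>
        (∑ i ∈ s, ∑ j ∈ s, (E i ∩ E j).indicator (fun _ => (1 : ℝ)) ω) -
        2 * m * (∑ i ∈ s, (E i).indicator (fun _ => (1 : ℝ)) ω) + m ^ 2 := funext hexp
    rw [h1]
    exact (hI1.sub (hI2.const_mul (2 * m))).add (integrable_const _)
  have hval : ∫ ω, (f ω - m) ^ 2 ∂P = ∑ i ∈ s, ∑ j ∈ s, P.real (E i ∩ E j) - m ^ 2 := by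
    have hI12 : Integrable (fun ω =>
        (∑ i ∈ s, ∑ j ∈ s, (E i ∩ E j).indicator (fun _ => (1 : ℝ)) ω) -
        2 * m * (∑ i ∈ s, (E i).indicator (fun _ => (1 : ℝ)) ω)) P :=
      hI1.sub (hI2.const_mul (2 * m))
    simp_rw [hexp]
    rw [integral_add hI12 (integrable_const _),
      integral_sub hI1 (hI2.const_mul (2 * m)), integral_const_mul, integral_const,
      integral_finset_sum _ (fun i hi => integrable_finsetSum _ fun j hj =>
        hint _ ((hE i hi).inter (hE j hj))),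
      integral_finset_sum _ (fun i hi => hint _ (hE i hi))]
    have h1 : ∀ i ∈ s, ∫ ω, ∑ j ∈ s, (E i ∩ E j).indicator (fun _ => (1 : ℝ)) ω ∂P =
        ∑ j ∈ s, P.real (E i ∩ E j) := by
      intro i hi
      rw [integral_finset_sum _ (fun j hj => hint _ ((hE i hi).inter (hE j hj)))]
      exact Finset.sum_congr rfl fun j hj => hind1 _ ((hE i hi).inter (hE j hj))
    rw [Finset.sum_congr rfl h1, Finset.sum_congr rfl (fun i hi => hind1 _ (hE i hi)), ← hm]
    simp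
    ring
  have hbound : ∑ i ∈ s, ∑ j ∈ s, P.real (E i ∩ E j) ≤ m + m ^ 2 := by
    have h1 : ∀ i ∈ s, ∑ j ∈ s, P.real (E i ∩ E j) ≤
        P.real (E i) + ∑ j ∈ s, P.real (E i) * P.real (E j) := by
      intro i hi
      rw [← Finset.add_sum_erase _ _ hi, Set.inter_self]
      have h2 : ∑ j ∈ s.erase i, P.real (E i ∩ E j) ≤ ∑ j ∈ s, P.real (E i) * P.real (E j) := by
        refine (Finset.sum_le_sum fun j hj => hneg i hi j (Finset.mem_of_mem_erase hj)
          (Finset.ne_of_mem_erase hj).symm).trans ?_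
        exact Finset.sum_le_sum_of_subset_of_nonneg (Finset.erase_subset _ _)
          (fun _ _ _ => mul_nonneg measureReal_nonneg measureReal_nonneg)
      linarith
    refine (Finset.sum_le_sum h1).trans (le_of_eq ?_)
    rw [Finset.sum_add_distrib, ← Finset.sum_mul_sum, ← hm]
    ring
  have hmark := mul_meas_ge_le_integral_of_nonneg (μ := P)
    (f := fun ω => (f ω - m) ^ 2) (Eventually.of_forall fun ω => sq_nonneg _) hintg (m ^ 2)
  rw [hval] at hmark
  have hsub : P.real {ω | ∀ i ∈ s, ω ∉ E i} ≤ P.real {ω | m ^ 2 ≤ (f ω - m) ^ 2} := by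
    refine measureReal_mono ?_
    intro ω hω
    have h1 : f ω = 0 := by
      rw [hf]
      refine Finset.sum_eq_zero fun i hi => ?_
      exact Set.indicator_of_notMem (hω i hi) _
    show m ^ 2 ≤ (f ω - m) ^ 2
    rw [h1]
    nlinarith
  have h3 : m ^ 2 * P.real {ω | m ^ 2 ≤ (f ω - m) ^ 2} ≤ m := by linarith
  have h4 : P.real {ω | m ^ 2 ≤ (f ω - m) ^ 2} ≤ 1 / m := by
    rw [le_div_iff₀ hm0]
    have h5 : m * (P.real {ω | m ^ 2 ≤ (f ω - m) ^ 2} * m) ≤ m * 1 := by linarith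
    exact le_of_mul_le_mul_left h5 hm0
  calc P.real {ω | ∀ i ∈ s, ω ∉ E i} ≤ 1 / m := hsub.trans h4
    _ ≤ 1 / μ := one_div_le_one_div_of_le hμ hμs

end Pool.Agent.helper306_pp
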