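import Pool.Agent.helper306_pp.Cr1
import Pool.Agent.helper306_gaps.Main

/-!
# Long gaps between moved primes
-/

set_option autoImplicit false

namespace Pool.Agent.helper306_pp

open MeasureTheory ProbabilityTheory Filter Topology
open Pool.Agent.helper306_gaps (Pc mem_Pc window_bounds tendsto_log_nat Consec surround)

variable {Ω : Type*} [MeasurableSpace Ω]

/-- the widths are small compared with the primes -/
def Small (w : ℕ → ℕ) : Prop := ∀ κ : ℝ, 0 < κ → ∀ᶠ p : ℕ in atTop, (w p : ℝ) ≤ κ * p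

/-- the widths are large compared with the square of the logarithm -/
def Large (w : ℕ → ℕ) : Prop := ∀ K : ℝ, ∀ᶠ p : ℕ in atTop, K * Real.log p ^ 2 ≤ w p

lemma sum_fp_le (w : ℕ → ℕ) (p : ℕ) (S : Finset ℕ) : ∑ x ∈ S, fp w p x ≤ 1 := by
  rcases Nat.eq_zero_or_pos (w p) with h | h
  · have h1 : ∀ x ∈ S, fp w p x = 0 := by
      intro x _
      unfold fp
      rw [h]
      split_ifs <;> simp
    rw [Finset.sum_congr rfl h1]
    simp
  · have hw : (0 : ℝ) < w p := by exact_mod_cast h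
    unfold fp
    rw [← Finset.sum_filter, Finset.sum_const, nsmul_eq_mul]
    have h6 : S.filter (fun x => p ≤ x ∧ x < p + w p) ⊆ Finset.Ico p (p + w p) := by
      intro x hx
      rw [Finset.mem_filter] at hx
      rw [Finset.mem_Ico]
      exact hx.2
    have h7 := Finset.card_le_card h6
    rw [Nat.card_Ico, Nat.add_sub_cancel_left] at h7
    rw [mul_one_div, div_le_one hw]
    exact_mod_cast h7

/-- the primes which can be moved beyond `u` -/
lemma far_small (w : ℕ → ℕ) (hs : Small w) (c κ : ℝ) (hc : 0 < c) (hκ : 0 < κ) :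
    ∀ᶠ X : ℕ in atTop, ∀ p : ℕ, ⌊c * X⌋₊ < p + w p → ⌊(c / (1 + 2 * κ)) * X⌋₊ < p := by
  obtain ⟨p₀, hp₀⟩ := eventually_atTop.1 (hs κ hκ)
  set M₀ := ∑ p ∈ Finset.range p₀, (p + w p) with hM₀
  have hX : Tendsto (fun X : ℕ => (X : ℝ)) atTop atTop := tendsto_natCast_atTop_atTop
  filter_upwards [hX.eventually_ge_atTop ((M₀ + 1) / c), hX.eventually_ge_atTop ((1 + 2 * κ) / (c * κ))]
    with X g1 g2 p hp
  rw [div_le_iff₀ hc] at g1
  rw [div_le_iff₀ (by positivity)] at g2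
  have hfl : c * X < ⌊c * X⌋₊ + 1 := Nat.lt_floor_add_one _
  have hpp : p₀ ≤ p := by
    by_contra h
    have h1 : p + w p ≤ M₀ := Finset.single_le_sum (f := fun p => p + w p)
      (fun _ _ => Nat.zero_le _) (Finset.mem_range.2 (not_le.1 h))
    have h2 : ⌊c * X⌋₊ < M₀ := lt_of_lt_of_le hp h1
    have h3 : ((⌊c * X⌋₊ : ℕ) : ℝ) + 1 ≤ M₀ := by exact_mod_cast h2
    linarith
  have h1 := hp₀ p hpp
  have h2 : c * X < (1 + κ) * p + 1 := by
    have h3 : ((⌊c * X⌋₊ : ℕ) : ℝ) + 1 ≤ p + w p := by exact_mod_cast hp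
    have h4 : c * X < p + w p := by linarith
    nlinarith
  have h5 : (c / (1 + 2 * κ)) * X < p := by
    rw [div_mul_eq_mul_div, div_lt_iff₀ (by positivity)]
    have hp0 : (0 : ℝ) ≤ p := Nat.cast_nonneg p
    -- (c X) (1 + κ) ≤ ...
    have h6 : c * X * (1 + κ) + (1 + 2 * κ) ≤ c * X * (1 + 2 * κ) := by nlinarith
    by_contra h7
    push Not at h7
    -- p (1 + 2κ) ≤ c X
    have h8 : (1 + κ) * (p * (1 + 2 * κ)) ≤ (1 + κ) * (c * X) := by gcongr
    nlinarith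
  exact (Nat.floor_lt (by positivity)).2 h5

/-- the total mean density in a window -/
lemma total_le (w : ℕ → ℕ) (hs : Small w) (c d κ : ℝ) (hc : 0 < c) (hcd : c ≤ d) (hκ : 0 < κ) :
    ∀ᶠ X : ℕ in atTop, ∑ x ∈ Finset.Ioc ⌊c * X⌋₊ ⌊d * X⌋₊, rho w x ≤
      (d - c + κ) * (X / Real.log X) := by
  set κ₁ := κ / (4 * c) with hκ₁
  have hκ₁0 : 0 < κ₁ := by positivity
  set c' := c / (1 + 2 * κ₁) with hc'
  have hc'0 : 0 < c' := by positivity
  have hc'c : c' ≤ c := by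
    rw [hc', div_le_iff₀ (by positivity)]
    nlinarith
  have hcc : c - c' ≤ κ / 2 := by
    have h1 : c - c' = c * (2 * κ₁) / (1 + 2 * κ₁) := by
      rw [hc']; field_simp; ring
    rw [h1, div_le_iff₀ (by positivity)]
    have h2 : c * (2 * κ₁) = κ / 2 := by rw [hκ₁]; field_simp; ring
    rw [h2]
    nlinarith
  filter_upwards [far_small w hs c κ₁ hc hκ₁0,
    window_bounds (c := c') (d := d) (κ := κ / 2) hc'0 (hc'c.trans hcd) (by positivity),
    tendsto_log_nat.eventually_gt_atTop 0] with X g1 g2 g3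
  have h1 : ∑ x ∈ Finset.Ioc ⌊c * X⌋₊ ⌊d * X⌋₊, rho w x =
      ∑ p ∈ Pr ⌊d * X⌋₊, ∑ x ∈ Finset.Ioc ⌊c * X⌋₊ ⌊d * X⌋₊, fp w p x := by
    rw [Finset.sum_comm]
    refine Finset.sum_congr rfl fun x hx => ?_
    rw [Finset.mem_Ioc] at hx
    exact rho_eq w x _ hx.2
  have h2 : ∀ p ∈ Pr ⌊d * X⌋₊, ∑ x ∈ Finset.Ioc ⌊c * X⌋₊ ⌊d * X⌋₊, fp w p x ≤
      if ⌊c' * X⌋₊ < p then 1 else 0 := by
    intro p hp
    by_cases h : ⌊c * X⌋₊ < p + w p
    · rw [if_pos (g1 p h)]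
      exact sum_fp_le w p _
    · have h3 : ∀ x ∈ Finset.Ioc ⌊c * X⌋₊ ⌊d * X⌋₊, fp w p x = 0 := by
        intro x hx
        rw [Finset.mem_Ioc] at hx
        unfold fp
        rw [if_neg]
        omega
      rw [Finset.sum_congr rfl h3, Finset.sum_const_zero]
      split_ifs <;> norm_num
  rw [h1]
  refine (Finset.sum_le_sum h2).trans ?_
  rw [← Finset.sum_filter, Finset.sum_const, nsmul_eq_mul, mul_one]
  have h4 : ((Pr ⌊d * X⌋₊).filter (fun p => ⌊c' * X⌋₊ < p)).card ≤ (Pc ⌊c' * X⌋₊ ⌊d * X⌋₊).card := by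
    refine Finset.card_le_card ?_
    intro p hp
    simp only [Pr, Finset.mem_filter, Finset.mem_range] at hp
    rw [mem_Pc]
    exact ⟨⟨hp.2, by omega⟩, hp.1.2⟩
  have h5 : (((Pr ⌊d * X⌋₊).filter (fun p => ⌊c' * X⌋₊ < p)).card : ℝ) ≤
      ((Pc ⌊c' * X⌋₊ ⌊d * X⌋₊).card : ℝ) := by exact_mod_cast h4
  refine h5.trans (g2.2.trans ?_)
  have h6 : 0 ≤ (X : ℝ) / Real.log X := by positivity
  exact mul_le_mul_of_nonneg_right (by linarith) h6

/-- there are moved primes in every window -/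
lemma meet (w : ℕ → ℕ) (hs : Small w) (a b : ℝ) (ha : 1 ≤ a) (hab : a < b) :
    ∀ᶠ X : ℕ in atTop, ∀ u : ℕ → ℕ, (∀ p : ℕ, p.Prime → u p < w p) →
      ∃ p : ℕ, p.Prime ∧ ⌊a * X⌋₊ < p + u p ∧ p + u p ≤ ⌊b * X⌋₊ := by
  set c := (a + b) / 2 with hc
  have hc0 : 0 < c := by rw [hc]; linarith
  have hac : a < c := by rw [hc]; linarith
  have hcb : c < b := by rw [hc]; linarith
  set κ := (b - c) / c with hκ
  have hκ0 : 0 < κ := div_pos (by linarith) hc0
  obtain ⟨p₀, hp₀⟩ := eventually_atTop.1 (hs κ hκ0)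
  filter_upwards [window_bounds (c := a) (d := c) (κ := (c - a) / 2) (by linarith) hac.le
    (by linarith), tendsto_log_nat.eventually_gt_atTop 0, eventually_gt_atTop 0,
    eventually_ge_atTop p₀] with X g1 g2 g3 g4 u hu
  have hX : (0 : ℝ) < X := by exact_mod_cast g3
  have h1 : (0 : ℝ) < (Pc ⌊a * X⌋₊ ⌊c * X⌋₊).card := by
    refine lt_of_lt_of_le ?_ g1.1
    have : 0 < (X : ℝ) / Real.log X := by positivity
    have h2 : 0 < c - a - (c - a) / 2 := by linarith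
    positivity
  have h2 : 0 < (Pc ⌊a * X⌋₊ ⌊c * X⌋₊).card := by exact_mod_cast h1
  obtain ⟨p, hp⟩ := Finset.card_pos.1 h2
  rw [mem_Pc] at hp
  have hXa : X ≤ ⌊a * X⌋₊ := Nat.le_floor (by nlinarith)
  refine ⟨p, hp.2, by omega, ?_⟩
  apply Nat.le_floor
  have h3 := hp₀ p (by omega)
  have h4 : (p : ℝ) ≤ c * X := (Nat.le_floor_iff (by positivity)).1 hp.1.2
  have h5 : (u p : ℝ) ≤ w p := by exact_mod_cast (hu p hp.2).le
  push_cast
  calc (p : ℝ) + u p ≤ p + κ * p := by linarith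
    _ = (1 + κ) * p := by ring
    _ ≤ (1 + κ) * (c * X) := by gcongr
    _ = b * X := by rw [hκ]; field_simp; ring

end Pool.Agent.helper306_pp
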