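import Pool.Agent.helper306_pp.Cr2

/-!
# Long gaps between moved primes: the second moment
-/

set_option autoImplicit false

namespace Pool.Agent.helper306_pp

open MeasureTheory ProbabilityTheory Filter Topology
open Pool.Agent.helper306_gaps (Pc mem_Pc window_bounds tendsto_log_nat Consec surround)

variable {Ω : Type*} [MeasurableSpace Ω]

lemma pls (a : ℝ) (k : ℕ) (ha : a < 1) (C : ℝ) (hC : 0 < C) (δ : ℝ) (hδ : 0 < δ) :
    ∀ᶠ n : ℕ in atTop, C * (n : ℝ) ^ a * Real.log n ^ k ≤ δ * n := by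
  have h1 : ∀ᶠ y : ℝ in atTop, ‖Real.log y ^ (k : ℝ)‖ ≤ δ / C * ‖y ^ (1 - a)‖ :=
    (isLittleO_log_rpow_rpow_atTop (k : ℝ) (by linarith : 0 < 1 - a)).def (by positivity)
  filter_upwards [tendsto_natCast_atTop_atTop.eventually h1, eventually_ge_atTop 1] with n h2 h3
  have hn : (1 : ℝ) ≤ n := by exact_mod_cast h3
  have hn0 : (0 : ℝ) < n := by linarith
  have hL := Real.log_nonneg hn
  rw [Real.rpow_natCast, Real.norm_eq_abs, Real.norm_eq_abs, abs_of_nonneg (by positivity),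
    abs_of_nonneg (by positivity)] at h2
  calc C * (n : ℝ) ^ a * Real.log n ^ k ≤ C * (n : ℝ) ^ a * (δ / C * (n : ℝ) ^ (1 - a)) := by gcongr
    _ = δ * ((n : ℝ) ^ a * (n : ℝ) ^ (1 - a)) := by field_simp
    _ = δ * n := by
        rw [← Real.rpow_add hn0]
        congr 1
        rw [show a + (1 - a) = 1 by ring, Real.rpow_one]

/-- the windows -/
def Wi (a L i : ℕ) : Finset ℕ := Finset.Ioc (a + i * L) (a + (i + 1) * L)

lemma Wi_card (a L i : ℕ) : (Wi a L i).card = L := by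
  unfold Wi
  rw [Nat.card_Ioc]
  have : (i + 1) * L = i * L + L := by ring
  omega

lemma Wi_disj (a L : ℕ) {i j : ℕ} (h : i ≠ j) : Disjoint (Wi a L i) (Wi a L j) := by
  unfold Wi
  rw [Finset.disjoint_left]
  intro x hx hy
  rw [Finset.mem_Ioc] at hx hy
  rcases Nat.lt_or_gt_of_ne h with h1 | h1
  · have h2 : (i + 1) * L ≤ j * L := Nat.mul_le_mul_right L h1
    omega
  · have h2 : (j + 1) * L ≤ i * L := Nat.mul_le_mul_right L h1
    omega

lemma Wi_sum (a L m : ℕ) (f : ℕ → ℝ) :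
    ∑ i ∈ Finset.range m, ∑ x ∈ Wi a L i, f x = ∑ x ∈ Finset.Ioc a (a + m * L), f x := by
  induction m with
  | zero => simp
  | succ m ih =>
    rw [Finset.sum_range_succ, ih]
    unfold Wi
    have h1 : m * L ≤ (m + 1) * L := Nat.mul_le_mul_right L (Nat.le_succ m)
    exact Finset.sum_Ioc_consecutive f (by omega) (by omega)

lemma Wi_sub (a b L i : ℕ) (hab : a ≤ b) (hi : i < (b - a) / L) : ∀ x ∈ Wi a L i, a < x ∧ x ≤ b := by
  intro x hx
  unfold Wi at hx
  rw [Finset.mem_Ioc] at hx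
  have h1 : (i + 1) * L ≤ (b - a) / L * L := Nat.mul_le_mul_right L hi
  have h2 : (b - a) / L * L ≤ b - a := Nat.div_mul_le_self _ _
  omega

/-- no window is empty with small probability only -/
theorem none_le (P : Measure Ω) [IsProbabilityMeasure P] (U : ℕ → Ω → ℕ)
    (hU : ∀ n, Measurable (U n)) (hind : iIndepFun U P) (w : ℕ → ℕ)
    (hw : ∀ p : ℕ, p.Prime → 0 < w p)
    (hunif : ∀ p : ℕ, p.Prime → ∀ j < w p, P {ω | U p ω = j} = (w p : ENNReal)⁻¹)
    (hs : Small w) (hl : Large w) (ε : ℝ) (hε : 0 < ε) (hε1 : ε ≤ 1 / 2) :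
    ∀ᶠ X : ℕ in atTop, ∀ u v L : ℕ, u = ⌊(1 + ε / 3) * X⌋₊ → v = ⌊(1 + 2 * ε / 3) * X⌋₊ →
      L = ⌊(1 - ε) * Real.log X ^ 2⌋₊ →
      P.real {ω | ∀ i ∈ Finset.range ((v - u) / L), ω ∉ Emp U v (Wi u L i)} ≤
        (X : ℝ) ^ (-(ε / 4)) := by
  set κ : ℝ := ε ^ 2 / 100 with hκ
  set D : ℝ := ε / 3 with hD
  have hκ0 : 0 < κ := by positivity
  have hD0 : 0 < D := by positivity
  have hκ1 : κ ≤ 1 / 400 := by rw [hκ]; nlinarith
  obtain ⟨p₁, hp₁⟩ := eventually_atTop.1 (hl (4 * (1 + κ) / κ))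
  have hX : Tendsto (fun X : ℕ => (X : ℝ)) atTop atTop := tendsto_natCast_atTop_atTop
  filter_upwards [total_le w hs (1 + ε / 3) (1 + 2 * ε / 3) κ (by positivity) (by linarith) hκ0,
    tendsto_log_nat.eventually_ge_atTop 4, far_small w hs (1 + ε / 3) (1 / 2) (by positivity)
      (by norm_num), pls 0 2 (by norm_num) 2 (by norm_num) (κ * D) (by positivity),
    pls (1 - ε / 4) 2 (by linarith) 1 (by norm_num) ((1 - κ) * D) (mul_pos (by linarith) hD0),
    eventually_ge_atTop (2 * p₁ + 2)] with X g1 g2 g3 g4 g5 g6 u v L hu hv hL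
  subst hu hv
  set u := ⌊(1 + ε / 3) * (X : ℝ)⌋₊ with hu
  set v := ⌊(1 + 2 * ε / 3) * (X : ℝ)⌋₊ with hv
  set T := Real.log (X : ℝ) with hT
  have hX0 : (0 : ℝ) < X := by
    have : 0 < X := by omega
    exact_mod_cast this
  have hT0 : 0 < T := by linarith
  have huv : u ≤ v := Nat.floor_le_floor (by gcongr; linarith)
  have hLle : (L : ℝ) ≤ (1 - ε) * T ^ 2 := by
    rw [hL]
    exact Nat.floor_le (by
      have : 0 ≤ 1 - ε := by linarith
      positivity)
  have hLle2 : (L : ℝ) ≤ T ^ 2 := by nlinarith [sq_nonneg T]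
  have hL1 : 1 ≤ L := by
    rw [hL]
    apply Nat.le_floor
    push_cast
    nlinarith
  have hLr : (1 : ℝ) ≤ L := by exact_mod_cast hL1
  set m := (v - u) / L with hm
  -- the number of windows
  have hmL : (1 - κ) * D * X ≤ m * L := by
    have h1 : v - u < L * (m + 1) := Nat.lt_mul_div_succ _ (by omega)
    have h2 : ((v - u : ℕ) : ℝ) ≤ L * (m + 1) := by exact_mod_cast h1.le
    rw [Nat.cast_sub huv] at h2
    have h3 : (1 + 2 * ε / 3) * X < v + 1 := Nat.lt_floor_add_one _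
    have h4 : (u : ℝ) ≤ (1 + ε / 3) * X := Nat.floor_le (by positivity)
    rw [Real.rpow_zero, mul_one] at g4
    have h5 : D * X - 1 ≤ L * (m + 1) := by
      rw [hD]; linarith
    have h6 : 1 ≤ T ^ 2 := by nlinarith
    nlinarith
  have hm0 : 0 < m := by
    rcases Nat.eq_zero_or_pos m with h | h
    · rw [h] at hmL
      have : 0 < (1 - κ) * D * X := by
        have : 0 < 1 - κ := by linarith
        positivity
      simp at hmL
      linarith
    · exact h
  have hmr : (0 : ℝ) < m := by exact_mod_cast hm0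
  have hmT : (1 - κ) * D * X ≤ m * ((1 - ε) * T ^ 2) := hmL.trans (by gcongr)
  -- the sum of the weights
  set S : ℕ → ℝ := fun i => ∑ x ∈ Wi u L i, rho w x with hS
  have hSsum : ∑ i ∈ Finset.range m, S i ≤ (D + κ) * (X / T) := by
    rw [hS]
    simp only
    rw [Wi_sum u L m (rho w)]
    refine le_trans ?_ (g1.trans (le_of_eq ?_))
    · refine Finset.sum_le_sum_of_subset_of_nonneg ?_ (fun _ _ _ => rho_nonneg _ _)
      intro x hx
      rw [Finset.mem_Ioc] at hx ⊢
      have h2 : m * L ≤ v - u := Nat.div_mul_le_self _ _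
      omega
    · rw [hD]; ring
  -- the probabilities
  have hP : ∀ i ∈ Finset.range m, Real.exp (-((1 + κ) * S i)) ≤ P.real (Emp U v (Wi u L i)) := by
    intro i hi
    rw [Finset.mem_range] at hi
    have hsub := Wi_sub u v L i huv hi
    refine emp_ge P U hU hind w hw hunif v (Wi u L i) (fun x hx => (hsub x hx).2) κ hκ0 ?_
    intro p hp
    simp only [Pr, Finset.mem_filter, Finset.mem_range] at hp
    by_cases h : u < p + w p
    · have h1 := g3 p h
      have h2 : (X : ℝ) / 2 ≤ p := by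
        have h3 : (1 + ε / 3) / (1 + 2 * (1 / 2)) * X < ⌊(1 + ε / 3) / (1 + 2 * (1 / 2)) * (X : ℝ)⌋₊ + 1 :=
          Nat.lt_floor_add_one _
        have h4 : ((⌊(1 + ε / 3) / (1 + 2 * (1 / 2)) * (X : ℝ)⌋₊ : ℕ) : ℝ) + 1 ≤ p := by
          exact_mod_cast h1
        have h5 : (X : ℝ) / 2 ≤ (1 + ε / 3) / (1 + 2 * (1 / 2)) * X := by
          have : (1 + ε / 3) / (1 + 2 * (1 / 2)) * (X : ℝ) = X / 2 + ε / 6 * X := by ring
          rw [this]
          have : 0 ≤ ε / 6 * X := by positivity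
          linarith
        linarith
      have hpp : p₁ ≤ p := by
        have h3 : (X : ℝ) ≤ 2 * p := by linarith
        have h4 : X ≤ 2 * p := by exact_mod_cast h3
        omega
      have h3 := hp₁ p hpp
      have h4 : T / 2 ≤ Real.log p := by
        have h5 : Real.log ((X : ℝ) / 2) ≤ Real.log p := Real.log_le_log (by positivity) h2
        rw [Real.log_div hX0.ne' (by norm_num)] at h5
        have h6 := Real.log_two_lt_d9
        linarith
      have h5 : (1 + κ) / κ * L ≤ w p := by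
        refine le_trans ?_ h3
        calc (1 + κ) / κ * L ≤ (1 + κ) / κ * T ^ 2 := by gcongr
          _ = 4 * (1 + κ) / κ * (T / 2) ^ 2 := by ring
          _ ≤ 4 * (1 + κ) / κ * Real.log p ^ 2 := by gcongr
      have hwp : (0 : ℝ) < w p := lt_of_lt_of_le (by positivity) h5
      have h6 : aS w (Wi u L i) p ≤ L / w p := by
        unfold aS
        refine (Finset.sum_le_sum fun x _ => fp_le w p x).trans (le_of_eq ?_)
        rw [Finset.sum_const, Wi_card, nsmul_eq_mul]
        ring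
      calc aS w (Wi u L i) p * (1 + κ) ≤ L / w p * (1 + κ) := by gcongr
        _ = L * (1 + κ) / w p := by ring
        _ ≤ κ := by
            rw [div_le_iff₀ hwp]
            rw [div_mul_eq_mul_div, div_le_iff₀ hκ0] at h5
            linarith
    · have h1 : aS w (Wi u L i) p = 0 := by
        unfold aS
        refine Finset.sum_eq_zero fun x hx => ?_
        have h2 := (hsub x hx).1
        unfold fp
        rw [if_neg]
        omega
      rw [h1, zero_mul]
      exact hκ0.le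
  -- Jensen
  have hJ : (m : ℝ) * Real.exp (-((1 + κ) * ((∑ i ∈ Finset.range m, S i) / m))) ≤
      ∑ i ∈ Finset.range m, Real.exp (-((1 + κ) * S i)) := by
    have h1 := convexOn_exp.map_sum_le (t := Finset.range m) (w := fun _ => 1 / (m : ℝ))
      (p := fun i => -((1 + κ) * S i)) (fun _ _ => by positivity)
      (by rw [Finset.sum_const, Finset.card_range, nsmul_eq_mul]; field_simp)
      (fun _ _ => Set.mem_univ _)
    simp only [smul_eq_mul] at h1
    rw [← Finset.mul_sum, ← Finset.mul_sum, Finset.sum_neg_distrib, ← Finset.mul_sum] at h1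
    have h2 : 1 / (m : ℝ) * -((1 + κ) * ∑ i ∈ Finset.range m, S i) =
        -((1 + κ) * ((∑ i ∈ Finset.range m, S i) / m)) := by ring
    rw [h2] at h1
    calc (m : ℝ) * Real.exp (-((1 + κ) * ((∑ i ∈ Finset.range m, S i) / m)))
        ≤ m * (1 / (m : ℝ) * ∑ i ∈ Finset.range m, Real.exp (-((1 + κ) * S i))) := by gcongr
      _ = ∑ i ∈ Finset.range m, Real.exp (-((1 + κ) * S i)) := by field_simp
  have hexpo : (1 + κ) * ((∑ i ∈ Finset.range m, S i) / m) ≤ (1 - ε / 2) * T := by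
    have h1 : (∑ i ∈ Finset.range m, S i) / m ≤ (D + κ) * (X / T) / m := by gcongr
    have h2 : (X : ℝ) / m ≤ (1 - ε) * T ^ 2 / ((1 - κ) * D) := by
      have h3 : 0 < (1 - κ) * D := mul_pos (by linarith) hD0
      rw [div_le_div_iff₀ hmr h3]
      linarith
    have h3 : (1 + κ) * ((D + κ) * (X / T) / m) = (1 + κ) * (D + κ) / T * (X / m) := by ring
    have h4 : (1 + κ) * (D + κ) * (1 - ε) ≤ (1 - ε / 2) * ((1 - κ) * D) := by
      have h5 : (1 + κ) * (D + κ) * (1 - ε) =
          ε / 3 * ((1 + ε ^ 2 / 100) * (1 + 3 * ε / 100) * (1 - ε)) := by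
        rw [hκ, hD]; ring
      have h6 : (1 - ε / 2) * ((1 - κ) * D) = ε / 3 * ((1 - ε / 2) * (1 - ε ^ 2 / 100)) := by
        rw [hκ, hD]; ring
      rw [h5, h6]
      have h7 : (1 + ε ^ 2 / 100) * (1 + 3 * ε / 100) * (1 - ε) ≤ (1 - ε / 2) * (1 - ε ^ 2 / 100) := by
        have h8 : (1 + ε ^ 2 / 100) ≤ 1 + ε / 100 := by nlinarith
        have h9 : (1 + ε ^ 2 / 100) * (1 + 3 * ε / 100) ≤ 1 + ε / 10 := by nlinarith
        have h10 : (1 + ε ^ 2 / 100) * (1 + 3 * ε / 100) * (1 - ε) ≤ (1 + ε / 10) * (1 - ε) :=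
          mul_le_mul_of_nonneg_right h9 (by linarith)
        have h11 : (1 + ε / 10) * (1 - ε) ≤ 1 - 9 * ε / 10 := by nlinarith
        have h12 : 1 - ε / 2 - ε ^ 2 / 100 ≤ (1 - ε / 2) * (1 - ε ^ 2 / 100) := by nlinarith [pow_pos hε 3]
        nlinarith
      gcongr
    calc (1 + κ) * ((∑ i ∈ Finset.range m, S i) / m) ≤ (1 + κ) * ((D + κ) * (X / T) / m) := by gcongr
      _ = (1 + κ) * (D + κ) / T * (X / m) := h3
      _ ≤ (1 + κ) * (D + κ) / T * ((1 - ε) * T ^ 2 / ((1 - κ) * D)) := by gcongr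
      _ = ((1 + κ) * (D + κ) * (1 - ε)) * T / ((1 - κ) * D) := by field_simp
      _ ≤ ((1 - ε / 2) * ((1 - κ) * D)) * T / ((1 - κ) * D) := by
          have h5 : 0 < (1 - κ) * D := mul_pos (by linarith) hD0
          gcongr
      _ = (1 - ε / 2) * T := by
          have h5 : 0 < (1 - κ) * D := mul_pos (by linarith) hD0
          rw [mul_right_comm, mul_div_assoc, div_self h5.ne', mul_one]
  -- the expected number of empty windows
  have hEN : (X : ℝ) ^ (ε / 4) ≤ ∑ i ∈ Finset.range m, P.real (Emp U v (Wi u L i)) := by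
    have h1 : (X : ℝ) ^ (1 - ε / 4) ≤ m := by
      have h2 : (X : ℝ) ^ (1 - ε / 4) * T ^ 2 ≤ m * T ^ 2 := by
        calc (X : ℝ) ^ (1 - ε / 4) * T ^ 2 = 1 * (X : ℝ) ^ (1 - ε / 4) * T ^ 2 := by ring
          _ ≤ (1 - κ) * D * X := g5
          _ ≤ m * ((1 - ε) * T ^ 2) := hmT
          _ ≤ m * T ^ 2 := by
              gcongr
              nlinarith [sq_nonneg T]
      exact le_of_mul_le_mul_right h2 (by positivity)
    have h2 : (X : ℝ) ^ (-(1 - ε / 2)) ≤ Real.exp (-((1 + κ) * ((∑ i ∈ Finset.range m, S i) / m))) := by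
      rw [Real.rpow_def_of_pos hX0]
      apply Real.exp_le_exp.2
      rw [← hT]
      linarith
    calc (X : ℝ) ^ (ε / 4) = (X : ℝ) ^ (1 - ε / 4) * (X : ℝ) ^ (-(1 - ε / 2)) := by
          rw [← Real.rpow_add hX0]; congr 1; ring
      _ ≤ m * Real.exp (-((1 + κ) * ((∑ i ∈ Finset.range m, S i) / m))) := by gcongr
      _ ≤ ∑ i ∈ Finset.range m, Real.exp (-((1 + κ) * S i)) := hJ
      _ ≤ _ := Finset.sum_le_sum hP
  have hfin := second_moment P (Finset.range m) (fun i => Emp U v (Wi u L i))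
    (fun i _ => emp_meas U hU v _)
    (fun i _ j _ hij => emp_pair P U hU hind w hw hunif v _ _ (Wi_disj u L hij))
    ((X : ℝ) ^ (ε / 4)) (by positivity) hEN
  rw [Real.rpow_neg hX0.le]
  rw [one_div] at hfin
  exact hfin

end Pool.Agent.helper306_pp
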