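import Pool.Agent.helper306_pp.Cr3

/-!
# Long gaps between moved primes: almost sure statement
-/

set_option autoImplicit false

namespace Pool.Agent.helper306_pp

open MeasureTheory ProbabilityTheory Filter Topology
open Pool.Agent.helper306_gaps (Pc mem_Pc window_bounds tendsto_log_nat Consec surround)

variable {Ω : Type*} [MeasurableSpace Ω]

/-- the moved primes -/
def Mv (u : ℕ → ℕ) : Set ℕ := {m | ∃ p : ℕ, p.Prime ∧ p + u p = m}

lemma bc' {μ : Measure Ω} {B : ℕ → Set Ω} {f : ℕ → ℝ} (hf : Summable f) (hf0 : ∀ n, 0 ≤ f n)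
    (h : ∀ᶠ n in atTop, μ (B n) ≤ ENNReal.ofReal (f n)) :
    ∀ᵐ ω ∂μ, ∀ᶠ n in atTop, ω ∉ B n := by
  obtain ⟨N, hN⟩ := eventually_atTop.mp h
  have h1 : ∀ᵐ ω ∂μ, ∀ᶠ n in atTop, ω ∉ (if N ≤ n then B n else ∅) := by
    refine ae_eventually_notMem ?_
    have h2 : ∀ n, μ (if N ≤ n then B n else ∅) ≤ ENNReal.ofReal (f n) := by
      intro n
      split_ifs with hn
      · exact hN n hn
      · simp
    refine ne_top_of_le_ne_top ?_ (ENNReal.tsum_le_tsum h2)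
    rw [← ENNReal.ofReal_tsum_of_nonneg hf0 hf]
    exact ENNReal.ofReal_ne_top
  filter_upwards [h1] with ω hω
  filter_upwards [hω, eventually_ge_atTop N] with n hn hNn
  rwa [if_pos hNn] at hn

theorem long_gaps (P : Measure Ω) [IsProbabilityMeasure P] (U : ℕ → Ω → ℕ)
    (hU : ∀ n, Measurable (U n)) (hind : iIndepFun U P) (w : ℕ → ℕ)
    (hw : ∀ p : ℕ, p.Prime → 0 < w p)
    (hunif : ∀ p : ℕ, p.Prime → ∀ j < w p, P {ω | U p ω = j} = (w p : ENNReal)⁻¹)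
    (hs : Small w) (hl : Large w) (ε : ℝ) (hε : 0 < ε) (hε1 : ε ≤ 1 / 2) :
    ∀ᵐ ω ∂P, ∀ᶠ X : ℕ in atTop, ∃ q q' : ℕ, Consec (Mv (fun p => U p ω)) q q' ∧ X < q ∧
      (q' : ℝ) ≤ (1 + 2 * ε) * X ∧ (1 - ε) * Real.log X ^ 2 ≤ (q' : ℝ) - q := by
  set r : ℝ := 1 + ε / 4 with hr
  have hr1 : 1 < r := by rw [hr]; linarith
  have hr0 : 0 < r := by linarith
  set Xk : ℕ → ℕ := fun k => ⌊r ^ k⌋₊ with hXk
  have hrk : Tendsto (fun k : ℕ => r ^ k) atTop atTop := tendsto_pow_atTop_atTop_of_one_lt hr1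
  have hXt : Tendsto Xk atTop atTop := tendsto_nat_floor_atTop.comp hrk
  -- the bad events
  set B : ℕ → Set Ω := fun k =>
    {ω | ∀ i ∈ Finset.range ((⌊(1 + 2 * ε / 3) * (Xk k : ℝ)⌋₊ - ⌊(1 + ε / 3) * (Xk k : ℝ)⌋₊) /
      ⌊(1 - ε) * Real.log (Xk k) ^ 2⌋₊), ω ∉ Emp U ⌊(1 + 2 * ε / 3) * (Xk k : ℝ)⌋₊
      (Wi ⌊(1 + ε / 3) * (Xk k : ℝ)⌋₊ ⌊(1 - ε) * Real.log (Xk k) ^ 2⌋₊ i)} with hB
  have hnone := hXt.eventually (none_le P U hU hind w hw hunif hs hl ε hε hε1)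
  set ρ : ℝ := r ^ (-(ε / 4)) with hρ
  have hρ0 : 0 < ρ := by positivity
  have hρ1 : ρ < 1 := Real.rpow_lt_one_of_one_lt_of_neg hr1 (by linarith)
  have hBn : ∀ᶠ k : ℕ in atTop, P (B k) ≤ ENNReal.ofReal (2 * ρ ^ k) := by
    filter_upwards [hnone, hrk.eventually_ge_atTop 2] with k h1 h2
    have h3 : P.real (B k) ≤ (Xk k : ℝ) ^ (-(ε / 4)) := h1 _ _ _ rfl rfl rfl
    have h4 : r ^ k / 2 ≤ (Xk k : ℝ) := by
      have h5 : r ^ k < ((⌊r ^ k⌋₊ : ℕ) : ℝ) + 1 := Nat.lt_floor_add_one _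
      rw [hXk]
      simp only
      linarith
    have h5 : (Xk k : ℝ) ^ (-(ε / 4)) ≤ (r ^ k / 2) ^ (-(ε / 4)) :=
      Real.rpow_le_rpow_of_nonpos (by positivity) h4 (by linarith)
    have h6 : (r ^ k / 2) ^ (-(ε / 4)) ≤ 2 * ρ ^ k := by
      rw [Real.div_rpow (by positivity) (by norm_num), Real.rpow_neg (by norm_num : (0 : ℝ) ≤ 2),
        div_inv_eq_mul, mul_comm]
      have h7 : (r ^ k) ^ (-(ε / 4)) = ρ ^ k := by
        rw [hρ, ← Real.rpow_natCast, ← Real.rpow_natCast, ← Real.rpow_mul hr0.le,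
          ← Real.rpow_mul hr0.le, mul_comm]
      rw [h7]
      have h8 : (2 : ℝ) ^ (ε / 4) ≤ 2 ^ (1 : ℝ) :=
        Real.rpow_le_rpow_of_exponent_le (by norm_num) (by linarith)
      rw [Real.rpow_one] at h8
      gcongr
    rw [← ENNReal.ofReal_toReal (measure_ne_top P (B k))]
    exact ENNReal.ofReal_le_ofReal (h3.trans (h5.trans h6))
  have hbc := bc' (μ := P) (f := fun k : ℕ => 2 * ρ ^ k)
    ((summable_geometric_of_lt_one hρ0.le hρ1).mul_left 2) (fun k => by positivity) hBn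
  have hlt : ∀ᵐ ω ∂P, ∀ p : ℕ, p.Prime → U p ω < w p := by
    rw [ae_all_iff]
    intro p
    by_cases hp : p.Prime
    · filter_upwards [ae_lt' P (U p) (hU p) (w p) (hw p hp) (hunif p hp)] with ω hω _
      exact hω
    · exact Eventually.of_forall fun ω h => absurd h hp
  have hm1 := hXt.eventually (meet w hs 1 (1 + ε / 3) le_rfl (by linarith))
  have hm2 := hXt.eventually (meet w hs (1 + 2 * ε / 3) (1 + ε) (by linarith) (by linarith))
  filter_upwards [hbc, hlt] with ω hω hωlt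
  -- the gaps at the scales `Xk k`
  have hk : ∀ᶠ k : ℕ in atTop, ∃ q q' : ℕ, Consec (Mv (fun p => U p ω)) q q' ∧ Xk k < q ∧
      (q' : ℝ) ≤ (1 + ε) * Xk k ∧ (1 - ε) * Real.log (Xk k) ^ 2 ≤ (q' : ℝ) - q := by
    filter_upwards [hω, hm1, hm2] with k h1 h2 h3
    obtain ⟨p1, hp1, h4, h5⟩ := h2 (fun p => U p ω) hωlt
    obtain ⟨p2, hp2, h6, h7⟩ := h3 (fun p => U p ω) hωlt
    rw [one_mul, Nat.floor_natCast] at h4
    simp only [hB, Set.mem_ofPred_eq, not_forall, not_not] at h1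
    obtain ⟨i, hi, hE⟩ := h1
    set X := Xk k with hX
    set u := ⌊(1 + ε / 3) * (X : ℝ)⌋₊ with hu
    set v := ⌊(1 + 2 * ε / 3) * (X : ℝ)⌋₊ with hv
    set L := ⌊(1 - ε) * Real.log X ^ 2⌋₊ with hL
    rw [Finset.mem_range] at hi
    have hX0 : (0 : ℝ) ≤ X := Nat.cast_nonneg _
    have huv : u ≤ v := Nat.floor_le_floor (by
      apply mul_le_mul_of_nonneg_right _ hX0
      linarith)
    have hsub := Wi_sub u v L i huv hi
    have hiL : (i + 1) * L ≤ v - u := (Nat.mul_le_mul_right L hi).trans (Nat.div_mul_le_self _ _)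
    have hiL2 : (i + 1) * L = i * L + L := by ring
    obtain ⟨q, q', hc, hq1, hq2, hq3, hq4⟩ := surround (R := Mv (fun p => U p ω)) (X := X) (a := u)
      (u := u + i * L) (v := u + (i + 1) * L) (b := v) (Z := ⌊(1 + ε) * (X : ℝ)⌋₊)
      ⟨p1 + U p1 ω, ⟨p1, hp1, rfl⟩, h4, h5⟩ ⟨p2 + U p2 ω, ⟨p2, hp2, rfl⟩, h6, h7⟩
      (Nat.le_add_right _ _) (by omega) (by omega) (by
        rintro m hm1 hm2 ⟨p, hp, hpm⟩
        have hmW : m ∈ Wi u L i := by
          unfold Wi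
          rw [Finset.mem_Ioc]
          exact ⟨hm1, hm2⟩
        have hmv := (hsub m hmW).2
        have hpv : p ∈ Pr v := by
          simp only [Pr, Finset.mem_filter, Finset.mem_range]
          exact ⟨by omega, hp⟩
        have h8 := hE p hpv
        rw [hpm] at h8
        exact h8 hmW)
    refine ⟨q, q', hc, hq1, ?_, ?_⟩
    · exact (Nat.le_floor_iff (by positivity)).1 hq4
    · have h8 : q + L + 1 ≤ q' := by omega
      have h9 : (q : ℝ) + L + 1 ≤ q' := by exact_mod_cast h8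
      have h10 : (1 - ε) * Real.log X ^ 2 < L + 1 := Nat.lt_floor_add_one _
      linarith
  obtain ⟨k₀, hk₀⟩ := eventually_atTop.1 hk
  have hXr : Tendsto (fun X : ℕ => (X : ℝ)) atTop atTop := tendsto_natCast_atTop_atTop
  filter_upwards [eventually_ge_atTop 2, hXr.eventually_gt_atTop (r ^ k₀)] with X g1 g2
  have hex : ∃ k, X ≤ Xk k := (hXt.eventually_ge_atTop X).exists
  set k := Nat.find hex with hkdef
  have hk1 : X ≤ Xk k := Nat.find_spec hex
  have hkk : k₀ ≤ k := by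
    by_contra h
    push Not at h
    have h1 : (Xk k : ℝ) ≤ r ^ k := Nat.floor_le (by positivity)
    have h2 : r ^ k ≤ r ^ k₀ := pow_le_pow_right₀ hr1.le h.le
    have h3 : (X : ℝ) ≤ Xk k := by exact_mod_cast hk1
    linarith
  have hkpos : 1 ≤ k := by
    by_contra h
    have h0 : k = 0 := by omega
    rw [h0] at hk1
    have : Xk 0 = 1 := by rw [hXk]; simp
    omega
  have hk2 : (Xk k : ℝ) ≤ r * X := by
    have h1 : ¬ X ≤ Xk (k - 1) := Nat.find_min hex (by omega)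
    have h2 : ⌊r ^ (k - 1)⌋₊ < X := not_le.1 h1
    have h3 : r ^ (k - 1) < X := (Nat.floor_lt (by positivity)).1 h2
    have h4 : (Xk k : ℝ) ≤ r ^ k := Nat.floor_le (by positivity)
    have h5 : r ^ k = r * r ^ (k - 1) := by
      rw [← pow_succ']
      congr 1
      omega
    calc (Xk k : ℝ) ≤ r ^ k := h4
      _ = r * r ^ (k - 1) := h5
      _ ≤ r * X := by gcongr
  obtain ⟨q, q', hc, h1, h2, h3⟩ := hk₀ k hkk
  have hXpos : (0 : ℝ) < X := by
    have : 0 < X := by omega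
    exact_mod_cast this
  refine ⟨q, q', hc, by omega, ?_, ?_⟩
  · calc (q' : ℝ) ≤ (1 + ε) * Xk k := h2
      _ ≤ (1 + ε) * (r * X) := by gcongr
      _ ≤ (1 + 2 * ε) * X := by
          rw [← mul_assoc]
          apply mul_le_mul_of_nonneg_right _ hXpos.le
          rw [hr]
          nlinarith
  · refine le_trans ?_ h3
    have h4 : Real.log X ≤ Real.log (Xk k) :=
      Real.log_le_log hXpos (by exact_mod_cast hk1)
    have h5 : 0 ≤ Real.log X := Real.log_natCast_nonneg X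
    have h6 : 0 ≤ 1 - ε := by linarith
    gcongr

end Pool.Agent.helper306_pp
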