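import Pool.Agent.helper306_pp.Cr4
import Pool.Agent.H424.RB.Base

/-!
# The gaps between moved primes are not too long
-/

set_option autoImplicit false

namespace Pool.Agent.helper306_pp

open MeasureTheory ProbabilityTheory Filter Topology
open Pool.Agent.helper306_gaps (Pc mem_Pc window_bounds tendsto_log_nat Consec surround)

variable {Ω : Type*} [MeasurableSpace Ω]

theorem upper_gaps (P : Measure Ω) [IsProbabilityMeasure P] (U : ℕ → Ω → ℕ)
    (hU : ∀ n, Measurable (U n)) (hind : iIndepFun U P) (w : ℕ → ℕ)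
    (hw : ∀ p : ℕ, p.Prime → 0 < w p)
    (hunif : ∀ p : ℕ, p.Prime → ∀ j < w p, P {ω | U p ω = j} = (w p : ENNReal)⁻¹)
    (c : ℝ) (hc : 0 < c) (hrho : ∀ᶠ y : ℕ in atTop, c ≤ rho w y * Real.log y)
    (ε : ℝ) (hε : 0 < ε) :
    ∀ᵐ ω ∂P, ∀ᶠ q : ℕ in atTop, ∀ q' : ℕ, Consec (Mv (fun p => U p ω)) q q' →
      (q' : ℝ) - q ≤ (1 + ε) / c * Real.log q ^ 2 := by
  set a : ℝ := (1 + ε) / c with ha
  have ha0 : 0 < a := by positivity
  set L : ℕ → ℕ := fun x => ⌊a * Real.log x ^ 2⌋₊ with hL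
  set B : ℕ → Set Ω := fun x => Emp U (x + L x) (Finset.Ioc x (x + L x)) with hB
  obtain ⟨y₀, hy₀⟩ := eventually_atTop.1 hrho
  have hBn : ∀ᶠ x : ℕ in atTop, P (B x) ≤ ENNReal.ofReal (1 / (x : ℝ) ^ (1 + ε / 2)) := by
    filter_upwards [tendsto_log_nat.eventually_ge_atTop (max 1 (2 / ε * (c + (1 + ε / 2)))),
      pls 0 2 (by norm_num) a ha0 1 (by norm_num), eventually_ge_atTop (max y₀ 2)] with x g1 g2 g3
    set T := Real.log (x : ℝ) with hT
    have hT1 : 1 ≤ T := (le_max_left _ _).trans g1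
    have hT2 : 2 / ε * (c + (1 + ε / 2)) ≤ T := (le_max_right _ _).trans g1
    have hx2 : 2 ≤ x := (le_max_right _ _).trans g3
    have hxy : y₀ ≤ x := (le_max_left _ _).trans g3
    have hxr : (2 : ℝ) ≤ x := by exact_mod_cast hx2
    have hx0 : (0 : ℝ) < x := by linarith
    rw [Real.rpow_zero, mul_one, one_mul] at g2
    have hLx : (L x : ℝ) ≤ x := (Nat.floor_le (by positivity)).trans g2
    have hLT : a * T ^ 2 - 1 ≤ L x := by
      have : a * T ^ 2 < (L x : ℝ) + 1 := Nat.lt_floor_add_one _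
      linarith
    have h1 : P.real (B x) ≤ Real.exp (-∑ y ∈ Finset.Ioc x (x + L x), rho w y) :=
      emp_le P U hU hind w hw hunif (x + L x) _ (fun y hy => (Finset.mem_Ioc.1 hy).2)
    have h2 : ∀ y ∈ Finset.Ioc x (x + L x), c / (T + 1) ≤ rho w y := by
      intro y hy
      rw [Finset.mem_Ioc] at hy
      have h3 := hy₀ y (by omega)
      have hyr : (x : ℝ) ≤ y := by exact_mod_cast hy.1.le
      have hy0 : (0 : ℝ) < y := by linarith
      have h4 : Real.log y ≤ T + 1 := by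
        have h5 : (y : ℝ) ≤ 2 * x := by
          have h6 : (y : ℝ) ≤ x + L x := by exact_mod_cast hy.2
          linarith
        calc Real.log y ≤ Real.log (2 * x) := Real.log_le_log hy0 h5
          _ = Real.log 2 + T := by rw [Real.log_mul (by norm_num) hx0.ne']
          _ ≤ T + 1 := by
              have := Real.log_two_lt_d9
              linarith
      rw [div_le_iff₀ (by linarith)]
      exact h3.trans (mul_le_mul_of_nonneg_left h4 (rho_nonneg _ _))
    have h3 : (1 + ε / 2) * T ≤ ∑ y ∈ Finset.Ioc x (x + L x), rho w y := by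
      have h4 : (L x : ℝ) * (c / (T + 1)) ≤ ∑ y ∈ Finset.Ioc x (x + L x), rho w y := by
        refine le_trans (le_of_eq ?_) (Finset.sum_le_sum h2)
        rw [Finset.sum_const, Nat.card_Ioc, Nat.add_sub_cancel_left, nsmul_eq_mul]
      refine le_trans ?_ h4
      rw [mul_div_assoc', le_div_iff₀ (by linarith)]
      have h5 : (a * T ^ 2 - 1) * c ≤ L x * c := by gcongr
      have h6 : a * T ^ 2 * c = (1 + ε) * T ^ 2 := by rw [ha]; field_simp
      have h7 : 2 / ε * (c + (1 + ε / 2)) * T ≤ T * T := by gcongr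
      have h8 : (c + (1 + ε / 2)) * T ≤ ε / 2 * (T * T) := by
        have h9 : ε / 2 * (2 / ε * (c + (1 + ε / 2)) * T) = (c + (1 + ε / 2)) * T := by field_simp
        rw [← h9]
        gcongr
      have h9 : c ≤ c * T := by nlinarith
      nlinarith
    have h4 : P.real (B x) ≤ 1 / (x : ℝ) ^ (1 + ε / 2) := by
      refine h1.trans ?_
      rw [one_div, ← Real.rpow_neg hx0.le, Real.rpow_def_of_pos hx0]
      apply Real.exp_le_exp.2
      rw [← hT]
      linarith
    rw [← ENNReal.ofReal_toReal (measure_ne_top P (B x))]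
    exact ENNReal.ofReal_le_ofReal h4
  have hbc := bc' (μ := P) (f := fun x : ℕ => 1 / (x : ℝ) ^ (1 + ε / 2))
    (Real.summable_one_div_nat_rpow.mpr (by linarith)) (fun x => by positivity) hBn
  filter_upwards [hbc] with ω hω
  filter_upwards [hω] with q hq q' hqq
  by_contra hcon
  push Not at hcon
  apply hq
  have h1 : (L q : ℝ) ≤ a * Real.log q ^ 2 := Nat.floor_le (by positivity)
  have h2 : q + L q < q' := by
    have h3 : (q : ℝ) + L q < q' := by linarith
    exact_mod_cast h3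
  intro p hp hmem
  rw [Finset.mem_Ioc] at hmem
  simp only [Pr, Finset.mem_filter] at hp
  exact hqq.2.2.2 (p + U p ω) hmem.1 (by omega) ⟨p, hp.2, rfl⟩

/-- the widths vary slowly -/
def Regu (w : ℕ → ℕ) : Prop := ∀ κ : ℝ, 0 < κ → ∀ᶠ y : ℕ in atTop, ∀ p : ℕ, p ≤ y →
  y ≤ p + 2 * w y → |(w p : ℝ) - w y| ≤ κ * w y

/-- the mean density is bounded below by the density of the primes in short intervals -/
lemma rho_ge (w : ℕ → ℕ) (hl : Large w) (hr : Regu w) (η : ℝ) (hη : 0 < η)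
    (hN : ∀ᶠ y : ℕ in atTop, ∀ v : ℕ, v ≤ w y → w y ≤ 2 * v →
      η * v ≤ ((Pc (y - v) y).card : ℝ) * Real.log y)
    (κ : ℝ) (hκ : 0 < κ) (hκ1 : κ ≤ 1 / 4) :
    ∀ᶠ y : ℕ in atTop, η * (1 - 3 * κ) ≤ rho w y * Real.log y := by
  filter_upwards [hN, hr κ hκ, hl (1 / κ), tendsto_log_nat.eventually_ge_atTop 1] with y g1 g2 g3 g4
  set T := Real.log (y : ℝ) with hT
  have hT0 : 0 < T := by linarith
  have hwκ : 1 / κ ≤ w y := by
    refine le_trans ?_ g3
    have : 1 ≤ T ^ 2 := by nlinarith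
    have h0 : 0 < 1 / κ := by positivity
    nlinarith
  have hwκ' : 1 ≤ κ * w y := by
    rw [div_le_iff₀ hκ] at hwκ
    linarith
  have hw0 : (0 : ℝ) < w y := lt_of_lt_of_le (by positivity) hwκ
  set v := ⌊(1 - κ) * (w y : ℝ)⌋₊ with hv
  have hv1 : (v : ℝ) ≤ (1 - κ) * w y := Nat.floor_le (mul_nonneg (by linarith) hw0.le)
  have hv2 : (1 - κ) * w y < v + 1 := Nat.lt_floor_add_one _
  have hvw : v ≤ w y := by
    have : (v : ℝ) ≤ w y := by nlinarith
    exact_mod_cast this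
  have hwv : w y ≤ 2 * v := by
    have : (w y : ℝ) ≤ 2 * v := by nlinarith
    exact_mod_cast this
  have h1 := g1 v hvw hwv
  -- the density
  have h2 : ((Pc (y - v) y).card : ℝ) * (1 / ((1 + κ) * w y)) ≤ rho w y := by
    have h3 : ∑ p ∈ Pc (y - v) y, 1 / ((1 + κ) * (w y : ℝ)) ≤ ∑ p ∈ Pc (y - v) y, fp w p y := by
      refine Finset.sum_le_sum fun p hp => ?_
      rw [mem_Pc] at hp
      have h4 := g2 p hp.1.2 (by omega)
      rw [abs_le] at h4
      have h5 : (v : ℝ) ≤ w p := by linarith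
      have h6 : v ≤ w p := by exact_mod_cast h5
      unfold fp
      rw [if_pos ⟨hp.1.2, by omega⟩]
      have h7 : (0 : ℝ) < w p := by nlinarith
      apply one_div_le_one_div_of_le h7
      linarith
    rw [Finset.sum_const, nsmul_eq_mul] at h3
    refine h3.trans ?_
    unfold rho
    refine Finset.sum_le_sum_of_subset_of_nonneg ?_ (fun _ _ _ => fp_nonneg _ _ _)
    intro p hp
    rw [mem_Pc] at hp
    simp only [Pr, Finset.mem_filter, Finset.mem_range]
    exact ⟨by omega, hp.2⟩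
  calc η * (1 - 3 * κ) ≤ η * ((1 - 2 * κ) / (1 + κ)) := by
        gcongr
        rw [le_div_iff₀ (by linarith)]
        nlinarith
    _ = η * ((1 - 2 * κ) * w y) * (1 / ((1 + κ) * w y)) := by field_simp
    _ ≤ η * v * (1 / ((1 + κ) * w y)) := by
        gcongr
        nlinarith
    _ ≤ (((Pc (y - v) y).card : ℝ) * T) * (1 / ((1 + κ) * w y)) := by gcongr
    _ = ((Pc (y - v) y).card : ℝ) * (1 / ((1 + κ) * w y)) * T := by ring
    _ ≤ rho w y * T := by gcongr

/-- primes in short intervals from the prime number theorem with a strong error term -/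
lemma strong (w : ℕ → ℕ) (hs : Small w) (A : ℕ)
    (hA : ∀ᶠ y : ℕ in atTop, (y : ℝ) / Real.log y ^ A ≤ w y) (κ : ℝ) (hκ : 0 < κ) :
    ∀ᶠ y : ℕ in atTop, ∀ v : ℕ, v ≤ w y → w y ≤ 2 * v →
      (1 - κ) * v ≤ ((Pc (y - v) y).card : ℝ) * Real.log y := by
  obtain ⟨C, hC, hpnt⟩ := Pool.Agent.H424.RB.theta_pnt (A + 1)
  filter_upwards [hs (1 / 2) (by norm_num), hA, eventually_ge_atTop 4,
    tendsto_log_nat.eventually_ge_atTop (max 2 (2 * (C * (1 + 2 ^ (A + 1))) / κ))]
    with y g1 g2 g3 g4 v hv1 hv2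
  set T := Real.log (y : ℝ) with hT
  have hT2 : 2 ≤ T := (le_max_left _ _).trans g4
  have hTC : 2 * (C * (1 + 2 ^ (A + 1))) / κ ≤ T := (le_max_right _ _).trans g4
  have hyr : (4 : ℝ) ≤ y := by exact_mod_cast g3
  have hvr : (v : ℝ) ≤ w y := by exact_mod_cast hv1
  have hvr2 : (w y : ℝ) ≤ 2 * v := by exact_mod_cast hv2
  have hvy : (v : ℝ) ≤ y / 2 := by linarith
  have hvy' : v ≤ y := by
    have : (v : ℝ) ≤ y := by linarith
    exact_mod_cast this
  have hcast : ((y - v : ℕ) : ℝ) = y - v := by rw [Nat.cast_sub hvy']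
  -- the two values of theta
  have h1 := hpnt (y : ℝ) (by linarith)
  have h2 := hpnt ((y : ℝ) - v) (by linarith)
  have h3 : Chebyshev.theta (y : ℝ) - Chebyshev.theta ((y : ℝ) - v) ≤
      ((Pc (y - v) y).card : ℝ) * T := by
    have h4 : Chebyshev.theta (y : ℝ) = ∑ p ∈ (Finset.Ioc 0 y).filter Nat.Prime, Real.log p := by
      unfold Chebyshev.theta
      rw [Nat.floor_natCast]
    have h5 : Chebyshev.theta ((y : ℝ) - v) =
        ∑ p ∈ (Finset.Ioc 0 (y - v)).filter Nat.Prime, Real.log p := by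
      rw [← hcast]
      unfold Chebyshev.theta
      rw [Nat.floor_natCast]
    have h6 : (Finset.Ioc 0 y).filter Nat.Prime =
        (Finset.Ioc 0 (y - v)).filter Nat.Prime ∪ Pc (y - v) y := by
      ext p
      rw [Finset.mem_union, Finset.mem_filter, Finset.mem_filter, mem_Pc, Finset.mem_Ioc,
        Finset.mem_Ioc]
      constructor
      · rintro ⟨⟨h7, h8⟩, h9⟩
        rcases Nat.lt_or_ge (y - v) p with h10 | h10
        · exact Or.inr ⟨⟨h10, h8⟩, h9⟩
        · exact Or.inl ⟨⟨h7, h10⟩, h9⟩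
      · rintro (⟨⟨h7, h8⟩, h9⟩ | ⟨⟨h7, h8⟩, h9⟩)
        · exact ⟨⟨h7, by omega⟩, h9⟩
        · exact ⟨⟨by omega, h8⟩, h9⟩
    have h7 : Disjoint ((Finset.Ioc 0 (y - v)).filter Nat.Prime) (Pc (y - v) y) := by
      rw [Finset.disjoint_left]
      intro p hp hp'
      rw [Finset.mem_filter, Finset.mem_Ioc] at hp
      rw [mem_Pc] at hp'
      omega
    rw [h4, h5, h6, Finset.sum_union h7, add_sub_cancel_left]
    calc ∑ p ∈ Pc (y - v) y, Real.log p ≤ ∑ _p ∈ Pc (y - v) y, T := by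
          refine Finset.sum_le_sum fun p hp => ?_
          rw [mem_Pc] at hp
          have h8 : 0 < p := by omega
          exact Real.log_le_log (by exact_mod_cast h8) (by exact_mod_cast hp.1.2)
      _ = ((Pc (y - v) y).card : ℝ) * T := by rw [Finset.sum_const, nsmul_eq_mul]
  rw [abs_le] at h1 h2
  have hlog2 : T / 2 ≤ Real.log ((y : ℝ) - v) := by
    have h5 : (y : ℝ) / 2 ≤ y - v := by linarith
    have h6 : Real.log ((y : ℝ) / 2) ≤ Real.log ((y : ℝ) - v) := Real.log_le_log (by linarith) h5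
    rw [Real.log_div (by linarith) (by norm_num)] at h6
    have h7 := Real.log_two_lt_d9
    linarith
  have herr1 : C * (y : ℝ) / T ^ (A + 1) ≤ C * (w y / T) := by
    have h5 : (y : ℝ) ≤ w y * T ^ A := by
      rw [div_le_iff₀ (by positivity)] at g2
      exact g2
    rw [pow_succ, mul_div_assoc]
    refine mul_le_mul_of_nonneg_left ?_ hC.le
    rw [div_le_div_iff₀ (by positivity) (by positivity)]
    calc (y : ℝ) * T ≤ (w y * T ^ A) * T := by gcongr
      _ = w y * (T ^ A * T) := by ring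
  have herr2 : C * ((y : ℝ) - v) / Real.log ((y : ℝ) - v) ^ (A + 1) ≤
      2 ^ (A + 1) * (C * (y : ℝ) / T ^ (A + 1)) := by
    have h5 : 0 ≤ (v : ℝ) := Nat.cast_nonneg v
    calc C * ((y : ℝ) - v) / Real.log ((y : ℝ) - v) ^ (A + 1) ≤ C * y / (T / 2) ^ (A + 1) := by
          gcongr
          linarith
      _ = 2 ^ (A + 1) * (C * (y : ℝ) / T ^ (A + 1)) := by
          rw [div_pow]
          field_simp
  have h5 : 2 ^ (A + 1) * (C * (y : ℝ) / T ^ (A + 1)) ≤ 2 ^ (A + 1) * (C * (w y / T)) := by gcongr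
  have h6 : C * (w y / T) + 2 ^ (A + 1) * (C * (w y / T)) ≤ κ * v := by
    have h7 : C * (w y / T) + 2 ^ (A + 1) * (C * (w y / T)) = C * (1 + 2 ^ (A + 1)) * w y / T := by
      ring
    rw [h7, div_le_iff₀ (by linarith)]
    rw [div_le_iff₀ hκ] at hTC
    have h8 : 0 ≤ (v : ℝ) := Nat.cast_nonneg v
    calc C * (1 + 2 ^ (A + 1)) * w y ≤ C * (1 + 2 ^ (A + 1)) * (2 * v) := by gcongr
      _ = 2 * (C * (1 + 2 ^ (A + 1))) * v := by ring
      _ ≤ (T * κ) * v := by gcongr
      _ = κ * v * T := by ring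
  linarith

/-- primes in short intervals from the theorem of Hoheisel type -/
lemma hoh : ∃ δ η : ℝ, 0 < δ ∧ δ < 1 ∧ 0 < η ∧ ∀ w : ℕ → ℕ, Small w →
    (∀ᶠ y : ℕ in atTop, (y : ℝ) ^ (1 - δ) ≤ w y) →
    ∀ᶠ y : ℕ in atTop, ∀ v : ℕ, v ≤ w y → w y ≤ 2 * v →
      η * v ≤ ((Pc (y - v) y).card : ℝ) * Real.log y := by
  obtain ⟨δ, η, hδ, hδ1, hη, X₀, hX₀, h⟩ := Pool.Agent.H295R3.D.hoheisel
  refine ⟨δ / 2, η, by linarith, by linarith, hη, fun w hs hw => ?_⟩
  have hpw : Tendsto (fun n : ℕ => (n : ℝ) ^ (δ / 2)) atTop atTop :=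
    (tendsto_rpow_atTop (by linarith)).comp tendsto_natCast_atTop_atTop
  filter_upwards [hs (1 / 2) (by norm_num), hw, hpw.eventually_ge_atTop 2,
    eventually_ge_atTop (2 * X₀ + 4)] with y g1 g2 g3 g4 v hv1 hv2
  have hyr : (4 : ℝ) ≤ y := by
    have : 4 ≤ y := by omega
    exact_mod_cast this
  have hy0 : (0 : ℝ) < y := by linarith
  have hvr : (v : ℝ) ≤ w y := by exact_mod_cast hv1
  have hvr2 : (w y : ℝ) ≤ 2 * v := by exact_mod_cast hv2
  have hvy : 2 * v ≤ y := by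
    have : (2 : ℝ) * v ≤ y := by linarith
    exact_mod_cast this
  have hcast : ((y - v : ℕ) : ℝ) = y - v := by rw [Nat.cast_sub (by omega)]
  have h1 := h (y - v) v (by omega) (by
    rw [hcast]
    have h2 : (y : ℝ) ^ (1 - δ) * 2 ≤ (y : ℝ) ^ (1 - δ / 2) := by
      calc (y : ℝ) ^ (1 - δ) * 2 ≤ (y : ℝ) ^ (1 - δ) * (y : ℝ) ^ (δ / 2) := by gcongr
        _ = (y : ℝ) ^ (1 - δ / 2) := by
            rw [← Real.rpow_add hy0]
            congr 1
            ring
    have h3 : ((y : ℝ) - v) ^ (1 - δ) ≤ (y : ℝ) ^ (1 - δ) := by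
      have h4 : (2 : ℝ) * v ≤ y := by exact_mod_cast hvy
      have h5 : (0 : ℝ) ≤ v := Nat.cast_nonneg v
      exact Real.rpow_le_rpow (by linarith) (by linarith) (by linarith)
    linarith) (by omega)
  have h2 : y - v + v = y := by omega
  rw [h2] at h1
  have h3 : 0 < Real.log ((y - v : ℕ) : ℝ) := by
    apply Real.log_pos
    have : 1 < y - v := by omega
    exact_mod_cast this
  have h4 : Real.log ((y - v : ℕ) : ℝ) ≤ Real.log y := by
    apply Real.log_le_log
    · have : 0 < y - v := by omega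
      exact_mod_cast this
    · exact_mod_cast Nat.sub_le y v
  rw [div_le_iff₀ h3] at h1
  refine h1.trans ?_
  have h5 : (Finset.Ioc (y - v) y).filter Nat.Prime = Pc (y - v) y := rfl
  rw [h5]
  gcongr

end Pool.Agent.helper306_pp
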