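import Pool.Agent.helper306_pp.Cr5

/-!
# Gaps between moved primes
-/

set_option autoImplicit false

namespace Pool.Agent.helper306_pp

open MeasureTheory ProbabilityTheory Filter Topology
open Pool.Agent.helper306_gaps (Pc mem_Pc window_bounds tendsto_log_nat Consec surround)

lemma ae_eps {Ω : Type*} [MeasurableSpace Ω] {μ : Measure Ω} {P : ℝ → Ω → Prop} {c : ℝ}
    (hc : 0 < c) (hmono : ∀ ε ε' ω, ε ≤ ε' → P ε ω → P ε' ω)
    (h : ∀ ε, 0 < ε → ε < c → ∀ᵐ ω ∂μ, P ε ω) : ∀ᵐ ω ∂μ, ∀ ε, 0 < ε → P ε ω := by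
  have h1 : ∀ n : ℕ, ∀ᵐ ω ∂μ, P (c / (n + 2)) ω := by
    intro n
    refine h _ (by positivity) ?_
    rw [div_lt_iff₀ (by positivity)]
    nlinarith [(Nat.cast_nonneg n : (0 : ℝ) ≤ n)]
  rw [← ae_all_iff] at h1
  filter_upwards [h1] with ω hω ε hε
  obtain ⟨n, hn⟩ := exists_nat_gt (c / ε)
  refine hmono _ _ ω ?_ (hω n)
  rw [div_lt_iff₀ hε] at hn
  rw [div_le_iff₀ (by positivity)]
  nlinarith

theorem moved_gaps : ∃ δ C : ℝ, 0 < δ ∧ δ < 1 ∧ 0 < C ∧
    ∀ w : ℕ → ℕ, (∀ p : ℕ, p.Prime → 0 < w p) →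
      Tendsto (fun p : ℕ => (w p : ℝ) / Real.log p ^ 2) atTop atTop →
      Tendsto (fun p : ℕ => (w p : ℝ) / p) atTop (𝓝 0) →
    ∀ (Ω : Type*) (_ : MeasurableSpace Ω) (P : Measure Ω) (_ : IsProbabilityMeasure P)
      (U : ℕ → Ω → ℕ), (∀ p, Measurable (U p)) → iIndepFun U P →
      (∀ p : ℕ, p.Prime → ∀ j < w p, P {ω | U p ω = j} = (w p : ENNReal)⁻¹) →
      ∀ᵐ ω ∂P,
        (∀ ε : ℝ, 0 < ε → ∀ᶠ X : ℕ in atTop, ∃ q q', Consec (Mv (fun p => U p ω)) q q' ∧
          X < q ∧ (q' : ℝ) ≤ (1 + ε) * X ∧ (1 - ε) * Real.log X ^ 2 ≤ (q' : ℝ) - q) ∧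
        (Regu w → (∃ A : ℕ, ∀ᶠ p : ℕ in atTop, (p : ℝ) / Real.log p ^ A ≤ w p) →
          ∀ ε : ℝ, 0 < ε → ∀ᶠ q : ℕ in atTop, ∀ q', Consec (Mv (fun p => U p ω)) q q' →
            (q' : ℝ) - q ≤ (1 + ε) * Real.log q ^ 2) ∧
        (Regu w → (∀ᶠ p : ℕ in atTop, (p : ℝ) ^ (1 - δ) ≤ w p) →
          ∀ᶠ q : ℕ in atTop, ∀ q', Consec (Mv (fun p => U p ω)) q q' →
            (q' : ℝ) - q ≤ C * Real.log q ^ 2) := by
  obtain ⟨δ, η, hδ, hδ1, hη, hhoh⟩ := hoh
  refine ⟨δ, 8 / η, hδ, hδ1, by positivity, ?_⟩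
  intro w hw hwl hws Ω mΩ P hP U hU hind hunif
  have hl : Large w := by
    intro K
    filter_upwards [hwl.eventually_ge_atTop K, tendsto_log_nat.eventually_gt_atTop 0] with p h1 h2
    rw [le_div_iff₀ (by positivity)] at h1
    exact h1
  have hs : Small w := by
    intro κ hκ
    filter_upwards [hws.eventually (gt_mem_nhds hκ), eventually_gt_atTop 0] with p h1 h2
    have hp : (0 : ℝ) < p := by exact_mod_cast h2
    rw [div_lt_iff₀ hp] at h1
    exact h1.le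
  have hA : ∀ᵐ ω ∂P, ∀ ε : ℝ, 0 < ε → ∀ᶠ X : ℕ in atTop, ∃ q q',
      Consec (Mv (fun p => U p ω)) q q' ∧
      X < q ∧ (q' : ℝ) ≤ (1 + ε) * X ∧ (1 - ε) * Real.log X ^ 2 ≤ (q' : ℝ) - q := by
    refine ae_eps (c := 1 / 2) (by norm_num)
      (P := fun ε ω => ∀ᶠ X : ℕ in atTop, ∃ q q', Consec (Mv (fun p => U p ω)) q q' ∧
      X < q ∧ (q' : ℝ) ≤ (1 + ε) * X ∧ (1 - ε) * Real.log X ^ 2 ≤ (q' : ℝ) - q) ?_ ?_
    · intro ε ε' ω hεε h
      filter_upwards [h] with X hX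
      obtain ⟨q, q', h1, h2, h3, h4⟩ := hX
      refine ⟨q, q', h1, h2, h3.trans ?_, le_trans ?_ h4⟩
      · have : (0 : ℝ) ≤ X := Nat.cast_nonneg X
        gcongr
      · gcongr
    · intro ε hε hε1
      filter_upwards [long_gaps P U hU hind w hw hunif hs hl (ε / 2) (by linarith) (by linarith)]
        with ω h
      filter_upwards [h] with X hX
      obtain ⟨q, q', h1, h2, h3, h4⟩ := hX
      refine ⟨q, q', h1, h2, h3.trans (le_of_eq (by ring)), le_trans ?_ h4⟩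
      gcongr
      linarith
  have hB : ∀ᵐ ω ∂P, Regu w → (∃ A : ℕ, ∀ᶠ p : ℕ in atTop, (p : ℝ) / Real.log p ^ A ≤ w p) →
      ∀ ε : ℝ, 0 < ε → ∀ᶠ q : ℕ in atTop, ∀ q', Consec (Mv (fun p => U p ω)) q q' →
        (q' : ℝ) - q ≤ (1 + ε) * Real.log q ^ 2 := by
    by_cases hr : Regu w
    · by_cases hex : ∃ A : ℕ, ∀ᶠ p : ℕ in atTop, (p : ℝ) / Real.log p ^ A ≤ w p
      · obtain ⟨A, hA'⟩ := hex
        have hall : ∀ᵐ ω ∂P, ∀ ε : ℝ, 0 < ε → ∀ᶠ q : ℕ in atTop, ∀ q',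
            Consec (Mv (fun p => U p ω)) q q' → (q' : ℝ) - q ≤ (1 + ε) * Real.log q ^ 2 := by
          refine ae_eps (c := 1) (by norm_num)
            (P := fun ε ω => ∀ᶠ q : ℕ in atTop, ∀ q',
              Consec (Mv (fun p => U p ω)) q q' → (q' : ℝ) - q ≤ (1 + ε) * Real.log q ^ 2) ?_ ?_
          · intro ε ε' ω hεε h
            filter_upwards [h] with q hq q' hqq
            refine (hq q' hqq).trans ?_
            gcongr
          · intro ε hε hε1
            have hκ0 : 0 < ε / 20 := by positivity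
            have hN := strong w hs A hA' (ε / 20) hκ0
            have hrho := rho_ge w hl hr (1 - ε / 20) (by linarith) hN (ε / 20) hκ0 (by linarith)
            have hc0 : 0 < (1 - ε / 20) * (1 - 3 * (ε / 20)) := mul_pos (by linarith) (by linarith)
            filter_upwards [upper_gaps P U hU hind w hw hunif _ hc0 hrho (ε / 2) (by linarith)]
              with ω h
            filter_upwards [h] with q hq q' hqq
            refine (hq q' hqq).trans ?_
            gcongr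
            rw [div_le_iff₀ hc0]
            have h5 : 1 - ε / 5 ≤ (1 - ε / 20) * (1 - 3 * (ε / 20)) := by nlinarith
            have h6 : (1 + ε) * (1 - ε / 5) ≤ (1 + ε) * ((1 - ε / 20) * (1 - 3 * (ε / 20))) := by
              gcongr
            nlinarith
        filter_upwards [hall] with ω h _ _
        exact h
      · exact Eventually.of_forall fun ω _ h => absurd h hex
    · exact Eventually.of_forall fun ω h => absurd h hr
  have hC : ∀ᵐ ω ∂P, Regu w → (∀ᶠ p : ℕ in atTop, (p : ℝ) ^ (1 - δ) ≤ w p) →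
      ∀ᶠ q : ℕ in atTop, ∀ q', Consec (Mv (fun p => U p ω)) q q' →
        (q' : ℝ) - q ≤ 8 / η * Real.log q ^ 2 := by
    by_cases hr : Regu w
    · by_cases hex : ∀ᶠ p : ℕ in atTop, (p : ℝ) ^ (1 - δ) ≤ w p
      · have hN := hhoh w hs hex
        have hrho := rho_ge w hl hr η hη hN (1 / 4) (by norm_num) le_rfl
        have hc0 : 0 < η * (1 - 3 * (1 / 4)) := mul_pos hη (by norm_num)
        filter_upwards [upper_gaps P U hU hind w hw hunif _ hc0 hrho 1 one_pos] with ω h _ _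
        filter_upwards [h] with q hq q' hqq
        refine (hq q' hqq).trans (le_of_eq ?_)
        congr 1
        field_simp
        norm_num
      · exact Eventually.of_forall fun ω _ h => absurd h hex
    · exact Eventually.of_forall fun ω h => absurd h hr
  filter_upwards [hA, hB, hC] with ω h1 h2 h3
  exact ⟨h1, h2, h3⟩

end Pool.Agent.helper306_pp
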