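import Pool.Agent.helper24_UT.Zsx
import Pool.Agent.helper24_UT.T1
import Pool.Agent.helper24_UT.Rs
import Pool.Agent.helper24_UT.Rz
import Pool.Agent.helper24_UT.Fb
import Pool.Agent.helper24_UT.T341
import Pool.Agent.helper24_UT.Conv
import Pool.Agent.helper24_UT.Gb
import Pool.Agent.helper24_UT.Riesz
import Pool.Agent.helper24_UT.Pg
import Pool.Agent.helper24_UT.P1
import Pool.Agent.helper24_UT.M1
import Pool.Agent.helper24_UT.Pap
import Pool.Agent.helper24_UT.Hb
import Pool.Agent.helper24_UT.Vdc2
import Pool.Agent.helper24_UT.Ii13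
import Pool.Agent.helper24_UT.Ti13
import Pool.Agent.helper24_UT.I213
import Pool.Agent.helper24_UT.Frl13
import Pool.Agent.helper24_UT.Fr13
import Pool.Agent.helper24_UT.Win
import Pool.Agent.helper24_UT.Sil13
import Pool.Agent.helper24_UT.Si13

/-!
# Assembly: the primes in almost all short intervals of length `X ^ (1 / 3 + ε)`

This repeats the lines of helper24's assembly (`Pool.Agent.helper24_UT.Ch1`, `Ch6`, `Ch7`) which lead to
`S_SI13`, with fewer imports.
-/

set_option autoImplicit false

namespace Pool.Agent.helper306_pp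

open Pool.Agent.helper24_UT

theorem t_T1 : S_T1 := T1.main Zsx.main
theorem t_GB : S_GB := Gb.main Rs.main Rz.main (Fb.main Rz.main) T341.main Conv.main
theorem t_PG : S_PG := Pg.main t_GB Riesz.main
theorem t_P1 : S_P1 := P1.main t_T1 t_PG
theorem t_M1 : S_M1 := M1.main t_P1
theorem t_MAP : S_MAP := (Pap.main t_P1 t_M1).2
theorem t_II13 : S_II13 := Ii13.main t_MAP t_T1
theorem t_I213 : S_I213 := I213.main Vdc2.main
theorem t_FRL13 : S_FRL13 := Frl13.main Hb.main t_II13 Ti13.main t_I213
theorem t_FR13 : S_FR13 := Fr13.main t_FRL13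
theorem t_SIL13 : S_SIL13 := Sil13.main Win.main t_FR13
theorem t_SI13 : S_SI13 := Si13.main t_SIL13

end Pool.Agent.helper306_pp
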