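import Pool.Agent.helper306_pp.Mn
import Pool.Agent.helper306_pp.SI

/-!
# The number of representations by perturbed primes
-/

set_option autoImplicit false

namespace Pool.Agent.helper306_pp

open MeasureTheory ProbabilityTheory Filter Topology

lemma pow_log_small (a : ℝ) (k : ℕ) (ha : a < 1) (C : ℝ) (hC : 0 < C) (δ : ℝ) (hδ : 0 < δ) :
    ∀ᶠ n : ℕ in atTop, C * (n : ℝ) ^ a * Real.log n ^ k ≤ δ * n := by
  have h1 : ∀ᶠ y : ℝ in atTop, ‖Real.log y ^ (k : ℝ)‖ ≤ δ / C * ‖y ^ (1 - a)‖ :=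
    (isLittleO_log_rpow_rpow_atTop (k : ℝ) (by linarith : 0 < 1 - a)).def (by positivity)
  filter_upwards [tendsto_natCast_atTop_atTop.eventually h1, eventually_ge_atTop 1] with n h2 h3
  have hn : (1 : ℝ) ≤ n := by exact_mod_cast h3
  have hn0 : (0 : ℝ) < n := by linarith
  have hL := Real.log_nonneg hn
  rw [Real.rpow_natCast, Real.norm_eq_abs, Real.norm_eq_abs, abs_of_nonneg (by positivity),
    abs_of_nonneg (by positivity)] at h2
  calc C * (n : ℝ) ^ a * Real.log n ^ k ≤ C * (n : ℝ) ^ a * (δ / C * (n : ℝ) ^ (1 - a)) := by gcongr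
    _ = δ * ((n : ℝ) ^ a * (n : ℝ) ^ (1 - a)) := by field_simp
    _ = δ * n := by
        rw [← Real.rpow_add hn0]
        congr 1
        rw [show a + (1 - a) = 1 by ring, Real.rpow_one]

theorem main (H : ℕ → ℕ) (h1 : ∀ j, 1 ≤ H j) (h2 : ∀ j, H j ≤ 2 ^ j)
    (θ θ' : ℝ) (hθ : 1 / 3 < θ) (hθ' : θ' < 1)
    (h3 : ∀ᶠ j : ℕ in atTop, (2 : ℝ) ^ (θ * j) ≤ H j)
    (h4 : ∀ᶠ j : ℕ in atTop, (H j : ℝ) ≤ 2 ^ (θ' * j))
    {Ω : Type*} [MeasurableSpace Ω] (P : Measure Ω) [IsProbabilityMeasure P] (U : ℕ → Ω → ℕ)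
    (hU : ∀ n, Measurable (U n)) (hind : iIndepFun U P)
    (hunif : ∀ p : ℕ, p.Prime → ∀ j < wH H p, P {ω | U p ω = j} = (wH H p : ENNReal)⁻¹) :
    ∀ᵐ ω ∂P, Tendsto (fun n : ℕ => Rep (fun p => U p ω) n * Real.log n ^ 2 / n) atTop
      (𝓝 (1 / 2)) := by
  -- `0 ≤ θ'`
  have hθ0' : 0 ≤ θ' := by
    obtain ⟨j, hj⟩ := ((h3.and h4).and (eventually_ge_atTop 1)).exists
    have h5 : (2 : ℝ) ^ (θ * j) ≤ 2 ^ (θ' * j) := hj.1.1.trans hj.1.2
    have h6 : θ * j ≤ θ' * j := (Real.rpow_le_rpow_left_iff (by norm_num)).1 h5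
    have hj1 : (1 : ℝ) ≤ j := by exact_mod_cast hj.2
    nlinarith
  have hwpos : ∀ p : ℕ, p.Prime → 0 < wH H p := fun p _ => h1 _
  have hwle := wH_le H h2
  have hlt : ∀ᵐ ω ∂P, ∀ p : ℕ, p.Prime → U p ω < wH H p := by
    rw [ae_all_iff]
    intro p
    by_cases hp : p.Prime
    · filter_upwards [ae_lt' P (U p) (hU p) (wH H p) (hwpos p hp) (hunif p hp)] with ω hω _
      exact hω
    · exact Eventually.of_forall fun ω h => absurd h hp
  obtain ⟨j₀, hj₀⟩ := eventually_atTop.1 (h3.and h4)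
  -- the mean
  have hmean : ∀ δ : ℝ, 0 < δ → ∀ᶠ n : ℕ in atTop,
      |Mean P U n - 1 / 2 * (n / Real.log n ^ 2)| ≤ δ * (n / Real.log n ^ 2) := by
    intro δ hδ
    have hc := conv t_SI13 Pool.Agent.helper24_UT.Gsu.main H h1 h2 θ θ' hθ hθ0' hθ' h3 h4 δ hδ
    have hs := pow_log_small (1 - θ) 2 (by linarith) (2 * 8 ^ θ) (by positivity) δ hδ
    filter_upwards [hc, hs, eventually_ge_atTop (8 * 2 ^ j₀ + 2)] with n g1 g2 g3
    have hn2 : 2 ≤ n := by omega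
    have hnr : (2 : ℝ) ≤ n := by exact_mod_cast hn2
    have hn0 : (0 : ℝ) < n := by linarith
    set L := Real.log (n : ℝ) with hL
    have hL0 : 0 < L := Real.log_pos (by linarith)
    have hm := mean_eq P U hU hind (wH H) hwpos hunif n
    have hd := diag_le (wH H) hwpos n (((n : ℝ) / 8) ^ θ) (by positivity) hwle (by
      intro p hp hnp
      set i := Nat.log 2 p with hi
      have h5 : p < 2 ^ (i + 1) := Nat.lt_pow_succ_log_self (by norm_num) p
      have h6 : n < 8 * 2 ^ i := by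
        rw [pow_succ] at h5
        omega
      have h7 : j₀ ≤ i := by
        by_contra h8
        have h9 : 2 ^ i ≤ 2 ^ j₀ := Nat.pow_le_pow_right (by norm_num) (by omega)
        omega
      have h8 := (hj₀ i h7).1
      have h9 : (n : ℝ) / 8 ≤ 2 ^ i := by
        have : (n : ℝ) ≤ 8 * 2 ^ i := by exact_mod_cast h6.le
        linarith
      calc ((n : ℝ) / 8) ^ θ ≤ ((2 : ℝ) ^ i) ^ θ :=
            Real.rpow_le_rpow (by positivity) h9 (by linarith)
        _ = (2 : ℝ) ^ (θ * i) := by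
            rw [← Real.rpow_natCast, ← Real.rpow_mul (by norm_num), mul_comm]
        _ ≤ (wH H p : ℝ) := h8)
    have hd0 : 0 ≤ ∑ p ∈ Pr n, Fc (wH H) n p p := Finset.sum_nonneg fun p _ => Fc_nonneg _ _ _ _
    have hd2 : ((n : ℝ) + 1) / ((n : ℝ) / 8) ^ θ ≤ δ * (n / L ^ 2) := by
      have h5 : (n : ℝ) + 1 ≤ 2 * n := by linarith
      have h6 : (2 * (n : ℝ)) / ((n : ℝ) / 8) ^ θ = 2 * 8 ^ θ * (n : ℝ) ^ (1 - θ) := by
        rw [Real.div_rpow hn0.le (by norm_num), Real.rpow_sub hn0, Real.rpow_one]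
        field_simp
      calc ((n : ℝ) + 1) / ((n : ℝ) / 8) ^ θ ≤ (2 * n) / ((n : ℝ) / 8) ^ θ := by gcongr
        _ = 2 * 8 ^ θ * (n : ℝ) ^ (1 - θ) := h6
        _ ≤ δ * (n / L ^ 2) := by
            rw [← mul_div_assoc, le_div_iff₀ (by positivity)]
            exact g2
    rw [abs_le] at g1 ⊢
    constructor <;> linarith
  -- all the `ε = 1 / (k + 1)`
  have hconc : ∀ k : ℕ, ∀ᵐ ω ∂P, ∀ᶠ n : ℕ in atTop, ∀ W : ℕ, (∀ p ≤ n, p.Prime → wH H p ≤ W) →
      |Rep (fun p => U p ω) n - Mean P U n| ≤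
        1 / ((k : ℝ) + 1) * Mean P U n + (2 * W + 1) * (5 / (1 / ((k : ℝ) + 1)) * Real.log n) := by
    intro k
    refine conc P U hU hind (wH H) hlt (1 / ((k : ℝ) + 1)) (by positivity) ?_
    rw [div_le_one (by positivity)]
    have : (0 : ℝ) ≤ k := Nat.cast_nonneg k
    linarith
  filter_upwards [ae_all_iff.2 hconc] with ω hω
  rw [Metric.tendsto_atTop]
  intro η hη
  -- choose `k`
  obtain ⟨k, hk⟩ := exists_nat_gt (4 / η)
  set ε : ℝ := 1 / ((k : ℝ) + 1) with hε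
  have hk0 : (0 : ℝ) ≤ k := Nat.cast_nonneg k
  have hε0 : 0 < ε := by positivity
  have hε1 : ε ≤ 1 := by
    rw [hε, div_le_one (by positivity)]
    linarith
  have hεη : 4 * ε < η := by
    rw [hε, mul_one_div, div_lt_iff₀ (by positivity)]
    rw [div_lt_iff₀ hη] at hk
    nlinarith
  have hA : (0 : ℝ) < 3 * (2 * (2 ^ j₀ + 2) + 1) * (5 / ε) := by positivity
  have hs := pow_log_small θ' 3 hθ' (3 * (2 * (2 ^ j₀ + 2) + 1) * (5 / ε)) hA ε hε0
  have hevt : ∀ᶠ n : ℕ in atTop,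
      |Rep (fun p => U p ω) n * Real.log n ^ 2 / n - 1 / 2| < η := by
    filter_upwards [hω k, hmean ε hε0, hs, eventually_ge_atTop 3] with n g1 g2 g3 g4
    have hnr : (3 : ℝ) ≤ n := by exact_mod_cast g4
    have hn0 : (0 : ℝ) < n := by linarith
    set L := Real.log (n : ℝ) with hL
    have hL0 : 0 < L := Real.log_pos (by linarith)
    set Q : ℝ := n / L ^ 2 with hQ
    have hQ0 : 0 < Q := by positivity
    set W : ℕ := ⌈(n : ℝ) ^ θ'⌉₊ + 2 ^ j₀ with hW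
    have hn1 : (1 : ℝ) ≤ (n : ℝ) ^ θ' := Real.one_le_rpow (by linarith) hθ0'
    have hWle : (W : ℝ) ≤ (2 ^ j₀ + 2) * (n : ℝ) ^ θ' := by
      have h5 := Nat.ceil_lt_add_one (R := ℝ) (a := (n : ℝ) ^ θ') (by positivity)
      rw [hW]
      push_cast
      have h6 : (2 : ℝ) ^ j₀ ≤ 2 ^ j₀ * (n : ℝ) ^ θ' := le_mul_of_one_le_right (by positivity) hn1
      nlinarith
    have hWall : ∀ p ≤ n, p.Prime → wH H p ≤ W := by
      intro p hpn hp
      unfold wH
      set i := Nat.log 2 p with hi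
      rcases Nat.lt_or_ge i j₀ with h5 | h5
      · have h6 : H i ≤ 2 ^ j₀ := (h2 i).trans (Nat.pow_le_pow_right (by norm_num) h5.le)
        omega
      · have h6 := (hj₀ i h5).2
        have h7 : (2 : ℝ) ^ (θ' * i) ≤ (n : ℝ) ^ θ' := by
          have h8 : 2 ^ i ≤ n := (Nat.pow_log_le_self 2 hp.ne_zero).trans hpn
          have h9 : (2 : ℝ) ^ i ≤ n := by exact_mod_cast h8
          calc (2 : ℝ) ^ (θ' * i) = ((2 : ℝ) ^ i) ^ θ' := by
                rw [← Real.rpow_natCast, ← Real.rpow_mul (by norm_num), mul_comm]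
            _ ≤ (n : ℝ) ^ θ' := Real.rpow_le_rpow (by positivity) h9 hθ0'
        have h8 : (H i : ℝ) ≤ ⌈(n : ℝ) ^ θ'⌉₊ := (h6.trans h7).trans (Nat.le_ceil _)
        have h9 : H i ≤ ⌈(n : ℝ) ^ θ'⌉₊ := by exact_mod_cast h8
        exact h9.trans (Nat.le_add_right _ _)
    have h5 := g1 W hWall
    rw [← hε] at h5
    have herr : (2 * (W : ℝ) + 1) * (5 / ε * L) ≤ ε * Q := by
      have h6 : 2 * (W : ℝ) + 1 ≤ 3 * (2 * (2 ^ j₀ + 2) + 1) * (n : ℝ) ^ θ' := by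
        nlinarith
      rw [hQ, ← mul_div_assoc, le_div_iff₀ (by positivity)]
      calc (2 * (W : ℝ) + 1) * (5 / ε * L) * L ^ 2
          ≤ (3 * (2 * (2 ^ j₀ + 2) + 1) * (n : ℝ) ^ θ') * (5 / ε * L) * L ^ 2 := by gcongr
        _ = 3 * (2 * (2 ^ j₀ + 2) + 1) * (5 / ε) * (n : ℝ) ^ θ' * L ^ 3 := by ring
        _ ≤ ε * n := g3
    have hMle : Mean P U n ≤ 2 * Q := by
      rw [abs_le] at g2
      nlinarith [g2.2]
    have htot : |Rep (fun p => U p ω) n - 1 / 2 * Q| ≤ 4 * ε * Q := by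
      have h6 : Rep (fun p => U p ω) n - 1 / 2 * Q =
          (Rep (fun p => U p ω) n - Mean P U n) + (Mean P U n - 1 / 2 * Q) := by ring
      rw [h6]
      refine (abs_add_le _ _).trans ?_
      have h7 : ε * Mean P U n ≤ ε * (2 * Q) := by gcongr
      linarith
    have h6 : Rep (fun p => U p ω) n * L ^ 2 / n - 1 / 2 = (Rep (fun p => U p ω) n - 1 / 2 * Q) / Q := by
      rw [hQ]
      field_simp
    rw [h6, abs_div, abs_of_pos hQ0, div_lt_iff₀ hQ0]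
    calc |Rep (fun p => U p ω) n - 1 / 2 * Q| ≤ 4 * ε * Q := htot
      _ < η * Q := by gcongr
  obtain ⟨N, hN⟩ := eventually_atTop.1 hevt
  exact ⟨N, fun n hn => by rw [Real.dist_eq]; exact hN n hn⟩

end Pool.Agent.helper306_pp
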