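import Pool.Agent.helper306_pp.TwoW
import Pool.Agent.helper306_pp.SI

/-!
# The expected number of representations as the sum of a prime and a perturbed prime
-/

set_option autoImplicit false

namespace Pool.Agent.helper306_pp

open Finset Filter
open Pool.Agent.helper24_UT (S_SI13 S_GSU expG)

lemma pow_log_small' (a : ℝ) (k : ℕ) (ha : a < 1) (C : ℝ) (hC : 0 < C) (δ : ℝ) (hδ : 0 < δ) :
    ∀ᶠ n : ℕ in atTop, C * (n : ℝ) ^ a * Real.log n ^ k ≤ δ * n := by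
  have h1 : ∀ᶠ y : ℝ in atTop, ‖Real.log y ^ (k : ℝ)‖ ≤ δ / C * ‖y ^ (1 - a)‖ :=
    (isLittleO_log_rpow_rpow_atTop (k : ℝ) (by linarith : 0 < 1 - a)).def (by positivity)
  filter_upwards [tendsto_natCast_atTop_atTop.eventually h1, eventually_ge_atTop 1] with n h2 h3
  have hn : (1 : ℝ) ≤ n := by exact_mod_cast h3
  have hn0 : (0 : ℝ) < n := by linarith
  have hL := Real.log_nonneg hn
  rw [Real.rpow_natCast, Real.norm_eq_abs, Real.norm_eq_abs, abs_of_nonneg (by positivity),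
    abs_of_nonneg (by positivity)] at h2
  calc C * (n : ℝ) ^ a * Real.log n ^ k ≤ C * (n : ℝ) ^ a * (δ / C * (n : ℝ) ^ (1 - a)) := by gcongr
    _ = δ * ((n : ℝ) ^ a * (n : ℝ) ^ (1 - a)) := by field_simp
    _ = δ * n := by
        rw [← Real.rpow_add hn0]
        congr 1
        rw [show a + (1 - a) = 1 by ring, Real.rpow_one]

theorem meanB (H : ℕ → ℕ) (h1 : ∀ j, 1 ≤ H j) (h2 : ∀ j, H j ≤ 2 ^ j)
    (θ θ' : ℝ) (hθ : 1 / 3 < θ) (hθθ : θ ≤ θ') (hθ' : θ' < 1)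
    (h3 : ∀ᶠ j : ℕ in atTop, (2 : ℝ) ^ (θ * j) ≤ H j)
    (h4 : ∀ᶠ j : ℕ in atTop, (H j : ℝ) ≤ 2 ^ (θ' * j)) (δ : ℝ) (hδ : 0 < δ) :
    ∀ᶠ n : ℕ in atTop,
      |∑ p ∈ Pr n, rho (wH H) (n - p) - n / Real.log n ^ 2| ≤ δ * (n / Real.log n ^ 2) := by
  have hθ0 : 0 < θ := by linarith
  have hθ1 : θ < 1 := by linarith
  set θ₂ : ℝ := (1 / 3 + θ) / 2 with hθ₂
  have hθ₂1 : 1 / 3 < θ₂ := by rw [hθ₂]; linarith
  have hθ₂2 : θ₂ < θ := by rw [hθ₂]; linarith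
  have hθ₂0 : 0 < θ₂ := by linarith
  set θ₃ : ℝ := (1 + θ₂) / 2 with hθ₃
  have hθ₃1 : θ₃ < 1 := by rw [hθ₃]; linarith
  have hθ₃2 : θ₂ < θ₃ := by rw [hθ₃]; linarith
  set κ : ℝ := (θ + θ₂) / (2 * θ) with hκ
  have hκθ : κ * θ = (θ + θ₂) / 2 := by rw [hκ]; field_simp
  have hκ1 : κ < 1 := by rw [hκ, div_lt_one (by positivity)]; linarith
  have hκ0 : 0 < κ := by rw [hκ]; positivity
  have hκ2 : θ₂ < κ := by
    have h5 : θ₂ < κ * θ := by rw [hκθ]; linarith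
    have h6 : κ * θ < κ * 1 := by gcongr
    linarith
  -- the auxiliary widths
  set T : ℕ → ℕ := fun j => ⌈(2 : ℝ) ^ (θ₂ * (j : ℝ))⌉₊ with hT
  have hT1 : ∀ j, 1 ≤ T j := fun j => Nat.one_le_ceil_iff.2 (by positivity)
  have hT2 : ∀ j, T j ≤ 2 ^ j := by
    intro j
    rw [hT]
    refine Nat.ceil_le.2 ?_
    push_cast
    rw [← Real.rpow_natCast]
    apply Real.rpow_le_rpow_of_exponent_le (by norm_num)
    have : (0 : ℝ) ≤ j := Nat.cast_nonneg j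
    nlinarith
  have hT3 : ∀ᶠ j : ℕ in atTop, (2 : ℝ) ^ (θ₂ * j) ≤ T j := Eventually.of_forall fun j => Nat.le_ceil _
  have hcast : Tendsto (fun j : ℕ => (j : ℝ)) atTop atTop := tendsto_natCast_atTop_atTop
  have hT4 : ∀ᶠ j : ℕ in atTop, (T j : ℝ) ≤ 2 ^ (θ₃ * j) := by
    filter_upwards [hcast.eventually_ge_atTop (1 / (θ₃ - θ₂))] with j hj
    rw [div_le_iff₀ (by linarith)] at hj
    have hj0 : (0 : ℝ) ≤ j := Nat.cast_nonneg j
    have h5 : (1 : ℝ) ≤ (2 : ℝ) ^ (θ₂ * (j : ℝ)) := Real.one_le_rpow (by norm_num) (by positivity)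
    have h6 := Nat.ceil_lt_add_one (R := ℝ) (a := (2 : ℝ) ^ (θ₂ * (j : ℝ))) (by positivity)
    calc (T j : ℝ) ≤ 2 ^ (1 : ℝ) * (2 : ℝ) ^ (θ₂ * (j : ℝ)) := by
          rw [Real.rpow_one]
          rw [hT]
          simp only
          linarith
      _ = 2 ^ (1 + θ₂ * (j : ℝ)) := by rw [← Real.rpow_add (by norm_num)]
      _ ≤ 2 ^ (θ₃ * j) := by
          apply Real.rpow_le_rpow_of_exponent_le (by norm_num)
          linarith
  -- bounds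
  obtain ⟨M₁, hM₁, hMb₁⟩ := rho_sup H h2 θ hθ0 h3
  obtain ⟨M₂, hM₂, hMb₂⟩ := rho_sup T hT2 θ₂ hθ₂0 hT3
  set M := max M₁ M₂ with hM
  have hMM1 : M₁ ≤ M := le_max_left _ _
  have hMM2 : M₂ ≤ M := le_max_right _ _
  have hM1 : 1 ≤ M := hM₁.trans hMM1
  have hl1 : ∀ δ : ℝ, 0 < δ → ∀ᶠ n : ℕ in atTop,
      ∑ x ∈ range (n + 1), |rho (wH H) x - 1 / Real.log x| ≤ δ * (n / Real.log n) := fun δ hδ =>
    l1 t_SI13 H h1 h2 θ θ' hθ (by linarith) hθ' h3 h4 M₁ hM₁ (fun x => (hMb₁ x).2) δ hδ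
  have hl2 : ∀ δ : ℝ, 0 < δ → ∀ᶠ n : ℕ in atTop,
      ∑ x ∈ range (n + 1), |rho (wH T) x - 1 / Real.log x| ≤ δ * (n / Real.log n) := fun δ hδ =>
    l1 t_SI13 T hT1 hT2 θ₂ θ₃ hθ₂1 (by linarith) hθ₃1 hT3 hT4 M₂ hM₂ (fun x => (hMb₂ x).2) δ hδ
  have hc := conv2 Pool.Agent.helper24_UT.Gsu.main (rho (wH T)) (rho (wH H)) (rho_nonneg _)
    (rho_nonneg _) M hM1 (fun x => ⟨(hMb₂ x).1.trans hMM2, (hMb₂ x).2.trans hMM2⟩)
    (fun x => ⟨(hMb₁ x).1.trans hMM1, (hMb₁ x).2.trans hMM1⟩) hl2 hl1 (δ / 2) (by positivity)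
  obtain ⟨j₀, hj₀⟩ := eventually_atTop.1 h3
  have hs1 := pow_log_small' (1 - (κ * θ - θ₂)) 2 (by rw [hκθ]; linarith) (16 * 8 ^ θ) (by positivity)
    (δ / 4) (by positivity)
  have hs2 := pow_log_small' κ 2 hκ1 (2 * M) (by positivity) (δ / 4) (by positivity)
  have hpw1 : Tendsto (fun n : ℕ => (n : ℝ) ^ (κ - θ₂)) atTop atTop :=
    (tendsto_rpow_atTop (by linarith)).comp tendsto_natCast_atTop_atTop
  have hpw2 : Tendsto (fun n : ℕ => (n : ℝ) ^ κ) atTop atTop :=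
    (tendsto_rpow_atTop hκ0).comp tendsto_natCast_atTop_atTop
  filter_upwards [hc, hs1, hs2, hpw1.eventually_ge_atTop 4, hpw2.eventually_ge_atTop (8 * 2 ^ j₀),
    eventually_ge_atTop 3] with n g1 g2 g3 g4 g5 g6
  have hnr : (3 : ℝ) ≤ n := by exact_mod_cast g6
  have hn1 : (1 : ℝ) ≤ n := by linarith
  have hn0 : (0 : ℝ) < n := by linarith
  set L := Real.log (n : ℝ) with hL
  have hL0 : 0 < L := Real.log_pos (by linarith)
  set K : ℕ := ⌈(n : ℝ) ^ κ⌉₊ with hK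
  set t : ℕ := ⌈(n : ℝ) ^ θ₂⌉₊ with ht
  have hnk1 : (1 : ℝ) ≤ (n : ℝ) ^ κ := Real.one_le_rpow hn1 hκ0.le
  have hnt1 : (1 : ℝ) ≤ (n : ℝ) ^ θ₂ := Real.one_le_rpow hn1 hθ₂0.le
  have hKge : (n : ℝ) ^ κ ≤ K := Nat.le_ceil _
  have hKle : (K : ℝ) ≤ 2 * (n : ℝ) ^ κ := by
    have := Nat.ceil_lt_add_one (R := ℝ) (a := (n : ℝ) ^ κ) (by positivity)
    linarith
  have htle : (t : ℝ) ≤ 2 * (n : ℝ) ^ θ₂ := by
    have := Nat.ceil_lt_add_one (R := ℝ) (a := (n : ℝ) ^ θ₂) (by positivity)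
    linarith
  have htK : 2 * t ≤ K := by
    have h5 : 4 * (n : ℝ) ^ θ₂ ≤ (n : ℝ) ^ κ := by
      calc 4 * (n : ℝ) ^ θ₂ ≤ (n : ℝ) ^ (κ - θ₂) * (n : ℝ) ^ θ₂ := by gcongr
        _ = (n : ℝ) ^ κ := by
            rw [← Real.rpow_add hn0]
            congr 1
            ring
    have h6 : (2 : ℝ) * t ≤ K := by linarith
    exact_mod_cast h6
  have hTt : ∀ p ≤ n, p.Prime → wH T p ≤ t := by
    intro p hpn hp
    unfold wH
    rw [hT, ht]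
    refine Nat.ceil_le_ceil ?_
    have h8 : 2 ^ (Nat.log 2 p) ≤ n := (Nat.pow_log_le_self 2 hp.ne_zero).trans hpn
    have h9 : (2 : ℝ) ^ (Nat.log 2 p) ≤ n := by exact_mod_cast h8
    calc (2 : ℝ) ^ (θ₂ * (Nat.log 2 p : ℝ)) = ((2 : ℝ) ^ (Nat.log 2 p)) ^ θ₂ := by
          rw [← Real.rpow_natCast, ← Real.rpow_mul (by norm_num), mul_comm]
      _ ≤ (n : ℝ) ^ θ₂ := Real.rpow_le_rpow (by positivity) h9 hθ₂0.le
  set B : ℝ := ((n : ℝ) ^ κ / 8) ^ θ with hB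
  have hB0 : 0 < B := by positivity
  have hwB : ∀ p : ℕ, p.Prime → K < 4 * p → B ≤ wH H p := by
    intro p hp hKp
    set i := Nat.log 2 p with hi
    have h5 : p < 2 ^ (i + 1) := Nat.lt_pow_succ_log_self (by norm_num) p
    have h6 : K < 8 * 2 ^ i := by
      rw [pow_succ] at h5
      omega
    have h6' : (n : ℝ) ^ κ < 8 * 2 ^ i := by
      have : (K : ℝ) < 8 * 2 ^ i := by exact_mod_cast h6
      linarith
    have h7 : j₀ ≤ i := by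
      by_contra h8
      have h9 : (2 : ℝ) ^ i ≤ 2 ^ j₀ := pow_le_pow_right₀ (by norm_num) (by omega)
      linarith
    calc B ≤ ((2 : ℝ) ^ i) ^ θ := Real.rpow_le_rpow (by positivity) (by linarith) hθ0.le
      _ = (2 : ℝ) ^ (θ * i) := by
          rw [← Real.rpow_natCast, ← Real.rpow_mul (by norm_num), mul_comm]
      _ ≤ (wH H p : ℝ) := hj₀ i h7
  have hot := one_two H T h1 h2 hT1 M (fun x => (hMb₁ x).1.trans hMM1) n K t htK hTt B hB0 hwB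
  -- the error terms
  have he1 : ((n : ℝ) + 1) * (4 * t / B) ≤ δ / 4 * (n / L ^ 2) := by
    have hBe : B = (n : ℝ) ^ (κ * θ) / 8 ^ θ := by
      rw [hB, Real.div_rpow (by positivity) (by norm_num), ← Real.rpow_mul hn0.le]
    have h5 : (2 * (n : ℝ)) * (4 * (2 * (n : ℝ) ^ θ₂) / B) =
        16 * 8 ^ θ * (n : ℝ) ^ (1 - (κ * θ - θ₂)) := by
      have h6 : (n : ℝ) ^ (1 - (κ * θ - θ₂)) = n * (n : ℝ) ^ θ₂ / (n : ℝ) ^ (κ * θ) := by
        rw [show 1 - (κ * θ - θ₂) = 1 + θ₂ - κ * θ by ring, Real.rpow_sub hn0, Real.rpow_add hn0,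
          Real.rpow_one]
      rw [h6, hBe]
      field_simp
      ring
    calc ((n : ℝ) + 1) * (4 * t / B) ≤ (2 * (n : ℝ)) * (4 * (2 * (n : ℝ) ^ θ₂) / B) := by
          gcongr
          linarith
      _ = 16 * 8 ^ θ * (n : ℝ) ^ (1 - (κ * θ - θ₂)) := h5
      _ ≤ δ / 4 * (n / L ^ 2) := by
          rw [← mul_div_assoc, le_div_iff₀ (by positivity)]
          exact g2
  have he2 : (K : ℝ) * M ≤ δ / 4 * (n / L ^ 2) := by
    rw [← mul_div_assoc, le_div_iff₀ (by positivity)]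
    calc (K : ℝ) * M * L ^ 2 ≤ (2 * (n : ℝ) ^ κ) * M * L ^ 2 := by gcongr
      _ = 2 * M * (n : ℝ) ^ κ * L ^ 2 := by ring
      _ ≤ δ / 4 * n := g3
  have hfin : ∑ p ∈ Pr n, rho (wH H) (n - p) - n / L ^ 2 =
      (∑ p ∈ Pr n, rho (wH H) (n - p) - ∑ x ∈ range (n + 1), rho (wH T) x * rho (wH H) (n - x)) +
      (∑ x ∈ range (n + 1), rho (wH T) x * rho (wH H) (n - x) - n / L ^ 2) := by ring
  rw [hfin]
  refine (abs_add_le _ _).trans ?_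
  linarith

end Pool.Agent.helper306_pp
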