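import Pool.Agent.helper306_pp.Conc

/-!
# The mean number of representations
-/

set_option autoImplicit false

namespace Pool.Agent.helper306_pp

open MeasureTheory ProbabilityTheory Filter Topology

variable {Ω : Type*} [MeasurableSpace Ω]

/-- the distribution of `p + U p` -/
noncomputable def fp (w : ℕ → ℕ) (p x : ℕ) : ℝ := if p ≤ x ∧ x < p + w p then 1 / (w p : ℝ) else 0

/-- the primes `≤ n` -/
def Pr (n : ℕ) : Finset ℕ := {p ∈ Finset.range (n + 1) | p.Prime}

/-- the expected number of the primes `p` with `p + U p = x` -/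
noncomputable def rho (w : ℕ → ℕ) (x : ℕ) : ℝ := ∑ p ∈ Pr x, fp w p x

lemma fp_nonneg (w : ℕ → ℕ) (p x : ℕ) : 0 ≤ fp w p x := by
  unfold fp; split_ifs <;> positivity

lemma fp_le (w : ℕ → ℕ) (p x : ℕ) : fp w p x ≤ 1 / (w p : ℝ) := by
  unfold fp
  split_ifs
  · exact le_rfl
  · positivity

lemma rho_nonneg (w : ℕ → ℕ) (x : ℕ) : 0 ≤ rho w x := Finset.sum_nonneg fun _ _ => fp_nonneg _ _ _

lemma rho_eq (w : ℕ → ℕ) (x n : ℕ) (h : x ≤ n) : rho w x = ∑ p ∈ Pr n, fp w p x := by
  unfold rho
  refine Finset.sum_subset ?_ ?_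
  · intro p hp
    simp only [Pr, Finset.mem_filter, Finset.mem_range] at hp ⊢
    exact ⟨by omega, hp.2⟩
  · intro p hp hp'
    simp only [Pr, Finset.mem_filter, Finset.mem_range, not_and] at hp hp'
    unfold fp
    rw [if_neg]
    rintro ⟨h1, _⟩
    exact hp' (by omega) hp.2

lemma ae_lt' (P : Measure Ω) [IsProbabilityMeasure P] (V : Ω → ℕ) (hV : Measurable V) (h : ℕ)
    (hh : 0 < h) (hunif : ∀ j < h, P {ω | V ω = j} = (h : ENNReal)⁻¹) : ∀ᵐ ω ∂P, V ω < h := by
  classical
  have h1 : P (⋃ a ∈ Finset.range h, {ω | V ω = a}) = 1 := by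
    rw [measure_biUnion_finset]
    · rw [Finset.sum_congr rfl (fun a ha => hunif a (Finset.mem_range.1 ha))]
      rw [Finset.sum_const, nsmul_eq_mul, Finset.card_range]
      exact ENNReal.mul_inv_cancel (by positivity) (ENNReal.natCast_ne_top h)
    · intro a _ b _ hab
      refine Set.disjoint_left.2 fun ω h1 h2 => hab ?_
      simp only [Set.mem_ofPred_eq] at h1 h2
      rw [← h1, h2]
    · intro a _
      exact hV (measurableSet_singleton a)
  have h2 : (⋃ a ∈ Finset.range h, {ω | V ω = a}) = {ω | V ω < h} := by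
    ext ω
    simp
  rw [h2] at h1
  have hm : MeasurableSet {ω | V ω < h} := hV (measurableSet_Iio)
  rw [ae_iff]
  have h3 : {ω | ¬ V ω < h} = {ω | V ω < h}ᶜ := rfl
  rw [h3, prob_compl_eq_zero_iff hm]
  exact h1

lemma prob_fp (P : Measure Ω) [IsProbabilityMeasure P] (V : Ω → ℕ) (hV : Measurable V)
    (w : ℕ → ℕ) (p : ℕ) (hw : 0 < w p) (hunif : ∀ j < w p, P {ω | V ω = j} = (w p : ENNReal)⁻¹)
    (x : ℕ) : P.real {ω | p + V ω = x} = fp w p x := by
  unfold fp
  by_cases h1 : p ≤ x
  · have h2 : {ω | p + V ω = x} = {ω | V ω = x - p} := by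
      ext ω
      simp only [Set.mem_ofPred_eq]
      omega
    rw [h2]
    by_cases h3 : x < p + w p
    · rw [if_pos ⟨h1, h3⟩, measureReal_def, hunif (x - p) (by omega)]
      simp
    · rw [if_neg (fun h => h3 h.2), measureReal_def]
      have h4 : P {ω | V ω = x - p} = 0 := by
        have := ae_lt' P V hV (w p) hw hunif
        rw [ae_iff] at this
        refine measure_mono_null ?_ this
        intro ω hω
        simp only [Set.mem_ofPred_eq] at hω ⊢
        omega
      rw [h4, ENNReal.toReal_zero]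
  · rw [if_neg (fun h => h1 h.1), measureReal_def]
    have h4 : {ω | p + V ω = x} = ∅ := by
      ext ω
      simp only [Set.mem_ofPred_eq, Set.mem_empty_iff_false, iff_false]
      omega
    rw [h4, measure_empty, ENNReal.toReal_zero]

lemma prob_ev (P : Measure Ω) [IsProbabilityMeasure P] (U : ℕ → Ω → ℕ)
    (hU : ∀ n, Measurable (U n)) (hind : iIndepFun U P) (w : ℕ → ℕ)
    (hw : ∀ p : ℕ, p.Prime → 0 < w p)
    (hunif : ∀ p : ℕ, p.Prime → ∀ j < w p, P {ω | U p ω = j} = (w p : ENNReal)⁻¹)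
    (n p q : ℕ) (hp : p.Prime) (hq : q.Prime) (hpq : p ≠ q) :
    P.real {ω | Ev n (p, q) (fun r => U r ω)} =
      ∑ x ∈ Finset.range (n + 1), fp w p x * fp w q (n - x) := by
  have h1 : {ω | Ev n (p, q) (fun r => U r ω)} =
      ⋃ x ∈ Finset.range (n + 1), ({ω | p + U p ω = x} ∩ {ω | q + U q ω = n - x}) := by
    ext ω
    simp only [Ev, Set.mem_ofPred_eq, Set.mem_iUnion, Set.mem_inter_iff, Finset.mem_range]
    constructor
    · intro h
      exact ⟨p + U p ω, by omega, rfl, by omega⟩
    · rintro ⟨x, hx, h2, h3⟩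
      omega
  rw [h1, measureReal_biUnion_finset]
  · refine Finset.sum_congr rfl fun x _ => ?_
    have hindep := hind.indepFun hpq
    have h2 : {ω | p + U p ω = x} = U p ⁻¹' {a | p + a = x} := rfl
    have h3 : {ω | q + U q ω = n - x} = U q ⁻¹' {a | q + a = n - x} := rfl
    rw [measureReal_def, h2, h3,
      hindep.measure_inter_preimage_eq_mul _ _ MeasurableSet.of_discrete MeasurableSet.of_discrete,
      ENNReal.toReal_mul, ← h2, ← h3, ← measureReal_def, ← measureReal_def,
      prob_fp P (U p) (hU p) w p (hw p hp) (hunif p hp) x,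
      prob_fp P (U q) (hU q) w q (hw q hq) (hunif q hq) (n - x)]
  · intro x _ y _ hxy
    refine Set.disjoint_left.2 fun ω h1 h2 => hxy ?_
    have h3 := h1.1
    have h4 := h2.1
    simp only [Set.mem_ofPred_eq] at h3 h4
    omega
  · intro x _
    refine MeasurableSet.inter ?_ ?_
    · exact (hU p) (MeasurableSet.of_discrete (s := {a | p + a = x}))
    · exact (hU q) (MeasurableSet.of_discrete (s := {a | q + a = n - x}))

/-- the convolution of the distributions -/
noncomputable def Fc (w : ℕ → ℕ) (n p q : ℕ) : ℝ :=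
  ∑ x ∈ Finset.range (n + 1), fp w p x * fp w q (n - x)

lemma Fc_symm (w : ℕ → ℕ) (n p q : ℕ) : Fc w n p q = Fc w n q p := by
  unfold Fc
  rw [← Finset.sum_range_reflect]
  refine Finset.sum_congr rfl fun x hx => ?_
  rw [Finset.mem_range] at hx
  have h1 : n + 1 - 1 - x = n - x := by omega
  have h2 : n - (n - x) = x := by omega
  rw [h1, h2, mul_comm]

lemma Fc_nonneg (w : ℕ → ℕ) (n p q : ℕ) : 0 ≤ Fc w n p q :=
  Finset.sum_nonneg fun _ _ => mul_nonneg (fp_nonneg _ _ _) (fp_nonneg _ _ _)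

theorem mean_eq (P : Measure Ω) [IsProbabilityMeasure P] (U : ℕ → Ω → ℕ)
    (hU : ∀ n, Measurable (U n)) (hind : iIndepFun U P) (w : ℕ → ℕ)
    (hw : ∀ p : ℕ, p.Prime → 0 < w p)
    (hunif : ∀ p : ℕ, p.Prime → ∀ j < w p, P {ω | U p ω = j} = (w p : ENNReal)⁻¹) (n : ℕ) :
    2 * Mean P U n = ∑ x ∈ Finset.range (n + 1), rho w x * rho w (n - x) -
      ∑ p ∈ Pr n, Fc w n p p := by
  have h1 : Mean P U n = ∑ x ∈ (Pr n ×ˢ Pr n), if x.1 < x.2 then Fc w n x.1 x.2 else 0 := by
    unfold Mean mu
    rw [← Finset.sum_filter]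
    have h2 : Qp n = (Pr n ×ˢ Pr n).filter (fun x => x.1 < x.2) := by
      ext x
      simp only [Qp, Pr, Finset.mem_filter, Finset.mem_product]
      tauto
    rw [h2]
    refine Finset.sum_congr rfl fun x hx => ?_
    simp only [Pr, Finset.mem_filter, Finset.mem_product] at hx
    exact prob_ev P U hU hind w hw hunif n x.1 x.2 hx.1.1.2 hx.1.2.2 (by omega)
  have h2 : ∑ x ∈ (Pr n ×ˢ Pr n), (if x.2 < x.1 then Fc w n x.1 x.2 else 0) =
      ∑ x ∈ (Pr n ×ˢ Pr n), if x.1 < x.2 then Fc w n x.1 x.2 else 0 := by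
    rw [Finset.sum_product, Finset.sum_product, Finset.sum_comm]
    refine Finset.sum_congr rfl fun p _ => Finset.sum_congr rfl fun q _ => ?_
    simp only
    rw [Fc_symm]
  have h3 : ∑ x ∈ (Pr n ×ˢ Pr n), (if x.1 = x.2 then Fc w n x.1 x.2 else 0) =
      ∑ p ∈ Pr n, Fc w n p p := by
    rw [Finset.sum_product]
    refine Finset.sum_congr rfl fun p hp => ?_
    simp only
    rw [Finset.sum_ite_eq, if_pos hp]
  have h4 : ∑ x ∈ (Pr n ×ˢ Pr n), Fc w n x.1 x.2 =
      ∑ x ∈ Finset.range (n + 1), rho w x * rho w (n - x) := by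
    have h5 : ∀ x ∈ Finset.range (n + 1), rho w x * rho w (n - x) =
        ∑ y ∈ (Pr n ×ˢ Pr n), fp w y.1 x * fp w y.2 (n - x) := by
      intro x hx
      rw [Finset.mem_range] at hx
      rw [rho_eq w x n (by omega), rho_eq w (n - x) n (by omega), Finset.sum_mul_sum,
        Finset.sum_product]
    rw [Finset.sum_congr rfl h5, Finset.sum_comm]
    rfl
  have h6 : ∑ x ∈ (Pr n ×ˢ Pr n), Fc w n x.1 x.2 =
      ∑ x ∈ (Pr n ×ˢ Pr n), (if x.1 < x.2 then Fc w n x.1 x.2 else 0) +
      ∑ x ∈ (Pr n ×ˢ Pr n), (if x.2 < x.1 then Fc w n x.1 x.2 else 0) +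
      ∑ x ∈ (Pr n ×ˢ Pr n), (if x.1 = x.2 then Fc w n x.1 x.2 else 0) := by
    rw [← Finset.sum_add_distrib, ← Finset.sum_add_distrib]
    refine Finset.sum_congr rfl fun x _ => ?_
    rcases lt_trichotomy x.1 x.2 with h | h | h
    · rw [if_pos h, if_neg (by omega), if_neg (by omega)]; ring
    · rw [if_neg (by omega), if_neg (by omega), if_pos h]; ring
    · rw [if_neg (by omega), if_pos h, if_neg (by omega)]; ring
  rw [h2, h3, ← h1, h4] at h6
  linarith

/-- the diagonal -/
theorem diag_le (w : ℕ → ℕ) (hw : ∀ p : ℕ, p.Prime → 0 < w p) (n : ℕ) (B : ℝ) (hB : 0 < B)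
    (hwp : ∀ p : ℕ, p.Prime → w p ≤ p) (hwB : ∀ p : ℕ, p.Prime → n < 4 * p → B ≤ w p) :
    ∑ p ∈ Pr n, Fc w n p p ≤ (n + 1) / B := by
  have hterm : ∀ p ∈ Pr n, Fc w n p p ≤ 1 / B := by
    intro p hp
    simp only [Pr, Finset.mem_filter, Finset.mem_range] at hp
    have hwp0 := hw p hp.2
    have hwpr : (0 : ℝ) < w p := by exact_mod_cast hwp0
    by_cases h4 : n < 4 * p
    · have h5 := hwB p hp.2 h4
      calc Fc w n p p ≤ ∑ x ∈ Finset.range (n + 1), fp w p x * (1 / (w p : ℝ)) := by
            unfold Fc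
            refine Finset.sum_le_sum fun x _ => ?_
            exact mul_le_mul_of_nonneg_left (fp_le _ _ _) (fp_nonneg _ _ _)
        _ = (∑ x ∈ Finset.range (n + 1), fp w p x) * (1 / (w p : ℝ)) := by rw [Finset.sum_mul]
        _ ≤ 1 * (1 / (w p : ℝ)) := by
            gcongr
            unfold fp
            rw [← Finset.sum_filter, Finset.sum_const, nsmul_eq_mul]
            have h6 : (Finset.range (n + 1)).filter (fun x => p ≤ x ∧ x < p + w p) ⊆
                Finset.Ico p (p + w p) := by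
              intro x hx
              rw [Finset.mem_filter] at hx
              rw [Finset.mem_Ico]
              exact hx.2
            have h7 := Finset.card_le_card h6
            rw [Nat.card_Ico, Nat.add_sub_cancel_left] at h7
            have h8 : ((Finset.filter (fun x => p ≤ x ∧ x < p + w p)
                (Finset.range (n + 1))).card : ℝ) ≤ w p := by exact_mod_cast h7
            rw [mul_one_div, div_le_one hwpr]
            exact h8
        _ ≤ 1 / B := by
            rw [one_mul]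
            exact one_div_le_one_div_of_le hB h5
    · have h5 : Fc w n p p = 0 := by
        unfold Fc
        refine Finset.sum_eq_zero fun x hx => ?_
        rw [Finset.mem_range] at hx
        unfold fp
        have h6 := hwp p hp.2
        split_ifs with h7 h8
        · omega
        · ring
        · ring
        · ring
      rw [h5]
      positivity
  calc ∑ p ∈ Pr n, Fc w n p p ≤ ∑ _p ∈ Pr n, 1 / B := Finset.sum_le_sum hterm
    _ = (Pr n).card * (1 / B) := by rw [Finset.sum_const, nsmul_eq_mul]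
    _ ≤ (n + 1) * (1 / B) := by
        gcongr
        have : (Pr n).card ≤ n + 1 := by
          unfold Pr
          exact (Finset.card_filter_le _ _).trans (by rw [Finset.card_range])
        exact_mod_cast this
    _ = (n + 1) / B := by ring

end Pool.Agent.helper306_pp
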