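import Pool.Agent.helper306_pp.Blk
import Pool.Agent.helper24_UT.Gsu

/-!
# The convolution of the mean densities
-/

set_option autoImplicit false

namespace Pool.Agent.helper306_pp

open Finset Filter
open Pool.Agent.helper24_UT (S_SI13 S_GSU expG)

lemma sum_pow_div (J : ℕ) (hJ : 1 ≤ J) :
    ∑ j ∈ Ico 1 (J + 1), (2 : ℝ) ^ j / j ≤ 4 * ((2 : ℝ) ^ J / J) := by
  induction J, hJ using Nat.le_induction with
  | base => norm_num
  | succ J hJ ih =>
    rw [sum_Ico_succ_top (by omega)]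
    rcases Nat.lt_or_ge J 2 with h | h
    · have hJ1 : J = 1 := by omega
      subst hJ1
      norm_num
    · have hJr : (2 : ℝ) ≤ J := by exact_mod_cast h
      have h2 : (4 : ℝ) / J ≤ 6 / (J + 1) := by
        rw [div_le_div_iff₀ (by linarith) (by linarith)]
        linarith
      have hp : (0 : ℝ) < 2 ^ J := by positivity
      calc ∑ j ∈ Ico 1 (J + 1), (2 : ℝ) ^ j / j + 2 ^ (J + 1) / ((J + 1 : ℕ) : ℝ)
          ≤ 4 * ((2 : ℝ) ^ J / J) + 2 ^ (J + 1) / ((J + 1 : ℕ) : ℝ) := by linarith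
        _ = 2 ^ J * (4 / J) + 2 ^ J * (2 / (J + 1)) := by push_cast; ring
        _ ≤ 2 ^ J * (6 / (J + 1)) + 2 ^ J * (2 / (J + 1)) := by gcongr
        _ = 4 * ((2 : ℝ) ^ (J + 1) / ((J + 1 : ℕ) : ℝ)) := by push_cast; ring

lemma sum_blocks (f : ℕ → ℝ) (j₁ J : ℕ) (h : j₁ ≤ J) :
    ∑ x ∈ range (2 ^ J), f x = ∑ x ∈ range (2 ^ j₁), f x +
      ∑ j ∈ Ico j₁ J, ∑ x ∈ Ico (2 ^ j) (2 ^ (j + 1)), f x := by
  induction J, h using Nat.le_induction with
  | base => simp
  | succ J hJ ih =>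
    rw [sum_Ico_succ_top hJ, ← sum_range_add_sum_Ico f
      (Nat.pow_le_pow_right (by norm_num) (Nat.le_succ J) : 2 ^ J ≤ 2 ^ (J + 1)), ih]
    ring

/-- the mean density is close to `1 / log x` in mean -/
theorem l1 (hSI : S_SI13) (H : ℕ → ℕ) (h1 : ∀ j, 1 ≤ H j) (h2 : ∀ j, H j ≤ 2 ^ j)
    (θ θ' : ℝ) (hθ : 1 / 3 < θ) (hθ0' : 0 ≤ θ') (hθ' : θ' < 1)
    (h3 : ∀ᶠ j : ℕ in atTop, (2 : ℝ) ^ (θ * j) ≤ H j)
    (h4 : ∀ᶠ j : ℕ in atTop, (H j : ℝ) ≤ 2 ^ (θ' * j))
    (M : ℝ) (hM : 1 ≤ M) (hrho : ∀ x : ℕ, rho (wH H) x * Real.log x ≤ M)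
    (δ : ℝ) (hδ : 0 < δ) :
    ∀ᶠ n : ℕ in atTop, ∑ x ∈ range (n + 1), |rho (wH H) x - 1 / Real.log x| ≤
      δ * (n / Real.log n) := by
  obtain ⟨j₀, hj₀⟩ := eventually_atTop.1
    (blk hSI H h1 h2 θ θ' hθ hθ0' hθ' h3 h4 M hM hrho (δ / 16) (by positivity))
  set j₁ := j₀ + 1 with hj₁
  set e : ℕ → ℝ := fun x => |rho (wH H) x - 1 / Real.log x| with he
  set K := ∑ x ∈ range (2 ^ j₁), e x with hK
  have hK0 : 0 ≤ K := sum_nonneg fun _ _ => abs_nonneg _
  have hlogo : ∀ᶠ y : ℝ in atTop, ‖Real.log y‖ ≤ δ / (2 * (K + 1)) * ‖y‖ :=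
    Real.isLittleO_log_id_atTop.def (by positivity)
  have hcast : Tendsto (fun j : ℕ => (j : ℝ)) atTop atTop := tendsto_natCast_atTop_atTop
  filter_upwards [hcast.eventually hlogo, eventually_ge_atTop (2 ^ j₁)] with n g1 g2
  have hn2 : 2 ≤ n := by
    refine le_trans ?_ g2
    calc 2 = 2 ^ 1 := by norm_num
      _ ≤ 2 ^ j₁ := Nat.pow_le_pow_right (by norm_num) (by omega)
  have hnr : (2 : ℝ) ≤ n := by exact_mod_cast hn2
  have hn0 : (0 : ℝ) < n := by linarith
  have hlog0 : 0 < Real.log n := Real.log_pos (by linarith)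
  set J := Nat.log 2 n with hJ
  have hJ1 : j₁ ≤ J := (Nat.le_log_iff_pow_le (by norm_num) (by omega)).2 g2
  have hJr : (1 : ℝ) ≤ J := by
    have : 1 ≤ J := by omega
    exact_mod_cast this
  have hlogn : Real.log n ≤ 2 * J := by
    have h5 := log_le n (by omega)
    have h6 := Real.log_two_lt_d9
    rw [← hJ] at h5
    nlinarith
  rw [Real.norm_eq_abs, Real.norm_eq_abs, abs_of_pos hlog0, abs_of_pos hn0] at g1
  have h5 : ∑ x ∈ range (n + 1), e x ≤ ∑ x ∈ range (2 ^ (J + 1)), e x := by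
    refine sum_le_sum_of_subset_of_nonneg ?_ (fun _ _ _ => abs_nonneg _)
    intro x hx
    rw [mem_range] at hx ⊢
    have : n < 2 ^ (J + 1) := Nat.lt_pow_succ_log_self (by norm_num) n
    omega
  have h6 : ∑ j ∈ Ico j₁ (J + 1), ∑ x ∈ Ico (2 ^ j) (2 ^ (j + 1)), e x ≤
      δ / 16 * (4 * ((2 : ℝ) ^ J / J)) := by
    calc ∑ j ∈ Ico j₁ (J + 1), ∑ x ∈ Ico (2 ^ j) (2 ^ (j + 1)), e x
        ≤ ∑ j ∈ Ico j₁ (J + 1), δ / 16 * ((2 : ℝ) ^ j / j) := by
          refine sum_le_sum fun j hj => ?_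
          rw [mem_Ico] at hj
          exact hj₀ j (by omega)
      _ ≤ ∑ j ∈ Ico 1 (J + 1), δ / 16 * ((2 : ℝ) ^ j / j) := by
          refine sum_le_sum_of_subset_of_nonneg ?_ (fun _ _ _ => by positivity)
          intro j hj
          rw [mem_Ico] at hj ⊢
          omega
      _ = δ / 16 * ∑ j ∈ Ico 1 (J + 1), (2 : ℝ) ^ j / j := by rw [mul_sum]
      _ ≤ δ / 16 * (4 * ((2 : ℝ) ^ J / J)) := by
          gcongr
          exact sum_pow_div J (by omega)
  have h7 : (2 : ℝ) ^ J ≤ n := by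
    have : 2 ^ J ≤ n := Nat.pow_log_le_self 2 (by omega)
    exact_mod_cast this
  have h8 : (2 : ℝ) ^ J / J ≤ 2 * (n / Real.log n) := by
    calc (2 : ℝ) ^ J / J ≤ n / J := by gcongr
      _ ≤ n / (Real.log n / 2) := by
          gcongr
          linarith
      _ = 2 * (n / Real.log n) := by field_simp
  have h9 : K ≤ δ / 2 * (n / Real.log n) := by
    have h10 : (K + 1) * Real.log n ≤ δ / 2 * n := by
      calc (K + 1) * Real.log n ≤ (K + 1) * (δ / (2 * (K + 1)) * n) := by gcongr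
        _ = δ / 2 * n := by field_simp
    rw [← mul_div_assoc, le_div_iff₀ hlog0]
    linarith
  calc ∑ x ∈ range (n + 1), e x ≤ ∑ x ∈ range (2 ^ (J + 1)), e x := h5
    _ = K + ∑ j ∈ Ico j₁ (J + 1), ∑ x ∈ Ico (2 ^ j) (2 ^ (j + 1)), e x :=
        sum_blocks e j₁ (J + 1) (by omega)
    _ ≤ δ / 2 * (n / Real.log n) + δ / 16 * (4 * (2 * (n / Real.log n))) := by
        refine add_le_add h9 (h6.trans ?_)
        gcongr
    _ = δ * (n / Real.log n) := by ring

lemma conv_aux (e f : ℕ → ℝ) (A B : ℝ) (hA : 0 ≤ A) (he : ∀ x, |e x| ≤ A)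
    (hf0 : ∀ x, 0 ≤ f x) (hf : ∀ x, f x ≤ B) (hf2 : ∀ x : ℕ, f x * Real.log x ≤ B)
    (n : ℕ) (hn : 2 ≤ n) :
    ∑ x ∈ range (n + 1), |e x| * f (n - x) ≤
      2 * B / Real.log n * ∑ x ∈ range (n + 1), |e x| + A * B * (Real.sqrt n + 1) := by
  have hnr : (2 : ℝ) ≤ n := by exact_mod_cast hn
  have hlog0 : 0 < Real.log n := Real.log_pos (by linarith)
  have hB : 0 ≤ B := (hf0 0).trans (hf 0)
  set R := Nat.sqrt n with hR
  have h1 : ∀ x ∈ range (n + 1), |e x| * f (n - x) ≤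
      2 * B / Real.log n * |e x| + (if n - x ≤ R then A * B else 0) := by
    intro x hx
    rw [mem_range] at hx
    by_cases h : n - x ≤ R
    · rw [if_pos h]
      have h2 : |e x| * f (n - x) ≤ A * B := mul_le_mul (he x) (hf _) (hf0 _) hA
      have h3 : 0 ≤ 2 * B / Real.log n * |e x| := by positivity
      linarith
    · rw [if_neg h, add_zero, mul_comm]
      have h2 : n < (n - x) ^ 2 := by
        have h3 := Nat.lt_succ_sqrt n
        have h4 : R + 1 ≤ n - x := by omega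
        calc n < (R + 1) * (R + 1) := h3
          _ ≤ (n - x) * (n - x) := Nat.mul_le_mul h4 h4
          _ = (n - x) ^ 2 := by ring
      have h3 : Real.log n ≤ 2 * Real.log ((n - x : ℕ) : ℝ) := by
        have h4 : (n : ℝ) ≤ ((n - x : ℕ) : ℝ) ^ 2 := by exact_mod_cast h2.le
        calc Real.log n ≤ Real.log (((n - x : ℕ) : ℝ) ^ 2) := Real.log_le_log (by linarith) h4
          _ = 2 * Real.log ((n - x : ℕ) : ℝ) := by rw [Real.log_pow]; norm_num
      have h4 : f (n - x) ≤ 2 * B / Real.log n := by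
        rw [le_div_iff₀ hlog0]
        have h5 := hf2 (n - x)
        have h6 := hf0 (n - x)
        nlinarith
      exact mul_le_mul_of_nonneg_right h4 (abs_nonneg _)
  refine (sum_le_sum h1).trans ?_
  rw [sum_add_distrib, ← mul_sum, ← sum_filter, sum_const, nsmul_eq_mul]
  have h2 : (((range (n + 1)).filter (fun x => n - x ≤ R)).card : ℝ) ≤ Real.sqrt n + 1 := by
    have h3 : ((range (n + 1)).filter (fun x => n - x ≤ R)).card ≤ R + 1 := by
      have h4 : ((range (n + 1)).filter (fun x => n - x ≤ R)).card ≤ (range (R + 1)).card := by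
        refine card_le_card_of_injOn (fun x => n - x) ?_ ?_
        · intro x hx
          simp only [coe_filter, mem_range, Set.mem_ofPred_eq] at hx
          simp only [coe_range, Set.mem_Iio]
          omega
        · intro x hx y hy h
          simp only [coe_filter, mem_range, Set.mem_ofPred_eq] at hx hy h
          omega
      rwa [card_range] at h4
    have h5 : (R : ℝ) ≤ Real.sqrt n := Real.nat_sqrt_le_real_sqrt
    have h6 : (((range (n + 1)).filter (fun x => n - x ≤ R)).card : ℝ) ≤ R + 1 := by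
      exact_mod_cast h3
    linarith
  have h3 : (((range (n + 1)).filter (fun x => n - x ≤ R)).card : ℝ) * (A * B) ≤
      A * B * (Real.sqrt n + 1) := by
    rw [mul_comm]
    gcongr
  linarith

lemma inv_log_le (x : ℕ) : 1 / Real.log (x : ℝ) ≤ 2 := by
  rcases Nat.lt_or_ge x 2 with h | h
  · interval_cases x <;> simp
  · have h1 : (2 : ℝ) ≤ x := by exact_mod_cast h
    have h2 := Real.log_two_gt_d9
    have h3 : Real.log 2 ≤ Real.log x := Real.log_le_log (by norm_num) h1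
    rw [div_le_iff₀ (by linarith)]
    linarith

lemma expG_eq (n : ℕ) (hn : 4 ≤ n) :
    ∑ x ∈ range (n + 1), 1 / Real.log (x : ℝ) * (1 / Real.log ((n - x : ℕ) : ℝ)) = expG n n := by
  unfold expG
  have h1 : min n (n - 2) = n - 2 := by omega
  rw [h1]
  have h2 : Icc 2 (n - 2) ⊆ range (n + 1) := by
    intro x hx
    rw [mem_Icc] at hx
    rw [mem_range]
    omega
  rw [← sum_subset h2]
  · refine sum_congr rfl fun x _ => ?_
    rw [one_div_mul_one_div]
  · intro x hx hx'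
    rw [mem_range] at hx
    rw [mem_Icc] at hx'
    have h3 : x = 0 ∨ x = 1 ∨ n - x = 0 ∨ n - x = 1 := by omega
    rcases h3 with h | h | h | h <;> rw [h] <;> simp

/-- the convolution -/
theorem conv (hSI : S_SI13) (hG : S_GSU) (H : ℕ → ℕ) (h1 : ∀ j, 1 ≤ H j) (h2 : ∀ j, H j ≤ 2 ^ j)
    (θ θ' : ℝ) (hθ : 1 / 3 < θ) (hθ0' : 0 ≤ θ') (hθ' : θ' < 1)
    (h3 : ∀ᶠ j : ℕ in atTop, (2 : ℝ) ^ (θ * j) ≤ H j)
    (h4 : ∀ᶠ j : ℕ in atTop, (H j : ℝ) ≤ 2 ^ (θ' * j)) (δ : ℝ) (hδ : 0 < δ) :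
    ∀ᶠ n : ℕ in atTop,
      |∑ x ∈ range (n + 1), rho (wH H) x * rho (wH H) (n - x) - n / Real.log n ^ 2| ≤
      δ * (n / Real.log n ^ 2) := by
  obtain ⟨M, hM, hMb⟩ := rho_sup H h2 θ (by linarith) h3
  have hl1 := l1 hSI H h1 h2 θ θ' hθ hθ0' hθ' h3 h4 M hM (fun x => (hMb x).2)
    (δ / (4 * (2 * M + 4))) (by positivity)
  obtain ⟨n₀, hn₀⟩ := hG (δ / 2) (by positivity)
  have hlogo : ∀ᶠ y : ℝ in atTop, ‖Real.log y‖ ≤ Real.sqrt (δ / (8 * (M + 2) ^ 2)) * ‖y ^ (1 / 4 : ℝ)‖ :=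
    (isLittleO_log_rpow_atTop (by norm_num : (0 : ℝ) < 1 / 4)).def (by positivity)
  have hcast : Tendsto (fun j : ℕ => (j : ℝ)) atTop atTop := tendsto_natCast_atTop_atTop
  filter_upwards [hl1, hcast.eventually hlogo, eventually_ge_atTop n₀, eventually_ge_atTop 4]
    with n g1 g2 g3 g4
  have hnr : (4 : ℝ) ≤ n := by exact_mod_cast g4
  have hn0 : (0 : ℝ) < n := by linarith
  set L := Real.log (n : ℝ) with hL
  have hL0 : 0 < L := Real.log_pos (by linarith)
  set e : ℕ → ℝ := fun x => rho (wH H) x - 1 / Real.log x with he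
  set g : ℕ → ℝ := fun x => 1 / Real.log x with hg
  have hg0 : ∀ x, 0 ≤ g x := fun x => by
    rw [hg]; simp only
    have := Real.log_natCast_nonneg x
    positivity
  have hA : ∀ x, |e x| ≤ M + 2 := by
    intro x
    have h5 := (hMb x).1
    have h6 := rho_nonneg (wH H) x
    have h7 := inv_log_le x
    have h8 := hg0 x
    rw [hg] at h8
    simp only at h8
    rw [he, abs_le]
    constructor <;> simp only <;> linarith
  have hq1 := conv_aux e (rho (wH H)) (M + 2) M (by linarith) hA (rho_nonneg _)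
    (fun x => (hMb x).1) (fun x => (hMb x).2) n (by omega)
  have hq2 := conv_aux e g (M + 2) 2 (by linarith) hA hg0 inv_log_le (fun x => by
    rw [hg]; simp only
    rcases eq_or_ne (Real.log (x : ℝ)) 0 with h | h
    · rw [h]; norm_num
    · rw [one_div_mul_cancel h]; norm_num) n (by omega)
  set E := ∑ x ∈ range (n + 1), |e x| with hE
  have hE0 : 0 ≤ E := sum_nonneg fun _ _ => abs_nonneg _
  have hdiff : |∑ x ∈ range (n + 1), rho (wH H) x * rho (wH H) (n - x) -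
      ∑ x ∈ range (n + 1), g x * g (n - x)| ≤
      ∑ x ∈ range (n + 1), |e x| * rho (wH H) (n - x) + ∑ x ∈ range (n + 1), |e x| * g (n - x) := by
    have h5 : ∑ x ∈ range (n + 1), rho (wH H) x * rho (wH H) (n - x) -
        ∑ x ∈ range (n + 1), g x * g (n - x) =
        ∑ x ∈ range (n + 1), e x * rho (wH H) (n - x) + ∑ x ∈ range (n + 1), e x * g (n - x) := by
      have h6 : ∑ x ∈ range (n + 1), e x * g (n - x) = ∑ x ∈ range (n + 1), e (n - x) * g x := by
        rw [← sum_range_reflect]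
        refine sum_congr rfl fun x hx => ?_
        rw [mem_range] at hx
        have h7 : n + 1 - 1 - x = n - x := by omega
        have h8 : n - (n - x) = x := by omega
        rw [h7, h8]
      rw [h6, ← sum_add_distrib, ← sum_sub_distrib]
      refine sum_congr rfl fun x _ => ?_
      rw [he, hg]
      simp only
      ring
    rw [h5]
    refine (abs_add_le _ _).trans (add_le_add ?_ ?_)
    · refine (abs_sum_le_sum_abs _ _).trans (le_of_eq (sum_congr rfl fun x _ => ?_))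
      rw [abs_mul, abs_of_nonneg (rho_nonneg _ _)]
    · refine (abs_sum_le_sum_abs _ _).trans (le_of_eq (sum_congr rfl fun x _ => ?_))
      rw [abs_mul, abs_of_nonneg (hg0 _)]
  have hGn := hn₀ n g3
  rw [← expG_eq n g4] at hGn
  -- the small error
  have hsm : (M + 2) ^ 2 * (Real.sqrt n + 1) ≤ δ / 4 * (n / L ^ 2) := by
    rw [Real.norm_eq_abs, Real.norm_eq_abs, abs_of_pos hL0, abs_of_nonneg (by positivity)] at g2
    have h5 : L ^ 2 ≤ δ / (8 * (M + 2) ^ 2) * Real.sqrt n := by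
      have h6 := pow_le_pow_left₀ hL0.le g2 2
      rw [mul_pow, Real.sq_sqrt (by positivity), ← Real.rpow_natCast ((n : ℝ) ^ (1 / 4 : ℝ)) 2,
        ← Real.rpow_mul hn0.le] at h6
      have h7 : (1 / 4 : ℝ) * ((2 : ℕ) : ℝ) = 1 / 2 := by norm_num
      rw [h7, ← Real.sqrt_eq_rpow] at h6
      exact h6
    have h6 : (1 : ℝ) ≤ Real.sqrt n := by
      rw [Real.one_le_sqrt]; linarith
    rw [← mul_div_assoc, le_div_iff₀ (by positivity)]
    calc (M + 2) ^ 2 * (Real.sqrt n + 1) * L ^ 2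
        ≤ (M + 2) ^ 2 * (Real.sqrt n + Real.sqrt n) * (δ / (8 * (M + 2) ^ 2) * Real.sqrt n) := by
          gcongr
      _ = δ / 4 * (Real.sqrt n * Real.sqrt n) := by field_simp; ring
      _ = δ / 4 * n := by rw [Real.mul_self_sqrt hn0.le]
  have hmainE : (2 * M + 4) / L * E ≤ δ / 4 * (n / L ^ 2) := by
    calc (2 * M + 4) / L * E ≤ (2 * M + 4) / L * (δ / (4 * (2 * M + 4)) * (n / L)) := by gcongr
      _ = δ / 4 * (n / L ^ 2) := by field_simp
  have htot : |∑ x ∈ range (n + 1), rho (wH H) x * rho (wH H) (n - x) -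
      ∑ x ∈ range (n + 1), g x * g (n - x)| ≤ δ / 2 * (n / L ^ 2) := by
    refine hdiff.trans ?_
    have h5 : 2 * M / L * E + 2 * 2 / L * E = (2 * M + 4) / L * E := by ring
    have h6 : (M + 2) * M * (Real.sqrt n + 1) + (M + 2) * 2 * (Real.sqrt n + 1) =
        (M + 2) ^ 2 * (Real.sqrt n + 1) := by ring
    linarith
  have hfin : ∑ x ∈ range (n + 1), rho (wH H) x * rho (wH H) (n - x) - n / L ^ 2 =
      (∑ x ∈ range (n + 1), rho (wH H) x * rho (wH H) (n - x) - ∑ x ∈ range (n + 1), g x * g (n - x)) +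
      (∑ x ∈ range (n + 1), g x * g (n - x) - n / L ^ 2) := by ring
  rw [hfin]
  refine (abs_add_le _ _).trans ?_
  have h5 : |∑ x ∈ range (n + 1), g x * g (n - x) - n / L ^ 2| ≤ δ / 2 * (n / L ^ 2) := by
    refine hGn.trans (le_of_eq ?_)
    ring
  linarith

end Pool.Agent.helper306_pp
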