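import Pool.Agent.helper306_pp.MeanB

/-!
# A prime and a perturbed prime
-/

set_option autoImplicit false

namespace Pool.Agent.helper306_pp

open MeasureTheory ProbabilityTheory Filter Topology

/-- `n - (q + u q)` is a prime -/
def EvB (n q : ℕ) (u : ℕ → ℕ) : Prop := (n - (q + u q)).Prime

lemma evB_on (n q : ℕ) : EvOn {q} (EvB n q) := by
  intro u u' huu
  unfold EvB
  rw [huu q (by simp)]

variable {Ω : Type*} [MeasurableSpace Ω]

lemma prob_evB (P : Measure Ω) [IsProbabilityMeasure P] (U : ℕ → Ω → ℕ)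
    (hU : ∀ n, Measurable (U n)) (w : ℕ → ℕ)
    (hw : ∀ p : ℕ, p.Prime → 0 < w p)
    (hunif : ∀ p : ℕ, p.Prime → ∀ j < w p, P {ω | U p ω = j} = (w p : ENNReal)⁻¹)
    (n q : ℕ) (hq : q.Prime) :
    P.real {ω | EvB n q (fun r => U r ω)} = ∑ p ∈ Pr n, fp w q (n - p) := by
  have h1 : {ω | EvB n q (fun r => U r ω)} = ⋃ p ∈ Pr n, {ω | q + U q ω = n - p} := by
    ext ω
    simp only [EvB, Set.mem_ofPred_eq, Set.mem_iUnion, Pr, Finset.mem_filter, Finset.mem_range]
    constructor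
    · intro h
      have h2 := h.two_le
      exact ⟨n - (q + U q ω), ⟨by omega, h⟩, by omega⟩
    · rintro ⟨p, ⟨hp1, hp2⟩, h3⟩
      have h4 : n - (q + U q ω) = p := by omega
      rw [h4]
      exact hp2
  rw [h1, measureReal_biUnion_finset]
  · exact Finset.sum_congr rfl fun p _ => prob_fp P (U q) (hU q) w q (hw q hq) (hunif q hq) (n - p)
  · intro p hp p' hp' hne
    refine Set.disjoint_left.2 fun ω h2 h3 => hne ?_
    simp only [Set.mem_ofPred_eq] at h2 h3
    simp only [Pr, Finset.coe_filter, Finset.mem_range, Set.mem_ofPred_eq] at hp hp'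
    omega
  · intro p _
    exact (hU q) (MeasurableSet.of_discrete (s := {a | q + a = n - p}))

lemma mu_evB (P : Measure Ω) [IsProbabilityMeasure P] (U : ℕ → Ω → ℕ)
    (hU : ∀ n, Measurable (U n)) (w : ℕ → ℕ)
    (hw : ∀ p : ℕ, p.Prime → 0 < w p)
    (hunif : ∀ p : ℕ, p.Prime → ∀ j < w p, P {ω | U p ω = j} = (w p : ENNReal)⁻¹) (n : ℕ) :
    mu P U (Pr n) (EvB n) = ∑ p ∈ Pr n, rho w (n - p) := by
  unfold mu
  have h1 : ∀ q ∈ Pr n, P.real {ω | EvB n q (fun r => U r ω)} = ∑ p ∈ Pr n, fp w q (n - p) := by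
    intro q hq
    simp only [Pr, Finset.mem_filter] at hq
    exact prob_evB P U hU w hw hunif n q hq.2
  rw [Finset.sum_congr rfl h1, Finset.sum_comm]
  refine Finset.sum_congr rfl fun p _ => ?_
  rw [rho_eq w (n - p) n (Nat.sub_le _ _)]

theorem concB (P : Measure Ω) [IsProbabilityMeasure P] (U : ℕ → Ω → ℕ)
    (hU : ∀ n, Measurable (U n)) (hind : iIndepFun U P) (ε : ℝ) (hε : 0 < ε) (hε1 : ε ≤ 1) :
    ∀ᵐ ω ∂P, ∀ᶠ n : ℕ in atTop,
      |cnt (Pr n) (EvB n) (fun p => U p ω) - mu P U (Pr n) (EvB n)| ≤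
        ε * mu P U (Pr n) (EvB n) + 3 / ε * Real.log n := by
  classical
  set lam : ℕ → ℝ := fun n => 3 / ε * Real.log n with hlam
  set B : ℕ → Set Ω := fun n => {ω | ε * mu P U (Pr n) (EvB n) + lam n <
      |cnt (Pr n) (EvB n) (fun p => U p ω) - mu P U (Pr n) (EvB n)|} with hB
  have hBn : ∀ᶠ n : ℕ in atTop, P (B n) ≤ ENNReal.ofReal (1 / (n : ℝ) ^ 2) := by
    filter_upwards [eventually_ge_atTop 2] with n hn
    have hn0 : (0 : ℝ) < n := by
      have : 0 < n := by omega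
      exact_mod_cast this
    have h1 : P.real (B n) ≤ 2 * (1 / (n : ℝ) ^ 3) := by
      refine (chernoff P U hU hind (Pr n) (fun q => {q}) ?_ (EvB n)
        (fun q _ => evB_on n q) ε (lam n) hε hε1).trans (le_of_eq ?_)
      · intro a _ b _ hab
        rw [Function.onFun, Finset.disjoint_singleton]
        exact hab
      · congr 1
        have h2 : -(ε * lam n) = -(Real.log n * 3) := by
          rw [hlam]; field_simp
        rw [h2, Real.exp_neg, Real.exp_mul, Real.exp_log hn0, one_div]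
        norm_cast
    have h3 : P.real (B n) ≤ 1 / (n : ℝ) ^ 2 := by
      refine h1.trans ?_
      have hn6 : (2 : ℝ) ≤ n := by exact_mod_cast hn
      rw [mul_one_div, div_le_div_iff₀ (by positivity) (by positivity)]
      calc 2 * (n : ℝ) ^ 2 ≤ n * (n : ℝ) ^ 2 := by gcongr
        _ = 1 * (n : ℝ) ^ 3 := by ring
    rw [← ENNReal.ofReal_toReal (measure_ne_top P (B n))]
    exact ENNReal.ofReal_le_ofReal h3
  have hbc := bc (μ := P) (f := fun n : ℕ => 1 / (n : ℝ) ^ 2)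
    (Real.summable_one_div_nat_pow.mpr (by norm_num)) (fun n => by positivity) hBn
  filter_upwards [hbc] with ω hω
  filter_upwards [hω] with n hn
  by_contra hcon
  apply hn
  exact not_le.1 hcon

theorem mainB (H : ℕ → ℕ) (h1 : ∀ j, 1 ≤ H j) (h2 : ∀ j, H j ≤ 2 ^ j)
    (θ θ' : ℝ) (hθ : 1 / 3 < θ) (hθ' : θ' < 1)
    (h3 : ∀ᶠ j : ℕ in atTop, (2 : ℝ) ^ (θ * j) ≤ H j)
    (h4 : ∀ᶠ j : ℕ in atTop, (H j : ℝ) ≤ 2 ^ (θ' * j))
    (P : Measure Ω) [IsProbabilityMeasure P] (U : ℕ → Ω → ℕ)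
    (hU : ∀ n, Measurable (U n)) (hind : iIndepFun U P)
    (hunif : ∀ p : ℕ, p.Prime → ∀ j < wH H p, P {ω | U p ω = j} = (wH H p : ENNReal)⁻¹) :
    ∀ᵐ ω ∂P, Tendsto (fun n : ℕ => cnt (Pr n) (EvB n) (fun p => U p ω) * Real.log n ^ 2 / n) atTop
      (𝓝 1) := by
  have hθθ : θ ≤ θ' := by
    obtain ⟨j, hj⟩ := ((h3.and h4).and (eventually_ge_atTop 1)).exists
    have h5 : (2 : ℝ) ^ (θ * j) ≤ 2 ^ (θ' * j) := hj.1.1.trans hj.1.2
    have h6 : θ * j ≤ θ' * j := (Real.rpow_le_rpow_left_iff (by norm_num)).1 h5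
    have hj1 : (1 : ℝ) ≤ j := by exact_mod_cast hj.2
    have hj0 : (0 : ℝ) < j := by linarith
    exact le_of_mul_le_mul_right h6 hj0
  have hwpos : ∀ p : ℕ, p.Prime → 0 < wH H p := fun p _ => h1 _
  have hmean := meanB H h1 h2 θ θ' hθ hθθ hθ' h3 h4
  have hconc : ∀ k : ℕ, ∀ᵐ ω ∂P, ∀ᶠ n : ℕ in atTop,
      |cnt (Pr n) (EvB n) (fun p => U p ω) - mu P U (Pr n) (EvB n)| ≤
        1 / ((k : ℝ) + 1) * mu P U (Pr n) (EvB n) + 3 / (1 / ((k : ℝ) + 1)) * Real.log n := by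
    intro k
    refine concB P U hU hind (1 / ((k : ℝ) + 1)) (by positivity) ?_
    rw [div_le_one (by positivity)]
    have : (0 : ℝ) ≤ k := Nat.cast_nonneg k
    linarith
  filter_upwards [ae_all_iff.2 hconc] with ω hω
  rw [Metric.tendsto_atTop]
  intro η hη
  obtain ⟨k, hk⟩ := exists_nat_gt (5 / η)
  set ε : ℝ := 1 / ((k : ℝ) + 1) with hε
  have hk0 : (0 : ℝ) ≤ k := Nat.cast_nonneg k
  have hε0 : 0 < ε := by positivity
  have hε1 : ε ≤ 1 := by
    rw [hε, div_le_one (by positivity)]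
    linarith
  have hεη : 4 * ε < η := by
    rw [hε, mul_one_div, div_lt_iff₀ (by positivity)]
    rw [div_lt_iff₀ hη] at hk
    nlinarith
  have hs := pow_log_small' 0 3 (by norm_num) (3 / ε) (by positivity) ε hε0
  have hevt : ∀ᶠ n : ℕ in atTop,
      |cnt (Pr n) (EvB n) (fun p => U p ω) * Real.log n ^ 2 / n - 1| < η := by
    filter_upwards [hω k, hmean ε hε0, hs, eventually_ge_atTop 3] with n g1 g2 g3 g4
    have hnr : (3 : ℝ) ≤ n := by exact_mod_cast g4
    have hn0 : (0 : ℝ) < n := by linarith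
    rw [mu_evB P U hU (wH H) hwpos hunif n] at g1
    rw [← hε] at g1
    set m := ∑ p ∈ Pr n, rho (wH H) (n - p) with hm
    set R := cnt (Pr n) (EvB n) (fun p => U p ω) with hR
    set L := Real.log (n : ℝ) with hL
    have hL0 : 0 < L := Real.log_pos (by linarith)
    set Q : ℝ := n / L ^ 2 with hQ
    have hQ0 : 0 < Q := by positivity
    have herr : 3 / ε * L ≤ ε * Q := by
      rw [Real.rpow_zero, mul_one] at g3
      rw [hQ, ← mul_div_assoc, le_div_iff₀ (by positivity)]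
      calc 3 / ε * L * L ^ 2 = 3 / ε * L ^ 3 := by ring
        _ ≤ ε * n := g3
    have hMle : m ≤ 2 * Q := by
      rw [abs_le] at g2
      nlinarith [g2.2]
    have htot : |R - Q| ≤ 4 * ε * Q := by
      have h6 : R - Q = (R - m) + (m - Q) := by ring
      rw [h6]
      refine (abs_add_le _ _).trans ?_
      have h7 : ε * m ≤ ε * (2 * Q) := by gcongr
      linarith
    have h6 : R * L ^ 2 / n - 1 = (R - Q) / Q := by
      rw [hQ]
      field_simp
    rw [h6, abs_div, abs_of_pos hQ0, div_lt_iff₀ hQ0]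
    calc |R - Q| ≤ 4 * ε * Q := htot
      _ < η * Q := by gcongr
  obtain ⟨N, hN⟩ := eventually_atTop.1 hevt
  exact ⟨N, fun n hn => by rw [Real.dist_eq]; exact hN n hn⟩

end Pool.Agent.helper306_pp
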