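import Pool.Agent.helper306_pp.MeanF
import Pool.Agent.Helper923.PPS.BT

/-!
# A bound for the mean density of the perturbed primes
-/

set_option autoImplicit false

namespace Pool.Agent.helper306_pp

open Finset Filter

/-- the widths of the perturbations -/
def wH (H : ℕ → ℕ) (p : ℕ) : ℕ := H (Nat.log 2 p)

lemma wH_le (H : ℕ → ℕ) (h2 : ∀ j, H j ≤ 2 ^ j) (p : ℕ) (hp : p.Prime) : wH H p ≤ p :=
  (h2 _).trans (Nat.pow_log_le_self 2 hp.ne_zero)

lemma rho_blocks (H : ℕ → ℕ) (h2 : ∀ j, H j ≤ 2 ^ j) (x : ℕ) :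
    rho (wH H) x ≤ ∑ i ∈ ({Nat.log 2 x - 1, Nat.log 2 x} : Finset ℕ),
      1 / (H i : ℝ) * (((Pr x).filter (fun p => x < p + H i)).card : ℝ) := by
  unfold rho
  have h3 : ∀ p ∈ Pr x, fp (wH H) p x ≤ ∑ i ∈ ({Nat.log 2 x - 1, Nat.log 2 x} : Finset ℕ),
      (if x < p + H i then 1 / (H i : ℝ) else 0) := by
    intro p hp
    simp only [Pr, mem_filter, mem_range] at hp
    unfold fp
    split_ifs with h
    · have hp0 : p ≠ 0 := hp.2.ne_zero
      have hlp : Nat.log 2 p ∈ ({Nat.log 2 x - 1, Nat.log 2 x} : Finset ℕ) := by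
        rw [mem_insert, mem_singleton]
        have h4 : Nat.log 2 p ≤ Nat.log 2 x := Nat.log_mono_right h.1
        have h5 : x < 2 * p := by
          have h6 := h.2
          have h7 := (h2 (Nat.log 2 p)).trans (Nat.pow_log_le_self 2 hp0)
          unfold wH at h6
          omega
        have h8 : Nat.log 2 x ≤ Nat.log 2 p + 1 := by
          calc Nat.log 2 x ≤ Nat.log 2 (p * 2) := Nat.log_mono_right (by omega)
            _ = Nat.log 2 p + 1 := Nat.log_mul_base (by norm_num) hp0
        omega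
      refine le_trans ?_ (single_le_sum
        (f := fun i => if x < p + H i then 1 / (H i : ℝ) else 0) (fun i _ => by
        split_ifs <;> positivity) hlp)
      have h9 : x < p + H (Nat.log 2 p) := h.2
      rw [if_pos h9]
      exact le_rfl
    · exact sum_nonneg fun i _ => by split_ifs <;> positivity
  refine (sum_le_sum h3).trans (le_of_eq ?_)
  rw [sum_comm]
  refine sum_congr rfl fun i _ => ?_
  rw [← sum_filter, sum_const, nsmul_eq_mul, mul_comm]

lemma win_card (x W : ℕ) :
    ((Pr x).filter (fun p => x < p + W)).card ≤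
      ((range W).filter (fun k => (x + 1 - W + k * 1).Prime)).card := by
  refine card_le_card_of_injOn (fun p => p - (x + 1 - W)) ?_ ?_
  · intro p hp
    simp only [Pr, coe_filter, mem_filter, mem_range, Set.mem_ofPred_eq] at hp ⊢
    refine ⟨by omega, ?_⟩
    have : x + 1 - W + (p - (x + 1 - W)) * 1 = p := by omega
    rw [this]
    exact hp.1.2
  · intro p hp q hq h
    simp only [Pr, coe_filter, mem_filter, mem_range, Set.mem_ofPred_eq] at hp hq h
    omega

lemma log_le (x : ℕ) (hx : x ≠ 0) : Real.log x ≤ (Nat.log 2 x + 1) * Real.log 2 := by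
  have h1 : x < 2 ^ (Nat.log 2 x + 1) := Nat.lt_pow_succ_log_self (by norm_num) x
  have h2 : (x : ℝ) ≤ 2 ^ (Nat.log 2 x + 1) := by exact_mod_cast h1.le
  have h3 : (0 : ℝ) < x := by
    have : 0 < x := Nat.pos_of_ne_zero hx
    exact_mod_cast this
  calc Real.log x ≤ Real.log (2 ^ (Nat.log 2 x + 1)) := Real.log_le_log h3 h2
    _ = _ := by rw [Real.log_pow]; push_cast; ring

theorem rho_sup (H : ℕ → ℕ) (h2 : ∀ j, H j ≤ 2 ^ j) (θ : ℝ) (hθ : 0 < θ)
    (h3 : ∀ᶠ j : ℕ in atTop, (2 : ℝ) ^ (θ * j) ≤ H j) :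
    ∃ M : ℝ, 1 ≤ M ∧ ∀ x : ℕ, rho (wH H) x ≤ M ∧ rho (wH H) x * Real.log x ≤ M := by
  obtain ⟨C, hC, hBT⟩ := Pool.Agent.Helper923.PPS.brun_titchmarsh
  obtain ⟨j₀, hj₀⟩ := eventually_atTop.1 h3
  obtain ⟨j₁, hj₁⟩ := exists_nat_gt (1 / θ)
  set J₀ := j₀ + j₁ + 3 with hJ₀
  set x₀ : ℕ := 2 ^ J₀ with hx₀
  have hl2 : 0 < Real.log 2 := Real.log_pos (by norm_num)
  have hlarge : ∀ x : ℕ, x₀ ≤ x → rho (wH H) x * Real.log x ≤ 4 * C / θ := by
    intro x hx
    have hx0 : x ≠ 0 := by
      have : 0 < x₀ := by positivity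
      omega
    set J := Nat.log 2 x with hJ
    have hJJ : J₀ ≤ J := (Nat.le_log_iff_pow_le (by norm_num) hx0).2 hx
    have hpowJ : 2 ^ J ≤ x := Nat.pow_log_le_self 2 hx0
    have hlx := log_le x hx0
    have hlx0 : 0 < Real.log x := by
      apply Real.log_pos
      have h4 : 2 ^ 1 ≤ 2 ^ J := Nat.pow_le_pow_right (by norm_num) (by omega)
      have h5 : 1 < x := by omega
      exact_mod_cast h5
    have hterm : ∀ i ∈ ({J - 1, J} : Finset ℕ),
        1 / (H i : ℝ) * (((Pr x).filter (fun p => x < p + H i)).card : ℝ) ≤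
          2 * C / (θ * Real.log x) := by
      intro i hi
      have hi1 : J - 1 ≤ i ∧ i ≤ J := by
        rw [mem_insert, mem_singleton] at hi
        omega
      have hHi : (2 : ℝ) ^ (θ * i) ≤ H i := hj₀ i (by omega)
      have hi2 : 1 ≤ θ * i := by
        have h4 : (j₁ : ℝ) ≤ i := by
          have : j₁ ≤ i := by omega
          exact_mod_cast this
        have h5 : 1 / θ < i := hj₁.trans_le h4
        rw [div_lt_iff₀ hθ] at h5
        linarith
      have hH2 : (2 : ℝ) ≤ H i := by
        calc (2 : ℝ) = 2 ^ (1 : ℝ) := (Real.rpow_one 2).symm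
          _ ≤ 2 ^ (θ * i) := Real.rpow_le_rpow_of_exponent_le (by norm_num) hi2
          _ ≤ H i := hHi
      have hH2' : 2 ≤ H i := by exact_mod_cast hH2
      have hH0 : (0 : ℝ) < H i := by linarith
      have hlogH : θ / 2 * Real.log x ≤ Real.log (H i) := by
        have h4 : θ * i * Real.log 2 ≤ Real.log (H i) := by
          calc θ * i * Real.log 2 = Real.log ((2 : ℝ) ^ (θ * i)) := by
                rw [Real.log_rpow (by norm_num)]
            _ ≤ Real.log (H i) := Real.log_le_log (by positivity) hHi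
        have h5 : ((J : ℝ) + 1) / 2 ≤ i := by
          have h6 : J + 1 ≤ 2 * i := by omega
          have h7 : ((J : ℝ) + 1) ≤ 2 * i := by exact_mod_cast h6
          linarith
        calc θ / 2 * Real.log x ≤ θ / 2 * ((J + 1) * Real.log 2) := by gcongr
          _ = θ * ((J + 1) / 2) * Real.log 2 := by ring
          _ ≤ θ * i * Real.log 2 := by gcongr
          _ ≤ _ := h4
      have hlogH0 : 0 < Real.log (H i) := lt_of_lt_of_le (by positivity) hlogH
      have hcard : (((Pr x).filter (fun p => x < p + H i)).card : ℝ) ≤ C * H i / Real.log (H i) := by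
        refine le_trans ?_ (hBT (x + 1 - H i) 1 (H i) hH2' (Or.inl rfl))
        exact_mod_cast win_card x (H i)
      calc 1 / (H i : ℝ) * (((Pr x).filter (fun p => x < p + H i)).card : ℝ)
          ≤ 1 / (H i : ℝ) * (C * H i / Real.log (H i)) := by gcongr
        _ = C / Real.log (H i) := by field_simp
        _ ≤ C / (θ / 2 * Real.log x) := by gcongr
        _ = 2 * C / (θ * Real.log x) := by field_simp
    have hsum : rho (wH H) x ≤ 2 * (2 * C / (θ * Real.log x)) := by
      refine (rho_blocks H h2 x).trans ((sum_le_sum hterm).trans ?_)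
      rw [sum_const, nsmul_eq_mul]
      have h4 : (({J - 1, J} : Finset ℕ).card : ℝ) ≤ 2 := by
        exact_mod_cast card_le_two
      have h5 : 0 ≤ 2 * C / (θ * Real.log x) := by positivity
      exact mul_le_mul_of_nonneg_right h4 h5
    calc rho (wH H) x * Real.log x ≤ 2 * (2 * C / (θ * Real.log x)) * Real.log x := by gcongr
      _ = 4 * C / θ := by field_simp; ring
  refine ⟨4 * C / θ + (x₀ + 1) ^ 2, ?_, fun x => ?_⟩
  · have h4 : 0 ≤ 4 * C / θ := by positivity
    have h5 : (1 : ℝ) ≤ (x₀ + 1) ^ 2 := one_le_pow₀ (by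
      have : (0 : ℝ) ≤ x₀ := Nat.cast_nonneg _
      linarith)
    linarith
  · have h4 : 0 ≤ 4 * C / θ := by positivity
    have hx0' : (0 : ℝ) ≤ x₀ := Nat.cast_nonneg _
    rcases le_or_gt x₀ x with h | h
    · have h5 := hlarge x h
      have h6 : 1 ≤ Real.log x := by
        have h7 : 8 ≤ x := by
          refine le_trans ?_ h
          calc 8 = 2 ^ 3 := by norm_num
            _ ≤ 2 ^ J₀ := Nat.pow_le_pow_right (by norm_num) (by omega)
        have h8 : Real.exp 1 ≤ x := by
          have h9 := Real.exp_one_lt_d9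
          have h10 : (8 : ℝ) ≤ x := by exact_mod_cast h7
          linarith
        calc (1 : ℝ) = Real.log (Real.exp 1) := (Real.log_exp 1).symm
          _ ≤ Real.log x := Real.log_le_log (Real.exp_pos 1) h8
      have h7 := rho_nonneg (wH H) x
      constructor <;> nlinarith [sq_nonneg ((x₀ : ℝ) + 1)]
    · have h5 : rho (wH H) x ≤ x₀ := by
        have h6 : rho (wH H) x ≤ ∑ _p ∈ Pr x, (1 : ℝ) := by
          refine sum_le_sum fun p _ => (fp_le _ _ _).trans ?_
          rcases Nat.eq_zero_or_pos (wH H p) with h7 | h7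
          · rw [h7]; norm_num
          · have h8 : (1 : ℝ) ≤ wH H p := by exact_mod_cast h7
            exact (div_le_one (by linarith)).2 h8
        rw [sum_const, nsmul_eq_mul, mul_one] at h6
        have h7 : (Pr x).card ≤ x + 1 := (card_filter_le _ _).trans (by rw [card_range])
        have h8 : ((Pr x).card : ℝ) ≤ x₀ := by
          have : (Pr x).card ≤ x₀ := h7.trans h
          exact_mod_cast this
        linarith
      have h6 : Real.log x ≤ x₀ := by
        have h7 := Real.log_le_self (Nat.cast_nonneg (α := ℝ) x)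
        have h8 : (x : ℝ) ≤ x₀ := by exact_mod_cast h.le
        linarith
      have h7 := rho_nonneg (wH H) x
      have h8 : 0 ≤ Real.log x := Real.log_natCast_nonneg x
      constructor
      · nlinarith
      · calc rho (wH H) x * Real.log x ≤ x₀ * x₀ := by gcongr
          _ ≤ 4 * C / θ + (x₀ + 1) ^ 2 := by nlinarith

end Pool.Agent.helper306_pp
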