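import Pool.Agent.helper306_pp.Cr1

/-!
# Patterns in the set of the moved primes: probabilities
-/

set_option autoImplicit false

namespace Pool.Agent.helper306_pp

open MeasureTheory ProbabilityTheory Filter Topology

variable {Ω : Type*} [MeasurableSpace Ω]

/-- all elements of `A` are hit by primes `≤ n`, and no element of `B` -/
def HM (U : ℕ → Ω → ℕ) (n : ℕ) (A B : Finset ℕ) : Set Ω :=
  {ω | (∀ y ∈ A, ω ∉ Emp U n {y}) ∧ ω ∈ Emp U n B}

lemma hm_meas (U : ℕ → Ω → ℕ) (hU : ∀ n, Measurable (U n)) (n : ℕ) (A B : Finset ℕ) :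
    MeasurableSet (HM U n A B) := by
  have h1 : HM U n A B = (⋂ y ∈ A, (Emp U n {y})ᶜ) ∩ Emp U n B := by
    ext ω
    simp [HM]
  rw [h1]
  exact (Finset.measurableSet_biInter _ fun y _ => (emp_meas U hU n {y}).compl).inter
    (emp_meas U hU n B)

/-- the difference of the two exponentials -/
lemma exp_diff (S κ : ℝ) (hκ : 0 ≤ κ) :
    Real.exp (-S) - κ ≤ Real.exp (-((1 + κ) * S)) := by
  have h1 : Real.exp (-((1 + κ) * S)) = Real.exp (-S) * Real.exp (-(κ * S)) := by
    rw [← Real.exp_add]; congr 1; ring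
  have h2 : 1 - κ * S ≤ Real.exp (-(κ * S)) := Real.one_sub_le_exp_neg _
  have h3 : S * Real.exp (-S) ≤ 1 := by
    have h4 : S + 1 ≤ Real.exp S := Real.add_one_le_exp S
    have h5 : Real.exp S * Real.exp (-S) = 1 := by rw [← Real.exp_add]; simp
    have h6 := Real.exp_pos (-S)
    nlinarith
  rw [h1]
  have h4 := Real.exp_pos (-S)
  have h5 : Real.exp (-S) * (1 - κ * S) ≤ Real.exp (-S) * Real.exp (-(κ * S)) :=
    mul_le_mul_of_nonneg_left h2 h4.le
  nlinarith

theorem hit_ind (P : Measure Ω) [IsProbabilityMeasure P] (U : ℕ → Ω → ℕ)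
    (hU : ∀ n, Measurable (U n)) (ρ : ℕ → ℝ) (n K : ℕ) (κ : ℝ) (I : Set ℕ)
    (hE : ∀ B : Finset ℕ, (∀ y ∈ B, y ∈ I) → B.card ≤ K →
      |P.real (Emp U n B) - Real.exp (-∑ y ∈ B, ρ y)| ≤ κ) :
    ∀ A B : Finset ℕ, (∀ y ∈ A, y ∈ I) → (∀ y ∈ B, y ∈ I) → Disjoint A B → A.card + B.card ≤ K →
      |P.real (HM U n A B) - (∏ y ∈ A, (1 - Real.exp (-ρ y))) * Real.exp (-∑ y ∈ B, ρ y)| ≤
        2 ^ A.card * κ := by
  classical
  intro A
  induction A using Finset.induction_on with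
  | empty =>
    intro B _ hB _ hc
    have h1 : HM U n ∅ B = Emp U n B := by
      ext ω
      simp [HM]
    rw [h1, Finset.prod_empty, one_mul, Finset.card_empty, pow_zero, one_mul]
    exact hE B hB (by simpa using hc)
  | insert y A hy ih =>
    intro B hA hB hd hc
    rw [Finset.card_insert_of_notMem hy] at hc ⊢
    have hyB : y ∉ B := by
      intro h
      exact (Finset.disjoint_left.1 hd) (Finset.mem_insert_self y A) h
    have hdA : Disjoint A B := Finset.disjoint_of_subset_left (Finset.subset_insert y A) hd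
    have h1 := ih B (fun z hz => hA z (Finset.mem_insert_of_mem hz)) hB hdA (by omega)
    have h2 := ih (insert y B) (fun z hz => hA z (Finset.mem_insert_of_mem hz)) (by
      intro z hz
      rcases Finset.mem_insert.1 hz with rfl | h
      · exact hA z (Finset.mem_insert_self z A)
      · exact hB z h) (by
      rw [Finset.disjoint_insert_right]
      exact ⟨hy, hdA⟩) (by
      rw [Finset.card_insert_of_notMem hyB]
      omega)
    have h3 : HM U n (insert y A) B = HM U n A B \ HM U n A (insert y B) := by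
      ext ω
      have h4 : ω ∈ Emp U n (insert y B) ↔ ω ∈ Emp U n {y} ∧ ω ∈ Emp U n B := by
        simp only [Emp, Set.mem_ofPred_eq, Finset.mem_insert, Finset.mem_singleton]
        constructor
        · intro h
          exact ⟨fun p hp h5 => h p hp (Or.inl h5), fun p hp h5 => h p hp (Or.inr h5)⟩
        · rintro ⟨h5, h6⟩ p hp h7
          rcases h7 with h7 | h7
          · exact h5 p hp h7
          · exact h6 p hp h7
      simp only [HM, Set.mem_sdiff, Set.mem_ofPred_eq, Finset.mem_insert, forall_eq_or_imp, h4]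
      tauto
    have h4 : HM U n A (insert y B) ⊆ HM U n A B := by
      rintro ω ⟨h5, h6⟩
      refine ⟨h5, fun p hp h7 => h6 p hp (Finset.mem_insert_of_mem h7)⟩
    rw [h3, measureReal_sdiff h4 (hm_meas U hU n A (insert y B)), Finset.prod_insert hy]
    rw [Finset.sum_insert hyB, neg_add, Real.exp_add] at h2
    have h5 : P.real (HM U n A B) - P.real (HM U n A (insert y B)) -
        (1 - Real.exp (-ρ y)) * (∏ y ∈ A, (1 - Real.exp (-ρ y))) * Real.exp (-∑ y ∈ B, ρ y) =
        (P.real (HM U n A B) - (∏ y ∈ A, (1 - Real.exp (-ρ y))) * Real.exp (-∑ y ∈ B, ρ y)) -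
        (P.real (HM U n A (insert y B)) - (∏ y ∈ A, (1 - Real.exp (-ρ y))) *
          (Real.exp (-ρ y) * Real.exp (-∑ y ∈ B, ρ y))) := by ring
    rw [h5]
    calc _ ≤ 2 ^ A.card * κ + 2 ^ A.card * κ := (abs_sub _ _).trans (add_le_add h1 h2)
      _ = 2 ^ (A.card + 1) * κ := by ring

/-- the events that no element of `B` is hit -/
lemma emp_near (P : Measure Ω) [IsProbabilityMeasure P] (U : ℕ → Ω → ℕ)
    (hU : ∀ n, Measurable (U n)) (hind : iIndepFun U P) (w : ℕ → ℕ)
    (hw : ∀ p : ℕ, p.Prime → 0 < w p) (hwp : ∀ p : ℕ, p.Prime → w p ≤ p)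
    (hunif : ∀ p : ℕ, p.Prime → ∀ j < w p, P {ω | U p ω = j} = (w p : ENNReal)⁻¹)
    (n K Y : ℕ) (b : ℝ) (hb : 2 * (K + 1) ≤ b)
    (hwb : ∀ p : ℕ, p.Prime → Y < 2 * p → b ≤ w p) (B : Finset ℕ)
    (hB : ∀ y ∈ B, y ∈ {y | Y ≤ y ∧ y ≤ n}) (hc : B.card ≤ K) :
    |P.real (Emp U n B) - Real.exp (-∑ y ∈ B, rho w y)| ≤ 2 * (K + 1) / b := by
  have hb0 : 0 < b := by
    have : (0 : ℝ) ≤ K := Nat.cast_nonneg K
    linarith
  set κ : ℝ := 2 * (K + 1) / b with hκ
  have hK0 : (0 : ℝ) ≤ K := Nat.cast_nonneg K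
  have hκ0 : 0 < κ := by positivity
  have hκ1 : κ ≤ 1 := by rw [hκ, div_le_one hb0]; exact hb
  have h1 := emp_le P U hU hind w hw hunif n B (fun x hx => (hB x hx).2)
  have h2 := emp_ge P U hU hind w hw hunif n B (fun x hx => (hB x hx).2) κ hκ0 (by
    intro p hp
    simp only [Pr, Finset.mem_filter, Finset.mem_range] at hp
    have ha : aS w B p ≤ K / b := by
      unfold aS
      by_cases h : Y < 2 * p
      · have h3 := hwb p hp.2 h
        calc ∑ x ∈ B, fp w p x ≤ ∑ _x ∈ B, 1 / b := by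
              refine Finset.sum_le_sum fun x _ => (fp_le w p x).trans ?_
              exact one_div_le_one_div_of_le hb0 h3
          _ = B.card * (1 / b) := by rw [Finset.sum_const, nsmul_eq_mul]
          _ ≤ K * (1 / b) := by
              gcongr
          _ = K / b := by ring
      · have h3 : ∀ x ∈ B, fp w p x = 0 := by
          intro x hx
          have h4 := (hB x hx).1
          have h5 := hwp p hp.2
          unfold fp
          rw [if_neg]
          omega
        rw [Finset.sum_congr rfl h3, Finset.sum_const_zero]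
        positivity
    calc aS w B p * (1 + κ) ≤ K / b * 2 := by
          have := aS_nonneg w B p
          gcongr
          linarith
      _ ≤ κ := by
          rw [hκ, div_mul_eq_mul_div]
          exact div_le_div_of_nonneg_right (by linarith) hb0.le)
  have h3 := exp_diff (∑ y ∈ B, rho w y) κ hκ0.le
  rw [abs_le]
  constructor <;> linarith

/-- the second moment, with small errors -/
theorem second_moment' (P : Measure Ω) [IsProbabilityMeasure P] (s : Finset ℕ) (E : ℕ → Set Ω)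
    (hE : ∀ i ∈ s, MeasurableSet (E i)) (m : ℕ → ℝ) (hm : ∀ i ∈ s, 0 ≤ m i ∧ m i ≤ 1)
    (κ₁ κ₂ : ℝ) (hκ1 : 0 ≤ κ₁) (hκ2 : 0 ≤ κ₂) (D : ℕ)
    (h1 : ∀ i ∈ s, m i - κ₁ ≤ P.real (E i))
    (h2 : ∀ i ∈ s, ∃ J : Finset ℕ, J.card ≤ D ∧ ∀ j ∈ s, j ∉ J →
      P.real (E i ∩ E j) ≤ m i * m j + κ₂) (t : ℝ) (ht : 0 < t) :
    P.real {ω | t ≤ |(∑ i ∈ s, (E i).indicator (fun _ => (1 : ℝ)) ω) - ∑ i ∈ s, m i|} ≤
      (κ₂ * (s.card : ℝ) ^ 2 + D * s.card + 2 * κ₁ * (s.card : ℝ) ^ 2) / t ^ 2 := by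
  classical
  set μ := ∑ i ∈ s, m i with hμ
  have hμ0 : 0 ≤ μ := Finset.sum_nonneg fun i hi => (hm i hi).1
  have hμc : μ ≤ s.card := by
    calc μ ≤ ∑ _i ∈ s, (1 : ℝ) := Finset.sum_le_sum fun i hi => (hm i hi).2
      _ = s.card := by simp
  set f : Ω → ℝ := fun ω => ∑ i ∈ s, (E i).indicator (fun _ => (1 : ℝ)) ω with hf
  have hint : ∀ A : Set Ω, MeasurableSet A → Integrable (A.indicator (fun _ => (1 : ℝ))) P :=
    fun A hA => (integrable_const (1 : ℝ)).indicator hA
  have hind1 : ∀ A : Set Ω, MeasurableSet A →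
      ∫ ω, A.indicator (fun _ => (1 : ℝ)) ω ∂P = P.real A := by
    intro A hA
    rw [integral_indicator_const _ hA, smul_eq_mul, mul_one]
  have hexp : ∀ ω, (f ω - μ) ^ 2 = (∑ i ∈ s, ∑ j ∈ s, (E i ∩ E j).indicator (fun _ => (1 : ℝ)) ω) -
      2 * μ * (∑ i ∈ s, (E i).indicator (fun _ => (1 : ℝ)) ω) + μ ^ 2 := by
    intro ω
    have h1 : f ω ^ 2 = ∑ i ∈ s, ∑ j ∈ s, (E i ∩ E j).indicator (fun _ => (1 : ℝ)) ω := by
      rw [hf, sq, Finset.sum_mul_sum]
      refine Finset.sum_congr rfl fun i _ => Finset.sum_congr rfl fun j _ => ?_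
      by_cases hi : ω ∈ E i <;> by_cases hj : ω ∈ E j <;> simp [Set.indicator, hi, hj]
    rw [← h1]
    have h2 : ∑ i ∈ s, (E i).indicator (fun _ => (1 : ℝ)) ω = f ω := rfl
    rw [h2]
    ring
  have hI1 : Integrable (fun ω => ∑ i ∈ s, ∑ j ∈ s, (E i ∩ E j).indicator (fun _ => (1 : ℝ)) ω) P :=
    integrable_finsetSum _ fun i hi => integrable_finsetSum _ fun j hj =>
      hint _ ((hE i hi).inter (hE j hj))
  have hI2 : Integrable (fun ω => ∑ i ∈ s, (E i).indicator (fun _ => (1 : ℝ)) ω) P :=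
    integrable_finsetSum _ fun i hi => hint _ (hE i hi)
  have hI12 : Integrable (fun ω =>
      (∑ i ∈ s, ∑ j ∈ s, (E i ∩ E j).indicator (fun _ => (1 : ℝ)) ω) -
      2 * μ * (∑ i ∈ s, (E i).indicator (fun _ => (1 : ℝ)) ω)) P :=
    hI1.sub (hI2.const_mul (2 * μ))
  have hintg : Integrable (fun ω => (f ω - μ) ^ 2) P := by
    have h1 : (fun ω => (f ω - μ) ^ 2) = fun ω =>
        (∑ i ∈ s, ∑ j ∈ s, (E i ∩ E j).indicator (fun _ => (1 : ℝ)) ω) -
        2 * μ * (∑ i ∈ s, (E i).indicator (fun _ => (1 : ℝ)) ω) + μ ^ 2 := funext hexp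
    rw [h1]
    exact hI12.add (integrable_const _)
  have hval : ∫ ω, (f ω - μ) ^ 2 ∂P = ∑ i ∈ s, ∑ j ∈ s, P.real (E i ∩ E j) -
      2 * μ * ∑ i ∈ s, P.real (E i) + μ ^ 2 := by
    simp_rw [hexp]
    rw [integral_add hI12 (integrable_const _),
      integral_sub hI1 (hI2.const_mul (2 * μ)), integral_const_mul, integral_const,
      integral_finsetSum _ (fun i hi => integrable_finsetSum _ fun j hj =>
        hint _ ((hE i hi).inter (hE j hj))),
      integral_finsetSum _ (fun i hi => hint _ (hE i hi))]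
    have h1 : ∀ i ∈ s, ∫ ω, ∑ j ∈ s, (E i ∩ E j).indicator (fun _ => (1 : ℝ)) ω ∂P =
        ∑ j ∈ s, P.real (E i ∩ E j) := by
      intro i hi
      rw [integral_finsetSum _ (fun j hj => hint _ ((hE i hi).inter (hE j hj)))]
      exact Finset.sum_congr rfl fun j hj => hind1 _ ((hE i hi).inter (hE j hj))
    rw [Finset.sum_congr rfl h1, Finset.sum_congr rfl (fun i hi => hind1 _ (hE i hi))]
    simp
  have hb1 : ∑ i ∈ s, ∑ j ∈ s, P.real (E i ∩ E j) ≤ μ ^ 2 + κ₂ * (s.card : ℝ) ^ 2 + D * s.card := by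
    have h3 : ∀ i ∈ s, ∑ j ∈ s, P.real (E i ∩ E j) ≤ m i * μ + κ₂ * s.card + D := by
      intro i hi
      obtain ⟨J, hJ, hJ2⟩ := h2 i hi
      have h4 : ∀ j ∈ s, P.real (E i ∩ E j) ≤ (m i * m j + κ₂) + (if j ∈ J then 1 else 0) := by
        intro j hj
        by_cases h : j ∈ J
        · rw [if_pos h]
          have h5 : P.real (E i ∩ E j) ≤ 1 := measureReal_le_one
          have h6 : 0 ≤ m i * m j := mul_nonneg (hm i hi).1 (hm j hj).1
          linarith
        · rw [if_neg h, add_zero]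
          exact hJ2 j hj h
      refine (Finset.sum_le_sum h4).trans ?_
      rw [Finset.sum_add_distrib, Finset.sum_add_distrib, ← Finset.mul_sum, Finset.sum_const,
        nsmul_eq_mul, ← Finset.sum_filter, Finset.sum_const, nsmul_eq_mul, mul_one]
      have h5 : ((s.filter (fun j => j ∈ J)).card : ℝ) ≤ D := by
        have h6 : (s.filter (fun j => j ∈ J)).card ≤ J.card := by
          refine Finset.card_le_card fun j hj => ?_
          exact (Finset.mem_filter.1 hj).2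
        exact_mod_cast h6.trans hJ
      linarith
    refine (Finset.sum_le_sum h3).trans (le_of_eq ?_)
    rw [Finset.sum_add_distrib, Finset.sum_add_distrib, ← Finset.sum_mul, Finset.sum_const,
      Finset.sum_const, nsmul_eq_mul, nsmul_eq_mul]
    ring
  have hb2 : μ - κ₁ * s.card ≤ ∑ i ∈ s, P.real (E i) := by
    have h3 := Finset.sum_le_sum h1
    rw [Finset.sum_sub_distrib, Finset.sum_const, nsmul_eq_mul] at h3
    linarith
  have hmark := mul_meas_ge_le_integral_of_nonneg (μ := P)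
    (f := fun ω => (f ω - μ) ^ 2) (Eventually.of_forall fun ω => sq_nonneg _) hintg (t ^ 2)
  rw [hval] at hmark
  have hsub : P.real {ω | t ≤ |f ω - μ|} ≤ P.real {ω | t ^ 2 ≤ (f ω - μ) ^ 2} := by
    refine measureReal_mono ?_
    intro ω hω
    have h3 : t ≤ |f ω - μ| := hω
    show t ^ 2 ≤ (f ω - μ) ^ 2
    rw [← sq_abs (f ω - μ)]
    exact pow_le_pow_left₀ ht.le h3 2
  have h4 : t ^ 2 * P.real {ω | t ^ 2 ≤ (f ω - μ) ^ 2} ≤
      κ₂ * (s.card : ℝ) ^ 2 + D * s.card + 2 * κ₁ * (s.card : ℝ) ^ 2 := by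
    refine hmark.trans ?_
    have h5 : 2 * μ * (μ - κ₁ * s.card) ≤ 2 * μ * ∑ i ∈ s, P.real (E i) := by gcongr
    have h6 : μ * (κ₁ * s.card) ≤ s.card * (κ₁ * s.card) := by gcongr
    nlinarith
  rw [le_div_iff₀ (by positivity)]
  calc P.real {ω | t ≤ |f ω - μ|} * t ^ 2 ≤ P.real {ω | t ^ 2 ≤ (f ω - μ) ^ 2} * t ^ 2 := by gcongr
    _ = t ^ 2 * P.real {ω | t ^ 2 ≤ (f ω - μ) ^ 2} := mul_comm _ _
    _ ≤ _ := h4

end Pool.Agent.helper306_pp
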