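import Pool.Agent.helper306_pp.Mn

/-!
# Patterns in the set of the moved primes: the mean
-/

set_option autoImplicit false

namespace Pool.Agent.helper306_pp

open Finset Filter

/-- `1 - exp (-rho)` -/
noncomputable def rh (w : ℕ → ℕ) (y : ℕ) : ℝ := 1 - Real.exp (-rho w y)

lemma rh_bounds (w : ℕ → ℕ) (y : ℕ) : 0 ≤ rh w y ∧ rh w y ≤ 1 ∧ rh w y ≤ rho w y ∧
    rho w y - rh w y ≤ rho w y ^ 2 := by
  have h0 := rho_nonneg w y
  have h1 : Real.exp (-rho w y) ≤ 1 := Real.exp_le_one_iff.2 (by linarith)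
  have h2 := Real.exp_pos (-rho w y)
  have h3 : 1 - rho w y ≤ Real.exp (-rho w y) := Real.one_sub_le_exp_neg _
  have h4 : Real.exp (-rho w y) ≤ 1 - rho w y + rho w y ^ 2 := by
    have h5 : rho w y + 1 ≤ Real.exp (rho w y) := Real.add_one_le_exp _
    have h6 : Real.exp (rho w y) * Real.exp (-rho w y) = 1 := by rw [← Real.exp_add]; simp
    have h7 : (rho w y + 1) * Real.exp (-rho w y) ≤ 1 := by
      calc (rho w y + 1) * Real.exp (-rho w y) ≤ Real.exp (rho w y) * Real.exp (-rho w y) := by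
            gcongr
        _ = 1 := h6
    have h8 : (rho w y + 1) * Real.exp (-rho w y) ≤ (rho w y + 1) * (1 - rho w y + rho w y ^ 2) := by
      nlinarith [pow_nonneg h0 3]
    exact le_of_mul_le_mul_left h8 (by linarith)
  unfold rh
  refine ⟨by linarith, by linarith, by linarith, by linarith⟩

lemma prod_diff (S : Finset ℕ) (a b : ℕ → ℝ) (c : ℝ) (hc : 0 < c)
    (ha : ∀ h ∈ S, 0 ≤ a h ∧ a h ≤ c) (hb : ∀ h ∈ S, 0 ≤ b h ∧ b h ≤ c) :
    |∏ h ∈ S, a h - ∏ h ∈ S, b h| * c ≤ c ^ S.card * ∑ h ∈ S, |a h - b h| := by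
  classical
  induction S using Finset.induction_on with
  | empty => simp
  | insert z S hz ih =>
    have ih' := ih (fun h hh => ha h (mem_insert_of_mem hh)) (fun h hh => hb h (mem_insert_of_mem hh))
    rw [prod_insert hz, prod_insert hz, sum_insert hz, card_insert_of_notMem hz]
    have hpa : 0 ≤ ∏ h ∈ S, a h := prod_nonneg fun h hh => (ha h (mem_insert_of_mem hh)).1
    have hpa2 : ∏ h ∈ S, a h ≤ c ^ S.card := by
      calc ∏ h ∈ S, a h ≤ ∏ _h ∈ S, c :=
            prod_le_prod (fun h hh => (ha h (mem_insert_of_mem hh)).1)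
              (fun h hh => (ha h (mem_insert_of_mem hh)).2)
        _ = c ^ S.card := prod_const _
    have hz1 := hb z (mem_insert_self z S)
    have h1 : a z * ∏ h ∈ S, a h - b z * ∏ h ∈ S, b h =
        (a z - b z) * ∏ h ∈ S, a h + b z * (∏ h ∈ S, a h - ∏ h ∈ S, b h) := by ring
    have h2 : |a z * ∏ h ∈ S, a h - b z * ∏ h ∈ S, b h| ≤
        |a z - b z| * c ^ S.card + c * |∏ h ∈ S, a h - ∏ h ∈ S, b h| := by
      rw [h1]
      refine (abs_add_le _ _).trans ?_
      rw [abs_mul, abs_mul, abs_of_nonneg hpa, abs_of_nonneg hz1.1]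
      gcongr
      exact hz1.2
    calc |a z * ∏ h ∈ S, a h - b z * ∏ h ∈ S, b h| * c
        ≤ (|a z - b z| * c ^ S.card + c * |∏ h ∈ S, a h - ∏ h ∈ S, b h|) * c := by gcongr
      _ = |a z - b z| * c ^ (S.card + 1) + c * (|∏ h ∈ S, a h - ∏ h ∈ S, b h| * c) := by ring
      _ ≤ |a z - b z| * c ^ (S.card + 1) + c * (c ^ S.card * ∑ h ∈ S, |a h - b h|) := by gcongr
      _ = c ^ (S.card + 1) * (|a z - b z| + ∑ h ∈ S, |a h - b h|) := by ring

/-- the density is close to the constant `1 / log X` in mean -/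
theorem l1c (w : ℕ → ℕ) (M : ℝ) (hM : 1 ≤ M) (hrho : ∀ x : ℕ, rho w x * Real.log x ≤ M)
    (hl1 : ∀ δ : ℝ, 0 < δ → ∀ᶠ n : ℕ in atTop, ∑ x ∈ range (n + 1), |rho w x - 1 / Real.log x| ≤
      δ * (n / Real.log n)) (c : ℕ) (δ : ℝ) (hδ : 0 < δ) :
    ∀ᶠ X : ℕ in atTop, ∑ y ∈ Ico (Nat.sqrt X + 1) (X + c), |rh w y - 1 / Real.log X| ≤
      δ * (X / Real.log X) := by
  set η : ℝ := min (δ / 32) (1 / 2) with hη
  have hη0 : 0 < η := lt_min (by positivity) (by norm_num)
  have hη1 : η ≤ δ / 32 := min_le_left _ _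
  have hη2 : η ≤ 1 / 2 := min_le_right _ _
  have hlogη : 0 < Real.log (1 / η) := Real.log_pos (by
    rw [lt_div_iff₀ hη0]; linarith)
  have hcast : Tendsto (fun j : ℕ => (j : ℝ)) atTop atTop := tendsto_natCast_atTop_atTop
  have hlog : Tendsto (fun X : ℕ => Real.log (X : ℝ)) atTop atTop :=
    Real.tendsto_log_atTop.comp tendsto_natCast_atTop_atTop
  have hl1' : ∀ᶠ X : ℕ in atTop, ∑ x ∈ range (X + c + 1), |rho w x - 1 / Real.log x| ≤
      δ / 8 * ((X + c : ℕ) / Real.log (X + c : ℕ)) :=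
    (tendsto_add_atTop_nat c).eventually (hl1 (δ / 8) (by positivity))
  filter_upwards [hl1', hlog.eventually_ge_atTop (32 * M ^ 2 / δ),
    hlog.eventually_ge_atTop (16 * Real.log (1 / η) / δ), eventually_ge_atTop (c + 4)]
    with X g1 g2 g3 g4
  have hX4 : (4 : ℝ) ≤ X := by
    have : 4 ≤ X := by omega
    exact_mod_cast this
  have hX0 : (0 : ℝ) < X := by linarith
  set T := Real.log (X : ℝ) with hT
  have hT0 : 0 < T := Real.log_pos (by linarith)
  have hcX : (c : ℝ) ≤ X := by
    have : c ≤ X := by omega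
    exact_mod_cast this
  have hXc : ((X + c : ℕ) : ℝ) ≤ 2 * X := by push_cast; linarith
  -- logarithms
  have hlogy : ∀ y : ℕ, Nat.sqrt X + 1 ≤ y → T / 2 ≤ Real.log y := by
    intro y hy
    have h3 := Nat.lt_succ_sqrt X
    have h4 : X ≤ y ^ 2 := by
      calc X ≤ (Nat.sqrt X + 1) * (Nat.sqrt X + 1) := h3.le
        _ ≤ y * y := Nat.mul_le_mul hy hy
        _ = y ^ 2 := by ring
    have h5 : (X : ℝ) ≤ (y : ℝ) ^ 2 := by exact_mod_cast h4
    have h6 : T ≤ Real.log ((y : ℝ) ^ 2) := Real.log_le_log hX0 h5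
    rw [Real.log_pow] at h6
    push_cast at h6
    linarith
  -- the three parts
  have hterm : ∀ y ∈ Ico (Nat.sqrt X + 1) (X + c), |rh w y - 1 / T| ≤
      (2 * M / T) ^ 2 + |rho w y - 1 / Real.log y| +
      ((if (y : ℝ) < η * X then 2 / T else 0) + 2 * Real.log (1 / η) / T ^ 2) := by
    intro y hy
    rw [mem_Ico] at hy
    have h1 := hlogy y hy.1
    have h2 : 0 < Real.log y := by linarith
    obtain ⟨h3, h4, h5, h6⟩ := rh_bounds w y
    have h7 := rho_nonneg w y
    have h8 : rho w y ≤ 2 * M / T := by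
      rw [le_div_iff₀ hT0]
      have h9 := hrho y
      nlinarith
    have h9 : |rh w y - rho w y| ≤ (2 * M / T) ^ 2 := by
      rw [abs_sub_comm, abs_of_nonneg (by linarith)]
      refine h6.trans ?_
      gcongr
    have h10 : |1 / Real.log y - 1 / T| ≤
        (if (y : ℝ) < η * X then 2 / T else 0) + 2 * Real.log (1 / η) / T ^ 2 := by
      have h12 : 1 / Real.log y ≤ 2 / T := by
        rw [div_le_div_iff₀ h2 hT0]
        linarith
      have h13 : 0 ≤ 2 * Real.log (1 / η) / T ^ 2 := by positivity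
      by_cases h11 : (y : ℝ) < η * X
      · rw [if_pos h11]
        have h14 : 1 / T ≤ 2 / T := by gcongr; norm_num
        have h15 : 0 ≤ 1 / T := by positivity
        have h16 : 0 ≤ 1 / Real.log y := by positivity
        rw [abs_le]
        constructor <;> linarith
      · rw [if_neg h11, zero_add]
        push Not at h11
        have hy0 : (0 : ℝ) < y := by
          have : 0 < y := by omega
          exact_mod_cast this
        have h14 : |T - Real.log y| ≤ Real.log (1 / η) := by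
          have h15 : Real.log y ≤ Real.log (1 / η) + T := by
            rw [← Real.log_mul (by positivity) hX0.ne']
            apply Real.log_le_log hy0
            have h16 : (y : ℝ) ≤ 2 * X := by
              have h17 : (y : ℝ) ≤ ((X + c : ℕ) : ℝ) := by exact_mod_cast hy.2.le
              linarith
            have h17 : 2 ≤ 1 / η := by
              rw [le_div_iff₀ hη0]; linarith
            nlinarith
          have h16 : T - Real.log (1 / η) ≤ Real.log y := by
            rw [← Real.log_div hX0.ne' (by positivity)]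
            apply Real.log_le_log (by positivity)
            rw [div_div_eq_mul_div, div_one]
            linarith
          rw [abs_le]
          constructor <;> linarith
        have h15 : 1 / Real.log y - 1 / T = (T - Real.log y) / (Real.log y * T) := by
          field_simp
        rw [h15, abs_div, abs_of_pos (show 0 < Real.log y * T by positivity)]
        calc |T - Real.log y| / (Real.log y * T) ≤ Real.log (1 / η) / (T / 2 * T) := by gcongr
          _ = 2 * Real.log (1 / η) / T ^ 2 := by field_simp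
    have h11 : rh w y - 1 / T = (rh w y - rho w y) + (rho w y - 1 / Real.log y) +
        (1 / Real.log y - 1 / T) := by ring
    rw [h11]
    refine (abs_add_le _ _).trans (add_le_add ((abs_add_le _ _).trans ?_) h10)
    exact add_le_add h9 le_rfl
  refine (sum_le_sum hterm).trans ?_
  rw [sum_add_distrib, sum_add_distrib, sum_add_distrib, sum_const, sum_const, nsmul_eq_mul,
    nsmul_eq_mul, ← sum_filter, sum_const, nsmul_eq_mul]
  have hcard : ((Ico (Nat.sqrt X + 1) (X + c)).card : ℝ) ≤ 2 * X := by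
    rw [Nat.card_Ico]
    have : X + c - (Nat.sqrt X + 1) ≤ X + c := Nat.sub_le _ _
    have h2 : ((X + c - (Nat.sqrt X + 1) : ℕ) : ℝ) ≤ ((X + c : ℕ) : ℝ) := by exact_mod_cast this
    linarith
  have hfil : (((Ico (Nat.sqrt X + 1) (X + c)).filter (fun y : ℕ => (y : ℝ) < η * X)).card : ℝ) ≤
      η * X + 1 := by
    have h1 : ((Ico (Nat.sqrt X + 1) (X + c)).filter (fun y : ℕ => (y : ℝ) < η * X)).card ≤
        (range (⌊η * X⌋₊ + 1)).card := by
      refine card_le_card fun y hy => ?_
      rw [mem_filter] at hy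
      rw [mem_range]
      have : y ≤ ⌊η * (X : ℝ)⌋₊ := Nat.le_floor hy.2.le
      omega
    rw [card_range] at h1
    have h2 : ((⌊η * (X : ℝ)⌋₊ + 1 : ℕ) : ℝ) ≤ η * X + 1 := by
      push_cast
      have := Nat.floor_le (show 0 ≤ η * (X : ℝ) by positivity)
      linarith
    exact le_trans (by exact_mod_cast h1) h2
  have hpart2 : ∑ y ∈ Ico (Nat.sqrt X + 1) (X + c), |rho w y - 1 / Real.log y| ≤
      δ / 4 * (X / T) := by
    have h1 : ∑ y ∈ Ico (Nat.sqrt X + 1) (X + c), |rho w y - 1 / Real.log y| ≤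
        ∑ x ∈ range (X + c + 1), |rho w x - 1 / Real.log x| := by
      refine sum_le_sum_of_subset_of_nonneg ?_ (fun _ _ _ => abs_nonneg _)
      intro y hy
      rw [mem_Ico] at hy
      rw [mem_range]
      omega
    refine h1.trans (g1.trans ?_)
    have h2 : T ≤ Real.log ((X + c : ℕ) : ℝ) := by
      apply Real.log_le_log hX0
      push_cast
      have : (0 : ℝ) ≤ c := Nat.cast_nonneg c
      linarith
    calc δ / 8 * (((X + c : ℕ) : ℝ) / Real.log ((X + c : ℕ) : ℝ)) ≤ δ / 8 * (2 * X / T) := by gcongr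
      _ = δ / 4 * (X / T) := by ring
  have hXT : 0 ≤ (X : ℝ) / T := by positivity
  have hp1 : ((Ico (Nat.sqrt X + 1) (X + c)).card : ℝ) * (2 * M / T) ^ 2 ≤ δ / 4 * (X / T) := by
    calc ((Ico (Nat.sqrt X + 1) (X + c)).card : ℝ) * (2 * M / T) ^ 2 ≤ (2 * X) * (2 * M / T) ^ 2 := by
          gcongr
      _ = (8 * M ^ 2 / T) * (X / T) := by ring
      _ ≤ δ / 4 * (X / T) := by
          refine mul_le_mul_of_nonneg_right ?_ hXT
          rw [div_le_iff₀ hT0]
          rw [div_le_iff₀ hδ] at g2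
          linarith
  have hp3 : (((Ico (Nat.sqrt X + 1) (X + c)).filter (fun y : ℕ => (y : ℝ) < η * X)).card : ℝ) *
      (2 / T) ≤ δ / 4 * (X / T) := by
    have hη3 : η * X + 1 ≤ δ / 8 * X := by
      -- `1 ≤ δ / 32 * X` for large `X`
      have h1 : 32 * M ^ 2 / δ ≤ T := g2
      have h2 : T ≤ X := (Real.log_le_sub_one_of_pos hX0).trans (by linarith)
      have h3 : 32 * M ^ 2 ≤ X * δ := by
        rw [div_le_iff₀ hδ] at h1
        nlinarith
      have h4 : 1 ≤ M ^ 2 := one_le_pow₀ hM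
      have h5 : η * X ≤ δ / 32 * X := by gcongr
      nlinarith
    calc _ ≤ (η * X + 1) * (2 / T) := by gcongr
      _ ≤ (δ / 8 * X) * (2 / T) := by gcongr
      _ = δ / 4 * (X / T) := by ring
  have hp4 : ((Ico (Nat.sqrt X + 1) (X + c)).card : ℝ) * (2 * Real.log (1 / η) / T ^ 2) ≤
      δ / 4 * (X / T) := by
    calc ((Ico (Nat.sqrt X + 1) (X + c)).card : ℝ) * (2 * Real.log (1 / η) / T ^ 2)
        ≤ (2 * X) * (2 * Real.log (1 / η) / T ^ 2) := by gcongr
      _ = (4 * Real.log (1 / η) / T) * (X / T) := by ring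
      _ ≤ δ / 4 * (X / T) := by
          refine mul_le_mul_of_nonneg_right ?_ hXT
          rw [div_le_iff₀ hT0]
          rw [div_le_iff₀ hδ] at g3
          linarith
  linarith

end Pool.Agent.helper306_pp
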