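import Pool.Agent.helper306_pp.Tp1
import Pool.Agent.helper306_pp.Tp2

/-!
# Patterns in the set of the moved primes: deviations
-/

set_option autoImplicit false

namespace Pool.Agent.helper306_pp

open MeasureTheory ProbabilityTheory Filter Topology

variable {Ω : Type*} [MeasurableSpace Ω]

lemma ev_lp (C : ℝ) (hC : 0 < C) (m : ℕ) (a : ℝ) (ha : 0 < a) :
    ∀ᶠ n : ℕ in atTop, C * Real.log n ^ m ≤ (n : ℝ) ^ a := by
  have h1 : ∀ᶠ y : ℝ in atTop, ‖Real.log y ^ (m : ℝ)‖ ≤ 1 / C * ‖y ^ a‖ :=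
    (isLittleO_log_rpow_rpow_atTop (m : ℝ) ha).def (by positivity)
  filter_upwards [tendsto_natCast_atTop_atTop.eventually h1, eventually_ge_atTop 1] with n h2 h3
  have hn : (1 : ℝ) ≤ n := by exact_mod_cast h3
  have hL := Real.log_nonneg hn
  rw [Real.rpow_natCast, Real.norm_eq_abs, Real.norm_eq_abs, abs_of_nonneg (by positivity),
    abs_of_nonneg (by positivity)] at h2
  calc C * Real.log n ^ m ≤ C * (1 / C * (n : ℝ) ^ a) := by gcongr
    _ = (n : ℝ) ^ a := by field_simp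

/-- the mean -/
noncomputable def muT (w : ℕ → ℕ) (S : Finset ℕ) (X : ℕ) : ℝ :=
  ∑ x ∈ Finset.Ico (Nat.sqrt X + 1) X, ∏ h ∈ S, rh w (x + h)

lemma log_half (X y : ℕ) (hX : 1 ≤ X) (hy : Nat.sqrt X + 1 ≤ y) :
    Real.log X / 2 ≤ Real.log y := by
  have h3 := Nat.lt_succ_sqrt X
  have h4 : X ≤ y ^ 2 := by
    calc X ≤ (Nat.sqrt X + 1) * (Nat.sqrt X + 1) := h3.le
      _ ≤ y * y := Nat.mul_le_mul hy hy
      _ = y ^ 2 := by ring
  have h5 : (X : ℝ) ≤ (y : ℝ) ^ 2 := by exact_mod_cast h4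
  have hX0 : (0 : ℝ) < X := by exact_mod_cast hX
  have h6 : Real.log X ≤ Real.log ((y : ℝ) ^ 2) := Real.log_le_log hX0 h5
  rw [Real.log_pow] at h6
  push_cast at h6
  linarith

theorem muT_asymp (w : ℕ → ℕ) (M : ℝ) (hM : 1 ≤ M) (hrho : ∀ x : ℕ, rho w x * Real.log x ≤ M)
    (hl1 : ∀ δ : ℝ, 0 < δ → ∀ᶠ n : ℕ in atTop,
      ∑ x ∈ Finset.range (n + 1), |rho w x - 1 / Real.log x| ≤ δ * (n / Real.log n))
    (S : Finset ℕ) (hS : S.Nonempty) (ε : ℝ) (hε : 0 < ε) :
    ∀ᶠ X : ℕ in atTop, |muT w S X - X / Real.log X ^ S.card| ≤ ε * (X / Real.log X ^ S.card) := by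
  set k := S.card with hk
  have hk1 : 1 ≤ k := hS.card_pos
  have hkr : (1 : ℝ) ≤ k := by exact_mod_cast hk1
  set δ : ℝ := ε * (2 * M) / (2 * k * (2 * M) ^ k) with hδ
  have hδ0 : 0 < δ := by positivity
  set cc := S.sup id + 1 with hcc
  have hcS : ∀ h ∈ S, h < cc := fun h hh => Nat.lt_succ_of_le (Finset.le_sup (f := id) hh)
  have hsq : ∀ᶠ X : ℕ in atTop, (2 : ℝ) / ε * 2 ≤ (X : ℝ) ^ (1 / 2 : ℝ) :=
    ((tendsto_rpow_atTop (by norm_num : (0 : ℝ) < 1 / 2)).comp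
      tendsto_natCast_atTop_atTop).eventually_ge_atTop _
  filter_upwards [l1c w M hM hrho hl1 cc δ hδ0, hsq, eventually_ge_atTop 4] with X g1 g2 g3
  have hX4 : (4 : ℝ) ≤ X := by exact_mod_cast g3
  have hX0 : (0 : ℝ) < X := by linarith
  set T := Real.log (X : ℝ) with hT
  have hT0 : 0 < T := Real.log_pos (by linarith)
  set c : ℝ := 2 * M / T with hc
  have hc0 : 0 < c := by positivity
  set I := Finset.Ico (Nat.sqrt X + 1) X with hI
  -- pointwise
  have hpt : ∀ x ∈ I, |∏ h ∈ S, rh w (x + h) - (1 / T) ^ k| * c ≤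
      c ^ k * ∑ h ∈ S, |rh w (x + h) - 1 / T| := by
    intro x hx
    rw [hI, Finset.mem_Ico] at hx
    have h1 := prod_diff S (fun h => rh w (x + h)) (fun _ => 1 / T) c hc0 (by
      intro h hh
      obtain ⟨h3, h4, h5, h6⟩ := rh_bounds w (x + h)
      refine ⟨h3, h5.trans ?_⟩
      have h7 := log_half X (x + h) (by omega) (by omega)
      rw [hc, le_div_iff₀ hT0]
      have h8 := hrho (x + h)
      have h9 := rho_nonneg w (x + h)
      nlinarith) (by
      intro h hh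
      refine ⟨by positivity, ?_⟩
      rw [hc]
      gcongr
      linarith)
    rw [Finset.prod_const] at h1
    exact h1
  -- the sum
  have hsum : ∑ x ∈ I, ∑ h ∈ S, |rh w (x + h) - 1 / T| ≤ k * (δ * (X / T)) := by
    rw [Finset.sum_comm]
    have h1 : ∀ h ∈ S, ∑ x ∈ I, |rh w (x + h) - 1 / T| ≤ δ * (X / T) := by
      intro h hh
      refine le_trans ?_ g1
      have h2 : ∑ x ∈ I, |rh w (x + h) - 1 / T| = ∑ y ∈ I.image (fun x => x + h), |rh w y - 1 / T| := by
        rw [Finset.sum_image]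
        intro a _ b _ hab
        simpa using hab
      rw [h2]
      refine Finset.sum_le_sum_of_subset_of_nonneg ?_ (fun _ _ _ => abs_nonneg _)
      intro y hy
      rw [Finset.mem_image] at hy
      obtain ⟨x, hx, rfl⟩ := hy
      rw [hI, Finset.mem_Ico] at hx
      rw [Finset.mem_Ico]
      have := hcS h hh
      omega
    refine (Finset.sum_le_sum h1).trans (le_of_eq ?_)
    rw [Finset.sum_const, nsmul_eq_mul]
  have hdiff : |muT w S X - I.card * (1 / T) ^ k| ≤ ε / 2 * (X / T ^ k) := by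
    have h1 : muT w S X - I.card * (1 / T) ^ k = ∑ x ∈ I, (∏ h ∈ S, rh w (x + h) - (1 / T) ^ k) := by
      rw [Finset.sum_sub_distrib, Finset.sum_const, nsmul_eq_mul]
      rfl
    have h2 : |muT w S X - I.card * (1 / T) ^ k| * c ≤ c ^ k * (k * (δ * (X / T))) := by
      rw [h1]
      calc |∑ x ∈ I, (∏ h ∈ S, rh w (x + h) - (1 / T) ^ k)| * c
          ≤ (∑ x ∈ I, |∏ h ∈ S, rh w (x + h) - (1 / T) ^ k|) * c := by
            gcongr
            exact Finset.abs_sum_le_sum_abs _ _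
        _ = ∑ x ∈ I, |∏ h ∈ S, rh w (x + h) - (1 / T) ^ k| * c := by rw [Finset.sum_mul]
        _ ≤ ∑ x ∈ I, c ^ k * ∑ h ∈ S, |rh w (x + h) - 1 / T| := Finset.sum_le_sum hpt
        _ = c ^ k * ∑ x ∈ I, ∑ h ∈ S, |rh w (x + h) - 1 / T| := by rw [Finset.mul_sum]
        _ ≤ c ^ k * (k * (δ * (X / T))) := by gcongr
    have h3 : c ^ k * (k * (δ * (X / T))) = (ε / 2 * (X / T ^ k)) * c := by
      rw [hδ, hc, div_pow]
      have hM0 : (M : ℝ) ≠ 0 := by linarith
      have hk0 : (k : ℝ) ≠ 0 := by linarith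
      field_simp
    rw [h3] at h2
    exact le_of_mul_le_mul_right h2 hc0
  have hcardI : |(I.card : ℝ) * (1 / T) ^ k - X / T ^ k| ≤ ε / 2 * (X / T ^ k) := by
    have h1 : I.card = X - (Nat.sqrt X + 1) := by rw [hI, Nat.card_Ico]
    have h2 : Nat.sqrt X + 1 ≤ X := by
      have : Nat.sqrt X ≤ X / 2 := by
        have h3 : Nat.sqrt X * Nat.sqrt X ≤ X := Nat.sqrt_le X
        have h4 : 2 ≤ Nat.sqrt X := by
          rw [Nat.le_sqrt]; omega
        have h5 : 2 * Nat.sqrt X ≤ Nat.sqrt X * Nat.sqrt X := Nat.mul_le_mul_right _ h4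
        omega
      omega
    have h3 : (I.card : ℝ) = X - (Nat.sqrt X + 1) := by
      rw [h1, Nat.cast_sub h2]
      push_cast
      ring
    have h4 : ((Nat.sqrt X : ℝ) + 1) ≤ ε / 2 * X := by
      have h5 : (Nat.sqrt X : ℝ) ≤ Real.sqrt X := Real.nat_sqrt_le_real_sqrt
      have h6 : (X : ℝ) ^ (1 / 2 : ℝ) = Real.sqrt X := (Real.sqrt_eq_rpow _).symm
      rw [h6] at g2
      have h7 : Real.sqrt X * Real.sqrt X = X := Real.mul_self_sqrt hX0.le
      have h8 : 1 ≤ Real.sqrt X := by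
        rw [Real.one_le_sqrt]; linarith
      have h9 : 4 ≤ ε * Real.sqrt X := by
        rw [div_mul_eq_mul_div, div_le_iff₀ hε] at g2
        linarith
      nlinarith
    have h5 : (I.card : ℝ) * (1 / T) ^ k - X / T ^ k = -(((Nat.sqrt X : ℝ) + 1) / T ^ k) := by
      rw [h3, one_div, inv_pow]
      field_simp
      ring
    rw [h5, abs_neg, abs_of_nonneg (by positivity)]
    calc ((Nat.sqrt X : ℝ) + 1) / T ^ k ≤ (ε / 2 * X) / T ^ k := by gcongr
      _ = ε / 2 * (X / T ^ k) := by ring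
  have h1 : muT w S X - X / T ^ k = (muT w S X - I.card * (1 / T) ^ k) +
      ((I.card : ℝ) * (1 / T) ^ k - X / T ^ k) := by ring
  rw [h1]
  refine (abs_add_le _ _).trans ?_
  linarith

/-- the event that the pattern `x + S` is hit -/
def EvP (U : ℕ → Ω → ℕ) (S : Finset ℕ) (n x : ℕ) : Set Ω := HM U n (S.image (fun h => x + h)) ∅

theorem dev (P : Measure Ω) [IsProbabilityMeasure P] (U : ℕ → Ω → ℕ)
    (hU : ∀ n, Measurable (U n)) (hind : iIndepFun U P) (H : ℕ → ℕ) (h1 : ∀ j, 1 ≤ H j)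
    (h2 : ∀ j, H j ≤ 2 ^ j) (θ : ℝ) (hθ : 0 < θ) (hθ1 : θ < 1)
    (h3 : ∀ᶠ j : ℕ in atTop, (2 : ℝ) ^ (θ * j) ≤ H j)
    (hunif : ∀ p : ℕ, p.Prime → ∀ j < wH H p, P {ω | U p ω = j} = (wH H p : ENNReal)⁻¹)
    (S : Finset ℕ) (ε : ℝ) (hε : 0 < ε) :
    ∀ᶠ X : ℕ in atTop, P.real {ω | ε * (X / Real.log X ^ S.card) ≤
      |(∑ x ∈ Finset.Ico (Nat.sqrt X + 1) X,
        (EvP U S (X + S.sup id) x).indicator (fun _ => (1 : ℝ)) ω) - muT (wH H) S X|} ≤
      (X : ℝ) ^ (-(θ / 4)) := by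
  classical
  set k := S.card with hk
  obtain ⟨j₀, hj₀⟩ := eventually_atTop.1 h3
  have hwpos : ∀ p : ℕ, p.Prime → 0 < wH H p := fun p _ => h1 _
  have hwle := wH_le H h2
  set C₁ : ℝ := 2 * (2 * k + 1) * 8 ^ θ with hC₁
  have hC₁0 : 0 < C₁ := by positivity
  set C₂ : ℝ := ((2 ^ (2 * k) + 2 * 2 ^ k) * C₁ + k ^ 2) / ε ^ 2 with hC₂
  have hC₂0 : 0 < C₂ := by positivity
  have hpw : Tendsto (fun n : ℕ => (n : ℝ) ^ (θ / 2)) atTop atTop :=
    (tendsto_rpow_atTop (by linarith)).comp tendsto_natCast_atTop_atTop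
  filter_upwards [ev_lp C₂ hC₂0 (2 * k) (θ / 4) (by positivity), hpw.eventually_ge_atTop C₁,
    eventually_ge_atTop ((8 * 2 ^ j₀) ^ 2 + 4)] with X g1 g2 g3
  have hX4 : 4 ≤ X := by omega
  have hX4r : (4 : ℝ) ≤ X := by exact_mod_cast hX4
  have hX0 : (0 : ℝ) < X := by linarith
  set T := Real.log (X : ℝ) with hT
  have hT0 : 0 < T := Real.log_pos (by linarith)
  set b : ℝ := (Real.sqrt X / 8) ^ θ with hb
  have hsq0 : 0 < Real.sqrt X := Real.sqrt_pos.2 hX0
  have hb0 : 0 < b := by positivity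
  have hbval : b = (X : ℝ) ^ (θ / 2) / 8 ^ θ := by
    rw [hb, Real.div_rpow hsq0.le (by norm_num), Real.sqrt_eq_rpow, ← Real.rpow_mul hX0.le]
    congr 2
    ring
  set n := X + S.sup id with hn
  set Y := Nat.sqrt X + 1 with hY
  have hYr : Real.sqrt X ≤ Y := by
    rw [hY]
    have h5 := Nat.lt_succ_sqrt X
    have h6 : (X : ℝ) ≤ ((Nat.sqrt X + 1 : ℕ) : ℝ) ^ 2 := by
      have : X ≤ (Nat.sqrt X + 1) ^ 2 := by rw [sq]; exact h5.le
      exact_mod_cast this
    exact (Real.sqrt_le_left (by positivity)).2 h6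
  have hwb : ∀ p : ℕ, p.Prime → Y < 2 * p → b ≤ wH H p := by
    intro p hp hYp
    set i := Nat.log 2 p with hi
    have h5 : p < 2 ^ (i + 1) := Nat.lt_pow_succ_log_self (by norm_num) p
    have h6 : Y < 4 * 2 ^ i := by
      rw [pow_succ] at h5
      omega
    have h6' : Real.sqrt X < 8 * 2 ^ i := by
      have h7 : (Y : ℝ) < 4 * 2 ^ i := by exact_mod_cast h6
      have h8 : (0 : ℝ) < 2 ^ i := by positivity
      linarith
    have h7 : j₀ ≤ i := by
      by_contra h8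
      have h9 : (2 : ℝ) ^ i ≤ 2 ^ j₀ := pow_le_pow_right₀ (by norm_num) (by omega)
      have h10 : (8 * 2 ^ j₀ : ℝ) ≤ Real.sqrt X := by
        apply Real.le_sqrt_of_sq_le
        have : (8 * 2 ^ j₀) ^ 2 ≤ X := by omega
        exact_mod_cast this
      linarith
    calc b ≤ ((2 : ℝ) ^ i) ^ θ := Real.rpow_le_rpow (by positivity) (by linarith) hθ.le
      _ = (2 : ℝ) ^ (θ * i) := by
          rw [← Real.rpow_natCast, ← Real.rpow_mul (by norm_num), mul_comm]
      _ ≤ (wH H p : ℝ) := hj₀ i h7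
  set κ : ℝ := 2 * (((2 * k : ℕ) : ℝ) + 1) / b with hκ
  have hκ0 : 0 < κ := by positivity
  have hκval : κ = C₁ * (X : ℝ) ^ (-(θ / 2)) := by
    rw [hκ, hbval, hC₁, Real.rpow_neg hX0.le]
    push_cast
    field_simp
  have hbig : 2 * (((2 * k : ℕ) : ℝ) + 1) ≤ b := by
    rw [hbval, le_div_iff₀ (by positivity)]
    push_cast
    calc 2 * (2 * (k : ℝ) + 1) * 8 ^ θ = C₁ := by rw [hC₁]
      _ ≤ (X : ℝ) ^ (θ / 2) := g2
  have hE := fun B hB hc => emp_near P U hU hind (wH H) hwpos hwle hunif n (2 * k) Y b hbig hwb B hB hc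
  have hhit := hit_ind P U hU (rho (wH H)) n (2 * k) κ {y | Y ≤ y ∧ y ≤ n} hE
  have hsup : ∀ h ∈ S, h ≤ S.sup id := fun h hh => Finset.le_sup (f := id) hh
  have hinj : ∀ x : ℕ, Function.Injective (fun h : ℕ => x + h) := fun x a b hab => by simpa using hab
  have hAI : ∀ x ∈ Finset.Ico Y X, ∀ y ∈ S.image (fun h => x + h), y ∈ {y | Y ≤ y ∧ y ≤ n} := by
    intro x hx y hy
    rw [Finset.mem_Ico] at hx
    rw [Finset.mem_image] at hy
    obtain ⟨h, hh, rfl⟩ := hy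
    have := hsup h hh
    show Y ≤ x + h ∧ x + h ≤ n
    omega
  have hAc : ∀ x, (S.image (fun h => x + h)).card = k := fun x => Finset.card_image_of_injective _ (hinj x)
  have hprod : ∀ x, ∏ y ∈ S.image (fun h => x + h), (1 - Real.exp (-rho (wH H) y)) =
      ∏ h ∈ S, rh (wH H) (x + h) := by
    intro x
    rw [Finset.prod_image (fun a _ b _ hab => hinj x hab)]
    rfl
  have hfin := second_moment' P (Finset.Ico Y X) (EvP U S n)
    (fun i _ => hm_meas U hU n _ _) (fun x => ∏ h ∈ S, rh (wH H) (x + h))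
    (fun i _ => ⟨Finset.prod_nonneg fun h _ => (rh_bounds _ _).1,
      Finset.prod_le_one (fun h _ => (rh_bounds _ _).1) (fun h _ => (rh_bounds _ _).2.1)⟩)
    (2 ^ k * κ) (2 ^ (2 * k) * κ) (by positivity) (by positivity) (k ^ 2)
    (by
      intro x hx
      have h5 := hhit (S.image (fun h => x + h)) ∅ (hAI x hx) (by simp) (by simp)
        (by rw [hAc, Finset.card_empty]; omega)
      rw [hprod, Finset.sum_empty, neg_zero, Real.exp_zero, mul_one, hAc, abs_le] at h5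
      have h6 := h5.1
      show _ ≤ P.real (HM U n (S.image (fun h => x + h)) ∅)
      linarith)
    (by
      intro x hx
      refine ⟨(S ×ˢ S).image (fun a => x + a.1 - a.2), ?_, ?_⟩
      · refine Finset.card_image_le.trans ?_
        rw [Finset.card_product, sq]
      · intro x' hx' hJ
        have hdisj : Disjoint (S.image (fun h => x + h)) (S.image (fun h => x' + h)) := by
          rw [Finset.disjoint_left]
          intro y hy hy'
          rw [Finset.mem_image] at hy hy'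
          obtain ⟨a, ha, rfl⟩ := hy
          obtain ⟨a', ha', h5⟩ := hy'
          apply hJ
          rw [Finset.mem_image]
          exact ⟨(a, a'), Finset.mem_product.2 ⟨ha, ha'⟩, by simp only; omega⟩
        have h5 := hhit (S.image (fun h => x + h) ∪ S.image (fun h => x' + h)) ∅ (by
          intro y hy
          rcases Finset.mem_union.1 hy with h | h
          · exact hAI x hx y h
          · exact hAI x' hx' y h) (by simp) (by simp) (by
          rw [Finset.card_union_of_disjoint hdisj, hAc, hAc, Finset.card_empty]; omega)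
        rw [Finset.prod_union hdisj, hprod, hprod, Finset.sum_empty, neg_zero, Real.exp_zero, mul_one,
          Finset.card_union_of_disjoint hdisj, hAc, hAc, abs_le] at h5
        have h6 : EvP U S n x ∩ EvP U S n x' =
            HM U n (S.image (fun h => x + h) ∪ S.image (fun h => x' + h)) ∅ := by
          ext ω
          simp only [EvP, HM, Set.mem_inter_iff, Set.mem_ofPred_eq, Finset.mem_union]
          constructor
          · rintro ⟨⟨h7, h8⟩, h9, _⟩
            exact ⟨fun y hy => hy.elim (h7 y) (h9 y), h8⟩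
          · rintro ⟨h7, h8⟩
            exact ⟨⟨fun y hy => h7 y (Or.inl hy), h8⟩, fun y hy => h7 y (Or.inr hy), h8⟩
        rw [h6]
        have h7 := h5.2
        have h8 : (2 : ℝ) ^ (k + k) = 2 ^ (2 * k) := by congr 1; ring
        rw [h8] at h7
        linarith)
    (ε * (X / T ^ k)) (by positivity)
  refine hfin.trans ?_
  have hcard : ((Finset.Ico Y X).card : ℝ) ≤ X := by
    rw [Nat.card_Ico]
    exact_mod_cast Nat.sub_le X Y
  have hX1 : (X : ℝ) ≤ (X : ℝ) ^ 2 * (X : ℝ) ^ (-(θ / 2)) := by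
    rw [← Real.rpow_natCast, ← Real.rpow_add hX0]
    calc (X : ℝ) = (X : ℝ) ^ (1 : ℝ) := (Real.rpow_one _).symm
      _ ≤ (X : ℝ) ^ (((2 : ℕ) : ℝ) + -(θ / 2)) := by
          apply Real.rpow_le_rpow_of_exponent_le (by linarith)
          push_cast
          linarith
  have hnum : 2 ^ (2 * k) * κ * ((Finset.Ico Y X).card : ℝ) ^ 2 + ((k ^ 2 : ℕ) : ℝ) * (Finset.Ico Y X).card +
      2 * (2 ^ k * κ) * ((Finset.Ico Y X).card : ℝ) ^ 2 ≤
      ε ^ 2 * C₂ * ((X : ℝ) ^ 2 * (X : ℝ) ^ (-(θ / 2))) := by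
    have h5 : ((k ^ 2 : ℕ) : ℝ) * (Finset.Ico Y X).card ≤ (k : ℝ) ^ 2 * ((X : ℝ) ^ 2 * (X : ℝ) ^ (-(θ / 2))) := by
      push_cast
      gcongr
      exact hcard.trans hX1
    calc _ ≤ 2 ^ (2 * k) * κ * (X : ℝ) ^ 2 + (k : ℝ) ^ 2 * ((X : ℝ) ^ 2 * (X : ℝ) ^ (-(θ / 2))) +
        2 * (2 ^ k * κ) * (X : ℝ) ^ 2 := by gcongr
      _ = ε ^ 2 * C₂ * ((X : ℝ) ^ 2 * (X : ℝ) ^ (-(θ / 2))) := by
          rw [hκval, hC₂]
          field_simp
          ring
  calc _ ≤ (ε ^ 2 * C₂ * ((X : ℝ) ^ 2 * (X : ℝ) ^ (-(θ / 2)))) / (ε * (X / T ^ k)) ^ 2 := by gcongr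
    _ = (C₂ * T ^ (2 * k)) * (X : ℝ) ^ (-(θ / 2)) := by
        rw [pow_mul']
        field_simp
    _ ≤ (X : ℝ) ^ (θ / 4) * (X : ℝ) ^ (-(θ / 2)) := by gcongr
    _ = (X : ℝ) ^ (-(θ / 4)) := by
        rw [← Real.rpow_add hX0]
        congr 1
        ring

end Pool.Agent.helper306_pp
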