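import Pool.Agent.helper306_pp.Tp3
import Pool.Agent.helper306_pp.SI

/-!
# Patterns in the set of the moved primes: the asymptotic
-/

set_option autoImplicit false

namespace Pool.Agent.helper306_pp

open MeasureTheory ProbabilityTheory Filter Topology

variable {Ω : Type*} [MeasurableSpace Ω]

/-- the moved primes -/
def MvT (u : ℕ → ℕ) : Set ℕ := {m | ∃ p : ℕ, p.Prime ∧ p + u p = m}

open Classical in
/-- the number of `x < X` with `x + S` in `R` -/
noncomputable def NT (R : Set ℕ) (S : Finset ℕ) (X : ℕ) : ℕ :=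
  ((Finset.range X).filter (fun x => ∀ h ∈ S, x + h ∈ R)).card

lemma NT_mono (R : Set ℕ) (S : Finset ℕ) {X X' : ℕ} (h : X ≤ X') : NT R S X ≤ NT R S X' := by
  classical
  unfold NT
  refine Finset.card_le_card ?_
  intro x hx
  rw [Finset.mem_filter, Finset.mem_range] at hx ⊢
  exact ⟨by omega, hx.2⟩

lemma emp_iff (U : ℕ → Ω → ℕ) (n y : ℕ) (hy : y ≤ n) (ω : Ω) :
    ω ∉ Emp U n {y} ↔ y ∈ MvT (fun p => U p ω) := by
  simp only [Emp, MvT, Set.mem_ofPred_eq, Finset.mem_singleton, not_forall, not_not, Pr,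
    Finset.mem_filter, Finset.mem_range]
  constructor
  · rintro ⟨p, ⟨_, h2⟩, h3⟩
    exact ⟨p, h2, h3⟩
  · rintro ⟨p, h2, h3⟩
    exact ⟨p, ⟨by omega, h2⟩, h3⟩

lemma sum_NT (U : ℕ → Ω → ℕ) (S : Finset ℕ) (X : ℕ) (ω : Ω) :
    ∑ x ∈ Finset.Ico (Nat.sqrt X + 1) X,
        (EvP U S (X + S.sup id) x).indicator (fun _ => (1 : ℝ)) ω ≤ NT (MvT (fun p => U p ω)) S X ∧
    (NT (MvT (fun p => U p ω)) S X : ℝ) ≤ ∑ x ∈ Finset.Ico (Nat.sqrt X + 1) X,
        (EvP U S (X + S.sup id) x).indicator (fun _ => (1 : ℝ)) ω + (Nat.sqrt X + 1) := by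
  classical
  have hsup : ∀ h ∈ S, h ≤ S.sup id := fun h hh => Finset.le_sup (f := id) hh
  have hiff : ∀ x < X, ω ∈ EvP U S (X + S.sup id) x ↔ ∀ h ∈ S, x + h ∈ MvT (fun p => U p ω) := by
    intro x hx
    unfold EvP HM
    simp only [Set.mem_ofPred_eq, Finset.mem_image, forall_exists_index, and_imp,
      forall_apply_eq_imp_iff₂]
    constructor
    · rintro ⟨h1, _⟩ h hh
      have h3 := hsup h hh
      exact (emp_iff U _ _ (by omega) ω).1 (h1 h hh)
    · intro h1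
      refine ⟨fun h hh => ?_, ?_⟩
      · have h3 := hsup h hh
        exact (emp_iff U _ _ (by omega) ω).2 (h1 h hh)
      · intro p _
        simp
  have hsum : ∑ x ∈ Finset.Ico (Nat.sqrt X + 1) X,
      (EvP U S (X + S.sup id) x).indicator (fun _ => (1 : ℝ)) ω =
      (((Finset.Ico (Nat.sqrt X + 1) X).filter
        (fun x => ∀ h ∈ S, x + h ∈ MvT (fun p => U p ω))).card : ℝ) := by
    rw [Finset.card_filter]
    push_cast
    refine Finset.sum_congr rfl fun x hx => ?_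
    rw [Finset.mem_Ico] at hx
    by_cases h : ∀ h ∈ S, x + h ∈ MvT (fun p => U p ω)
    · rw [if_pos h, Set.indicator_of_mem ((hiff x hx.2).2 h)]
    · rw [if_neg h, Set.indicator_of_notMem (fun h' => h ((hiff x hx.2).1 h'))]
  rw [hsum]
  constructor
  · have h1 : ((Finset.Ico (Nat.sqrt X + 1) X).filter
        (fun x => ∀ h ∈ S, x + h ∈ MvT (fun p => U p ω))).card ≤ NT (MvT (fun p => U p ω)) S X := by
      unfold NT
      refine Finset.card_le_card ?_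
      intro x hx
      rw [Finset.mem_filter, Finset.mem_Ico] at hx
      rw [Finset.mem_filter, Finset.mem_range]
      exact ⟨hx.1.2, hx.2⟩
    exact_mod_cast h1
  · have h1 : NT (MvT (fun p => U p ω)) S X ≤ ((Finset.Ico (Nat.sqrt X + 1) X).filter
        (fun x => ∀ h ∈ S, x + h ∈ MvT (fun p => U p ω))).card + (Nat.sqrt X + 1) := by
      unfold NT
      have h2 : (Finset.range X).filter (fun x => ∀ h ∈ S, x + h ∈ MvT (fun p => U p ω)) ⊆
          ((Finset.Ico (Nat.sqrt X + 1) X).filter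
            (fun x => ∀ h ∈ S, x + h ∈ MvT (fun p => U p ω))) ∪ Finset.range (Nat.sqrt X + 1) := by
        intro x hx
        rw [Finset.mem_filter, Finset.mem_range] at hx
        rw [Finset.mem_union, Finset.mem_filter, Finset.mem_Ico, Finset.mem_range]
        rcases Nat.lt_or_ge x (Nat.sqrt X + 1) with h | h
        · exact Or.inr h
        · exact Or.inl ⟨⟨h, hx.1⟩, hx.2⟩
      refine (Finset.card_le_card h2).trans ((Finset.card_union_le _ _).trans ?_)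
      rw [Finset.card_range]
    exact_mod_cast h1

/-- the asymptotic for one pattern and one `ε` -/
theorem pat_eps (H : ℕ → ℕ) (h1 : ∀ j, 1 ≤ H j) (h2 : ∀ j, H j ≤ 2 ^ j)
    (θ θ' : ℝ) (hθ : 1 / 3 < θ) (hθθ : θ ≤ θ') (hθ' : θ' < 1)
    (h3 : ∀ᶠ j : ℕ in atTop, (2 : ℝ) ^ (θ * j) ≤ H j)
    (h4 : ∀ᶠ j : ℕ in atTop, (H j : ℝ) ≤ 2 ^ (θ' * j))
    (P : Measure Ω) [IsProbabilityMeasure P] (U : ℕ → Ω → ℕ)
    (hU : ∀ n, Measurable (U n)) (hind : iIndepFun U P)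
    (hunif : ∀ p : ℕ, p.Prime → ∀ j < wH H p, P {ω | U p ω = j} = (wH H p : ENNReal)⁻¹)
    (S : Finset ℕ) (hS : S.Nonempty) (ε : ℝ) (hε : 0 < ε) (hε1 : ε ≤ 1 / 10) :
    ∀ᵐ ω ∂P, ∀ᶠ X : ℕ in atTop,
      |(NT (MvT (fun p => U p ω)) S X : ℝ) - X / Real.log X ^ S.card| ≤
        10 * ε * (X / Real.log X ^ S.card) := by
  classical
  set k := S.card with hk
  obtain ⟨M, hM, hMb⟩ := rho_sup H h2 θ (by linarith) h3
  have hl1 : ∀ δ : ℝ, 0 < δ → ∀ᶠ n : ℕ in atTop,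
      ∑ x ∈ Finset.range (n + 1), |rho (wH H) x - 1 / Real.log x| ≤ δ * (n / Real.log n) := fun δ hδ =>
    l1 t_SI13 H h1 h2 θ θ' hθ (by linarith) hθ' h3 h4 M hM (fun x => (hMb x).2) δ hδ
  have hmu := muT_asymp (wH H) M hM (fun x => (hMb x).2) hl1 S hS ε hε
  have hdev := dev P U hU hind H h1 h2 θ (by linarith) (by linarith) h3 hunif S ε hε
  set r : ℝ := 1 + ε with hr
  have hr1 : 1 < r := by rw [hr]; linarith
  have hr0 : 0 < r := by linarith
  set Xk : ℕ → ℕ := fun j => ⌊r ^ j⌋₊ with hXk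
  have hrk : Tendsto (fun j : ℕ => r ^ j) atTop atTop := tendsto_pow_atTop_atTop_of_one_lt hr1
  have hXt : Tendsto Xk atTop atTop := tendsto_nat_floor_atTop.comp hrk
  set TT : ℕ → Ω → ℝ := fun X ω => ∑ x ∈ Finset.Ico (Nat.sqrt X + 1) X,
    (EvP U S (X + S.sup id) x).indicator (fun _ => (1 : ℝ)) ω with hTT
  set B : ℕ → Set Ω := fun j => {ω | ε * ((Xk j : ℝ) / Real.log (Xk j) ^ k) ≤
    |TT (Xk j) ω - muT (wH H) S (Xk j)|} with hB
  set ρ : ℝ := r ^ (-(θ / 4)) with hρ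
  have hρ0 : 0 < ρ := by positivity
  have hρ1 : ρ < 1 := Real.rpow_lt_one_of_one_lt_of_neg hr1 (by linarith)
  have hBn : ∀ᶠ j : ℕ in atTop, P (B j) ≤ ENNReal.ofReal (2 * ρ ^ j) := by
    filter_upwards [hXt.eventually hdev, hrk.eventually_ge_atTop 2] with j a1 a2
    have a3 : P.real (B j) ≤ (Xk j : ℝ) ^ (-(θ / 4)) := a1
    have a4 : r ^ j / 2 ≤ (Xk j : ℝ) := by
      have a5 : r ^ j < ((⌊r ^ j⌋₊ : ℕ) : ℝ) + 1 := Nat.lt_floor_add_one _
      rw [hXk]
      simp only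
      linarith
    have a5 : (Xk j : ℝ) ^ (-(θ / 4)) ≤ (r ^ j / 2) ^ (-(θ / 4)) :=
      Real.rpow_le_rpow_of_nonpos (by positivity) a4 (by linarith)
    have a6 : (r ^ j / 2) ^ (-(θ / 4)) ≤ 2 * ρ ^ j := by
      rw [Real.div_rpow (by positivity) (by norm_num), Real.rpow_neg (by norm_num : (0 : ℝ) ≤ 2),
        div_inv_eq_mul, mul_comm]
      have a7 : (r ^ j) ^ (-(θ / 4)) = ρ ^ j := by
        rw [hρ, ← Real.rpow_natCast, ← Real.rpow_natCast, ← Real.rpow_mul hr0.le,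
          ← Real.rpow_mul hr0.le, mul_comm]
      rw [a7]
      have a8 : (2 : ℝ) ^ (θ / 4) ≤ 2 ^ (1 : ℝ) :=
        Real.rpow_le_rpow_of_exponent_le (by norm_num) (by linarith)
      rw [Real.rpow_one] at a8
      gcongr
    rw [← ENNReal.ofReal_toReal (measure_ne_top P (B j))]
    exact ENNReal.ofReal_le_ofReal (a3.trans (a5.trans a6))
  have hbc := bc (μ := P) (f := fun j : ℕ => 2 * ρ ^ j)
    ((summable_geometric_of_lt_one hρ0.le hρ1).mul_left 2) (fun j => by positivity) hBn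
  filter_upwards [hbc] with ω hω
  set R := MvT (fun p => U p ω) with hR
  -- the scales
  have hj : ∀ᶠ j : ℕ in atTop,
      (1 - 2 * ε) * ((Xk j : ℝ) / Real.log (Xk j) ^ k) ≤ NT R S (Xk j) ∧
      (NT R S (Xk j) : ℝ) ≤ (1 + 3 * ε) * ((Xk j : ℝ) / Real.log (Xk j) ^ k) := by
    have hsm : ∀ᶠ X : ℕ in atTop, (Nat.sqrt X : ℝ) + 1 ≤ ε * (X / Real.log X ^ k) := by
      filter_upwards [ev_lp (2 / ε) (by positivity) k (1 / 2) (by norm_num), eventually_ge_atTop 3]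
        with X b1 b2
      have hX3 : (3 : ℝ) ≤ X := by exact_mod_cast b2
      have hX0 : (0 : ℝ) < X := by linarith
      have hT0 : 0 < Real.log (X : ℝ) := Real.log_pos (by linarith)
      rw [← Real.sqrt_eq_rpow] at b1
      have b3 : (Nat.sqrt X : ℝ) ≤ Real.sqrt X := Real.nat_sqrt_le_real_sqrt
      have b4 : 1 ≤ Real.sqrt X := by
        rw [Real.one_le_sqrt]; linarith
      rw [← mul_div_assoc, le_div_iff₀ (by positivity)]
      calc ((Nat.sqrt X : ℝ) + 1) * Real.log X ^ k ≤ (2 * Real.sqrt X) * Real.log X ^ k := by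
            gcongr
            linarith
        _ = ε * (Real.sqrt X * (2 / ε * Real.log X ^ k)) := by field_simp
        _ ≤ ε * (Real.sqrt X * Real.sqrt X) := by gcongr
        _ = ε * X := by rw [Real.mul_self_sqrt hX0.le]
    filter_upwards [hω, hXt.eventually hmu, hXt.eventually hsm] with j a1 a2 a3
    have a4 : |TT (Xk j) ω - muT (wH H) S (Xk j)| < ε * ((Xk j : ℝ) / Real.log (Xk j) ^ k) := by
      by_contra hcon
      exact a1 (not_lt.1 hcon)
    obtain ⟨a5, a6⟩ := sum_NT U S (Xk j) ω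
    have a5' : TT (Xk j) ω ≤ NT R S (Xk j) := a5
    have a6' : (NT R S (Xk j) : ℝ) ≤ TT (Xk j) ω + (Nat.sqrt (Xk j) + 1) := a6
    rw [abs_lt] at a4
    rw [abs_le] at a2
    constructor <;> linarith
  obtain ⟨k₀, hk₀⟩ := eventually_atTop.1 hj
  have hXr : Tendsto (fun X : ℕ => (X : ℝ)) atTop atTop := tendsto_natCast_atTop_atTop
  filter_upwards [eventually_ge_atTop 4, hXr.eventually_gt_atTop (r ^ (k₀ + 1) * r + 3),
    hXr.eventually_ge_atTop (r / ε)] with X g1 g2 g3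
  have hX0 : (0 : ℝ) < X := by
    have : 0 < X := by omega
    exact_mod_cast this
  have hex : ∃ j, X ≤ Xk j := (hXt.eventually_ge_atTop X).exists
  set j := Nat.find hex with hjdef
  have hj1 : X ≤ Xk j := Nat.find_spec hex
  have hjk : k₀ + 2 ≤ j := by
    by_contra h
    push Not at h
    have e1 : (Xk j : ℝ) ≤ r ^ j := Nat.floor_le (by positivity)
    have e2 : r ^ j ≤ r ^ (k₀ + 1) := pow_le_pow_right₀ hr1.le (by omega)
    have e3 : (X : ℝ) ≤ Xk j := by exact_mod_cast hj1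
    have e4 : r ^ (k₀ + 1) ≤ r ^ (k₀ + 1) * r := le_mul_of_one_le_right (by positivity) hr1.le
    linarith
  have hmin : ¬ X ≤ Xk (j - 1) := Nat.find_min hex (by omega)
  have hX' : Xk (j - 1) < X := not_le.1 hmin
  have hrj : r ^ j = r * r ^ (j - 1) := by
    rw [← pow_succ']
    congr 1
    omega
  have hup : (Xk j : ℝ) ≤ r * X := by
    have e2 : ⌊r ^ (j - 1)⌋₊ < X := hX'
    have e3 : r ^ (j - 1) < X := (Nat.floor_lt (by positivity)).1 e2
    have e4 : (Xk j : ℝ) ≤ r ^ j := Nat.floor_le (by positivity)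
    calc (Xk j : ℝ) ≤ r ^ j := e4
      _ = r * r ^ (j - 1) := hrj
      _ ≤ r * X := by gcongr
  have hlow : (X : ℝ) / r - 1 ≤ Xk (j - 1) := by
    have e1 : r ^ (j - 1) < ((⌊r ^ (j - 1)⌋₊ : ℕ) : ℝ) + 1 := Nat.lt_floor_add_one _
    have e2 : (X : ℝ) ≤ r ^ j := by
      have e3 : (X : ℝ) ≤ Xk j := by exact_mod_cast hj1
      exact e3.trans (Nat.floor_le (by positivity))
    have e3 : (X : ℝ) / r ≤ r ^ (j - 1) := by
      rw [div_le_iff₀ hr0, mul_comm, ← hrj]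
      exact e2
    have e4 : ((⌊r ^ (j - 1)⌋₊ : ℕ) : ℝ) = Xk (j - 1) := rfl
    linarith
  have hA := (hk₀ j (by omega)).2
  have hB' := (hk₀ (j - 1) (by omega)).1
  set T := Real.log (X : ℝ) with hT
  have hT0 : 0 < T := Real.log_pos (by
    have : (4 : ℝ) ≤ X := by exact_mod_cast g1
    linarith)
  have hTj : T ≤ Real.log (Xk j) := Real.log_le_log hX0 (by exact_mod_cast hj1)
  have hXj1 : (1 : ℝ) < Xk (j - 1) := by
    have e1 : (3 : ℝ) * r < X := by
      have : r ≤ 2 := by rw [hr]; linarith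
      have e2 : 1 ≤ r ^ (k₀ + 1) := one_le_pow₀ hr1.le
      nlinarith [g3]
    have e2 : 3 < (X : ℝ) / r := by
      rw [lt_div_iff₀ hr0]; exact e1
    linarith
  have hTj1 : Real.log (Xk (j - 1)) ≤ T :=
    Real.log_le_log (by linarith) (by exact_mod_cast hX'.le)
  have hTj0 : 0 < Real.log (Xk (j - 1)) := Real.log_pos hXj1
  set Q : ℝ := X / T ^ k with hQ
  have hQ0 : 0 < Q := by positivity
  have hupper : (NT R S X : ℝ) ≤ (1 + 3 * ε) * (r * Q) := by
    have e1 : (NT R S X : ℝ) ≤ NT R S (Xk j) := by exact_mod_cast NT_mono R S hj1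
    calc (NT R S X : ℝ) ≤ NT R S (Xk j) := e1
      _ ≤ (1 + 3 * ε) * ((Xk j : ℝ) / Real.log (Xk j) ^ k) := hA
      _ ≤ (1 + 3 * ε) * ((r * X) / T ^ k) := by gcongr
      _ = (1 + 3 * ε) * (r * Q) := by rw [hQ]; ring
  have hlower : (1 - 2 * ε) * ((1 - 2 * ε) * Q) ≤ (NT R S X : ℝ) := by
    have e1 : (NT R S (Xk (j - 1)) : ℝ) ≤ NT R S X := by exact_mod_cast NT_mono R S hX'.le
    have e2 : (1 - 2 * ε) * X ≤ Xk (j - 1) := by
      have e3 : 1 ≤ ε * ((X : ℝ) / r) := by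
        rw [div_le_iff₀ hε] at g3
        rw [mul_div_assoc', le_div_iff₀ hr0]
        linarith
      have e4 : (X : ℝ) * (1 - ε) ≤ X / r := by
        rw [le_div_iff₀ hr0, hr]
        nlinarith [sq_nonneg ε]
      have e5 : (X : ℝ) / r ≤ X := by
        rw [div_le_iff₀ hr0]
        nlinarith
      nlinarith
    have e3 : 0 ≤ 1 - 2 * ε := by linarith
    calc (1 - 2 * ε) * ((1 - 2 * ε) * Q) = (1 - 2 * ε) * (((1 - 2 * ε) * X) / T ^ k) := by
          rw [hQ]; ring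
      _ ≤ (1 - 2 * ε) * ((Xk (j - 1) : ℝ) / Real.log (Xk (j - 1)) ^ k) := by gcongr
      _ ≤ NT R S (Xk (j - 1)) := hB'
      _ ≤ NT R S X := e1
  rw [abs_le]
  constructor
  · have e1 : (1 - 2 * ε) * ((1 - 2 * ε) * Q) = Q - 4 * ε * Q + 4 * ε ^ 2 * Q := by ring
    have e2 : 0 ≤ 4 * ε ^ 2 * Q := by positivity
    have e3 : 0 ≤ ε * Q := by positivity
    linarith
  · have e1 : (1 + 3 * ε) * (r * Q) = Q + 4 * ε * Q + 3 * ε ^ 2 * Q := by rw [hr]; ring
    have e2 : 3 * ε ^ 2 * Q ≤ ε * Q := by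
      have : 3 * ε ^ 2 ≤ ε := by nlinarith
      gcongr
    have e3 : 0 ≤ ε * Q := by positivity
    linarith

/-- all patterns -/
theorem patterns (H : ℕ → ℕ) (h1 : ∀ j, 1 ≤ H j) (h2 : ∀ j, H j ≤ 2 ^ j)
    (θ θ' : ℝ) (hθ : 1 / 3 < θ) (hθ' : θ' < 1)
    (h3 : ∀ᶠ j : ℕ in atTop, (2 : ℝ) ^ (θ * j) ≤ H j)
    (h4 : ∀ᶠ j : ℕ in atTop, (H j : ℝ) ≤ 2 ^ (θ' * j))
    (P : Measure Ω) [IsProbabilityMeasure P] (U : ℕ → Ω → ℕ)
    (hU : ∀ n, Measurable (U n)) (hind : iIndepFun U P)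
    (hunif : ∀ p : ℕ, p.Prime → ∀ j < wH H p, P {ω | U p ω = j} = (wH H p : ENNReal)⁻¹) :
    ∀ᵐ ω ∂P, ∀ S : Finset ℕ, S.Nonempty →
      Tendsto (fun X : ℕ => (NT (MvT (fun p => U p ω)) S X : ℝ) * Real.log X ^ S.card / X) atTop
        (𝓝 1) := by
  have hθθ : θ ≤ θ' := by
    obtain ⟨j, hj⟩ := ((h3.and h4).and (eventually_ge_atTop 1)).exists
    have h5 : (2 : ℝ) ^ (θ * j) ≤ 2 ^ (θ' * j) := hj.1.1.trans hj.1.2
    have h6 : θ * j ≤ θ' * j := (Real.rpow_le_rpow_left_iff (by norm_num)).1 h5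
    have hj1 : (1 : ℝ) ≤ j := by exact_mod_cast hj.2
    exact le_of_mul_le_mul_right h6 (by linarith)
  have hall : ∀ S : Finset ℕ, ∀ m : ℕ, ∀ᵐ ω ∂P, S.Nonempty → ∀ᶠ X : ℕ in atTop,
      |(NT (MvT (fun p => U p ω)) S X : ℝ) - X / Real.log X ^ S.card| ≤
        10 * (1 / ((m : ℝ) + 10)) * (X / Real.log X ^ S.card) := by
    intro S m
    by_cases hS : S.Nonempty
    · have hm : (0 : ℝ) ≤ m := Nat.cast_nonneg m
      have := pat_eps H h1 h2 θ θ' hθ hθθ hθ' h3 h4 P U hU hind hunif S hS (1 / ((m : ℝ) + 10))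
        (by positivity) (by
          apply one_div_le_one_div_of_le (by norm_num)
          linarith)
      filter_upwards [this] with ω hω _
      exact hω
    · exact Eventually.of_forall fun ω h => absurd h hS
  have hall2 : ∀ᵐ ω ∂P, ∀ S : Finset ℕ, ∀ m : ℕ, S.Nonempty → ∀ᶠ X : ℕ in atTop,
      |(NT (MvT (fun p => U p ω)) S X : ℝ) - X / Real.log X ^ S.card| ≤
        10 * (1 / ((m : ℝ) + 10)) * (X / Real.log X ^ S.card) :=
    ae_all_iff.2 fun S => ae_all_iff.2 fun m => hall S m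
  filter_upwards [hall2] with ω hω S hS
  rw [Metric.tendsto_atTop]
  intro η hη
  obtain ⟨m, hm⟩ := exists_nat_gt (10 / η)
  have hm0 : (0 : ℝ) ≤ m := Nat.cast_nonneg m
  have hmη : 10 * (1 / ((m : ℝ) + 10)) < η := by
    rw [mul_one_div, div_lt_iff₀ (by positivity)]
    rw [div_lt_iff₀ hη] at hm
    nlinarith
  obtain ⟨N, hN⟩ := eventually_atTop.1 (hω S m hS)
  refine ⟨max N 3, fun X hX => ?_⟩
  have hX3 : (3 : ℝ) ≤ X := by exact_mod_cast (le_max_right N 3).trans hX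
  have hX0 : (0 : ℝ) < X := by linarith
  have hT0 : 0 < Real.log (X : ℝ) := Real.log_pos (by linarith)
  have h5 := hN X ((le_max_left N 3).trans hX)
  rw [Real.dist_eq]
  set Q : ℝ := X / Real.log X ^ S.card with hQ
  have hQ0 : 0 < Q := by positivity
  have h6 : (NT (MvT (fun p => U p ω)) S X : ℝ) * Real.log X ^ S.card / X - 1 =
      ((NT (MvT (fun p => U p ω)) S X : ℝ) - Q) / Q := by
    rw [hQ]
    field_simp
  rw [h6, abs_div, abs_of_pos hQ0, div_lt_iff₀ hQ0]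
  calc _ ≤ 10 * (1 / ((m : ℝ) + 10)) * Q := h5
    _ < η * Q := by gcongr

end Pool.Agent.helper306_pp
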