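import Pool.Agent.helper306_pp.Mn

/-!
# Two sequences of widths, and one sequence of widths against the primes themselves
-/

set_option autoImplicit false

namespace Pool.Agent.helper306_pp

open Finset Filter
open Pool.Agent.helper24_UT (S_SI13 S_GSU expG)

/-- the convolution for two sequences of widths -/
theorem conv2 (hG : S_GSU) (r₁ r₂ : ℕ → ℝ) (hr1 : ∀ x, 0 ≤ r₁ x) (hr2 : ∀ x, 0 ≤ r₂ x)
    (M : ℝ) (hM : 1 ≤ M) (hMb1 : ∀ x : ℕ, r₁ x ≤ M ∧ r₁ x * Real.log x ≤ M)
    (hMb2 : ∀ x : ℕ, r₂ x ≤ M ∧ r₂ x * Real.log x ≤ M)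
    (hl1 : ∀ δ : ℝ, 0 < δ → ∀ᶠ n : ℕ in atTop, ∑ x ∈ range (n + 1), |r₁ x - 1 / Real.log x| ≤
      δ * (n / Real.log n))
    (hl2 : ∀ δ : ℝ, 0 < δ → ∀ᶠ n : ℕ in atTop, ∑ x ∈ range (n + 1), |r₂ x - 1 / Real.log x| ≤
      δ * (n / Real.log n)) (δ : ℝ) (hδ : 0 < δ) :
    ∀ᶠ n : ℕ in atTop,
      |∑ x ∈ range (n + 1), r₁ x * r₂ (n - x) - n / Real.log n ^ 2| ≤
      δ * (n / Real.log n ^ 2) := by
  obtain ⟨n₀, hn₀⟩ := hG (δ / 2) (by positivity)
  have hlogo : ∀ᶠ y : ℝ in atTop, ‖Real.log y‖ ≤ Real.sqrt (δ / (8 * (M + 2) ^ 2)) * ‖y ^ (1 / 4 : ℝ)‖ :=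
    (isLittleO_log_rpow_atTop (by norm_num : (0 : ℝ) < 1 / 4)).def (by positivity)
  have hcast : Tendsto (fun j : ℕ => (j : ℝ)) atTop atTop := tendsto_natCast_atTop_atTop
  filter_upwards [hl1 (δ / (4 * (2 * M + 4))) (by positivity),
    hl2 (δ / (4 * (2 * M + 4))) (by positivity), hcast.eventually hlogo,
    eventually_ge_atTop n₀, eventually_ge_atTop 4] with n g1 g1' g2 g3 g4
  have hnr : (4 : ℝ) ≤ n := by exact_mod_cast g4
  have hn0 : (0 : ℝ) < n := by linarith
  set L := Real.log (n : ℝ) with hL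
  have hL0 : 0 < L := Real.log_pos (by linarith)
  set e₁ : ℕ → ℝ := fun x => r₁ x - 1 / Real.log x with he1
  set e₂ : ℕ → ℝ := fun x => r₂ x - 1 / Real.log x with he2
  set g : ℕ → ℝ := fun x => 1 / Real.log x with hg
  have hg0 : ∀ x, 0 ≤ g x := fun x => by
    rw [hg]; simp only
    have := Real.log_natCast_nonneg x
    positivity
  have hA1 : ∀ x, |e₁ x| ≤ M + 2 := by
    intro x
    have h5 := (hMb1 x).1
    have h6 := hr1 x
    have h7 := inv_log_le x
    have h8 := hg0 x
    rw [hg] at h8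
    simp only at h8
    rw [he1, abs_le]
    constructor <;> simp only <;> linarith
  have hA2 : ∀ x, |e₂ x| ≤ M + 2 := by
    intro x
    have h5 := (hMb2 x).1
    have h6 := hr2 x
    have h7 := inv_log_le x
    have h8 := hg0 x
    rw [hg] at h8
    simp only at h8
    rw [he2, abs_le]
    constructor <;> simp only <;> linarith
  have hq1 := conv_aux e₁ r₂ (M + 2) M (by linarith) hA1 hr2
    (fun x => (hMb2 x).1) (fun x => (hMb2 x).2) n (by omega)
  have hq2 := conv_aux e₂ g (M + 2) 2 (by linarith) hA2 hg0 inv_log_le (fun x => by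
    rw [hg]; simp only
    rcases eq_or_ne (Real.log (x : ℝ)) 0 with h | h
    · rw [h]; norm_num
    · rw [one_div_mul_cancel h]; norm_num) n (by omega)
  set E₁ := ∑ x ∈ range (n + 1), |e₁ x| with hE1
  set E₂ := ∑ x ∈ range (n + 1), |e₂ x| with hE2
  have hdiff : |∑ x ∈ range (n + 1), r₁ x * r₂ (n - x) -
      ∑ x ∈ range (n + 1), g x * g (n - x)| ≤
      ∑ x ∈ range (n + 1), |e₁ x| * r₂ (n - x) + ∑ x ∈ range (n + 1), |e₂ x| * g (n - x) := by
    have h5 : ∑ x ∈ range (n + 1), r₁ x * r₂ (n - x) -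
        ∑ x ∈ range (n + 1), g x * g (n - x) =
        ∑ x ∈ range (n + 1), e₁ x * r₂ (n - x) + ∑ x ∈ range (n + 1), e₂ x * g (n - x) := by
      have h6 : ∑ x ∈ range (n + 1), e₂ x * g (n - x) = ∑ x ∈ range (n + 1), e₂ (n - x) * g x := by
        rw [← sum_range_reflect]
        refine sum_congr rfl fun x hx => ?_
        rw [mem_range] at hx
        have h7 : n + 1 - 1 - x = n - x := by omega
        have h8 : n - (n - x) = x := by omega
        rw [h7, h8]
      rw [h6, ← sum_add_distrib, ← sum_sub_distrib]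
      refine sum_congr rfl fun x _ => ?_
      rw [he1, he2, hg]
      simp only
      ring
    rw [h5]
    refine (abs_add_le _ _).trans (add_le_add ?_ ?_)
    · refine (abs_sum_le_sum_abs _ _).trans (le_of_eq (sum_congr rfl fun x _ => ?_))
      rw [abs_mul, abs_of_nonneg (hr2 _)]
    · refine (abs_sum_le_sum_abs _ _).trans (le_of_eq (sum_congr rfl fun x _ => ?_))
      rw [abs_mul, abs_of_nonneg (hg0 _)]
  have hGn := hn₀ n g3
  rw [← expG_eq n g4] at hGn
  -- the small error
  have hsm : (M + 2) ^ 2 * (Real.sqrt n + 1) ≤ δ / 4 * (n / L ^ 2) := by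
    rw [Real.norm_eq_abs, Real.norm_eq_abs, abs_of_pos hL0, abs_of_nonneg (by positivity)] at g2
    have h5 : L ^ 2 ≤ δ / (8 * (M + 2) ^ 2) * Real.sqrt n := by
      have h6 := pow_le_pow_left₀ hL0.le g2 2
      rw [mul_pow, Real.sq_sqrt (by positivity), ← Real.rpow_natCast ((n : ℝ) ^ (1 / 4 : ℝ)) 2,
        ← Real.rpow_mul hn0.le] at h6
      have h7 : (1 / 4 : ℝ) * ((2 : ℕ) : ℝ) = 1 / 2 := by norm_num
      rw [h7, ← Real.sqrt_eq_rpow] at h6
      exact h6
    have h6 : (1 : ℝ) ≤ Real.sqrt n := by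
      rw [Real.one_le_sqrt]; linarith
    rw [← mul_div_assoc, le_div_iff₀ (by positivity)]
    calc (M + 2) ^ 2 * (Real.sqrt n + 1) * L ^ 2
        ≤ (M + 2) ^ 2 * (Real.sqrt n + Real.sqrt n) * (δ / (8 * (M + 2) ^ 2) * Real.sqrt n) := by
          gcongr
      _ = δ / 4 * (Real.sqrt n * Real.sqrt n) := by field_simp; ring
      _ = δ / 4 * n := by rw [Real.mul_self_sqrt hn0.le]
  have hmainE : 2 * M / L * E₁ + 2 * 2 / L * E₂ ≤ δ / 4 * (n / L ^ 2) := by
    calc 2 * M / L * E₁ + 2 * 2 / L * E₂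
        ≤ 2 * M / L * (δ / (4 * (2 * M + 4)) * (n / L)) +
          2 * 2 / L * (δ / (4 * (2 * M + 4)) * (n / L)) := by gcongr
      _ = (2 * M + 4) / L * (δ / (4 * (2 * M + 4)) * (n / L)) := by ring
      _ = δ / 4 * (n / L ^ 2) := by field_simp
  have htot : |∑ x ∈ range (n + 1), r₁ x * r₂ (n - x) -
      ∑ x ∈ range (n + 1), g x * g (n - x)| ≤ δ / 2 * (n / L ^ 2) := by
    refine hdiff.trans ?_
    have h6 : (M + 2) * M * (Real.sqrt n + 1) + (M + 2) * 2 * (Real.sqrt n + 1) =
        (M + 2) ^ 2 * (Real.sqrt n + 1) := by ring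
    linarith
  have hfin : ∑ x ∈ range (n + 1), r₁ x * r₂ (n - x) - n / L ^ 2 =
      (∑ x ∈ range (n + 1), r₁ x * r₂ (n - x) - ∑ x ∈ range (n + 1), g x * g (n - x)) +
      (∑ x ∈ range (n + 1), g x * g (n - x) - n / L ^ 2) := by ring
  rw [hfin]
  refine (abs_add_le _ _).trans ?_
  have h5 : |∑ x ∈ range (n + 1), g x * g (n - x) - n / L ^ 2| ≤ δ / 2 * (n / L ^ 2) := by
    refine hGn.trans (le_of_eq ?_)
    ring
  linarith

/-- the mean density changes slowly -/
lemma lip (H : ℕ → ℕ) (h1 : ∀ j, 1 ≤ H j) (h2 : ∀ j, H j ≤ 2 ^ j) (y s : ℕ) (hs : 2 * s ≤ y)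
    (B : ℝ) (hB : 0 < B) (hwB : ∀ p : ℕ, p.Prime → y < 4 * p → B ≤ wH H p) :
    |rho (wH H) y - rho (wH H) (y - s)| ≤ 4 * s / B := by
  have hy1 := rho_eq (wH H) y y le_rfl
  have hy2 := rho_eq (wH H) (y - s) y (Nat.sub_le _ _)
  rw [hy1, hy2, ← sum_sub_distrib]
  refine (abs_sum_le_sum_abs _ _).trans ?_
  have hterm : ∀ p ∈ Pr y, |fp (wH H) p y - fp (wH H) p (y - s)| ≤
      (if y - s < p then 1 / B else 0) +
      (if y < 4 * p ∧ y - s < p + wH H p ∧ p + wH H p ≤ y then 1 / B else 0) := by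
    intro p hp
    simp only [Pr, mem_filter, mem_range] at hp
    have hw := wH_le H h2 p hp.2
    have hw1 : 1 ≤ wH H p := h1 _
    have hB0 : 0 ≤ 1 / B := by positivity
    have hinv : y < 4 * p → 1 / (wH H p : ℝ) ≤ 1 / B := fun h =>
      one_div_le_one_div_of_le hB (hwB p hp.2 h)
    have hinv0 : (0 : ℝ) ≤ 1 / (wH H p : ℝ) := by positivity
    unfold fp
    by_cases ha : p ≤ y ∧ y < p + wH H p
    · by_cases hb : p ≤ y - s ∧ y - s < p + wH H p
      · rw [if_pos ha, if_pos hb, sub_self, abs_zero]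
        split_ifs <;> positivity
      · rw [if_pos ha, if_neg hb, sub_zero, abs_of_nonneg hinv0]
        have h3 : y - s < p := by omega
        rw [if_pos h3]
        have h4 := hinv (by omega)
        split_ifs <;> linarith
    · by_cases hb : p ≤ y - s ∧ y - s < p + wH H p
      · rw [if_neg ha, if_pos hb, zero_sub, abs_neg, abs_of_nonneg hinv0]
        have h3 : y < 4 * p ∧ y - s < p + wH H p ∧ p + wH H p ≤ y := by omega
        rw [if_pos h3]
        have h4 := hinv h3.1
        split_ifs <;> linarith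
      · rw [if_neg ha, if_neg hb, sub_self, abs_zero]
        split_ifs <;> positivity
  refine (sum_le_sum hterm).trans ?_
  rw [sum_add_distrib, ← sum_filter, ← sum_filter, sum_const, sum_const, nsmul_eq_mul, nsmul_eq_mul]
  have hc1 : ((Pr y).filter (fun p => y - s < p)).card ≤ s := by
    have h3 : (Pr y).filter (fun p => y - s < p) ⊆ Ioc (y - s) y := by
      intro p hp
      simp only [Pr, mem_filter, mem_range] at hp
      rw [mem_Ioc]
      omega
    have h4 := card_le_card h3
    rw [Nat.card_Ioc] at h4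
    omega
  have hc2 : ((Pr y).filter (fun p => y < 4 * p ∧ y - s < p + wH H p ∧ p + wH H p ≤ y)).card ≤
      3 * s := by
    have h3 : ((Pr y).filter (fun p => y < 4 * p ∧ y - s < p + wH H p ∧ p + wH H p ≤ y)).card ≤
        (Icc (Nat.log 2 y - 2) (Nat.log 2 y) ×ˢ Ioc (y - s) y).card := by
      refine card_le_card_of_injOn (fun p => (Nat.log 2 p, p + wH H p)) ?_ ?_
      · intro p hp
        simp only [Pr, coe_filter, mem_filter, mem_range, Set.mem_ofPred_eq] at hp
        have hp0 : p ≠ 0 := hp.1.2.ne_zero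
        rw [mem_coe, mem_product, mem_Icc, mem_Ioc]
        have h4 : Nat.log 2 p ≤ Nat.log 2 y := Nat.log_mono_right (by omega)
        have h5 : Nat.log 2 y ≤ Nat.log 2 p + 2 := by
          calc Nat.log 2 y ≤ Nat.log 2 (p * 2 * 2) := Nat.log_mono_right (by omega)
            _ = Nat.log 2 p + 2 := by
                rw [Nat.log_mul_base (by norm_num) (by omega), Nat.log_mul_base (by norm_num) hp0]
        refine ⟨⟨?_, h4⟩, hp.2.2.1, hp.2.2.2⟩
        show Nat.log 2 y - 2 ≤ Nat.log 2 p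
        omega
      · intro p hp q hq h
        simp only [Prod.mk.injEq] at h
        have h4 : wH H p = wH H q := by unfold wH; rw [h.1]
        omega
    rw [card_product, Nat.card_Icc, Nat.card_Ioc] at h3
    refine h3.trans ?_
    exact Nat.mul_le_mul (by omega) (by omega)
  have hc1' : (((Pr y).filter (fun p => y - s < p)).card : ℝ) ≤ s := by exact_mod_cast hc1
  have hc2' : (((Pr y).filter
      (fun p => y < 4 * p ∧ y - s < p + wH H p ∧ p + wH H p ≤ y)).card : ℝ) ≤ 3 * s := by
    exact_mod_cast hc2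
  have hB0 : 0 ≤ 1 / B := by positivity
  calc _ ≤ (s : ℝ) * (1 / B) + (3 * s) * (1 / B) :=
        add_le_add (mul_le_mul_of_nonneg_right hc1' hB0) (mul_le_mul_of_nonneg_right hc2' hB0)
    _ = 4 * s / B := by ring

/-- the sum over the primes against the sum over the integers -/
lemma one_two (H T : ℕ → ℕ) (hH1 : ∀ j, 1 ≤ H j) (hH2 : ∀ j, H j ≤ 2 ^ j) (hT1 : ∀ j, 1 ≤ T j)
    (M : ℝ) (hM : ∀ x, rho (wH H) x ≤ M) (n K t : ℕ)
    (hK : 2 * t ≤ K) (hTt : ∀ p ≤ n, p.Prime → wH T p ≤ t)
    (B : ℝ) (hB : 0 < B) (hwB : ∀ p : ℕ, p.Prime → K < 4 * p → B ≤ wH H p) :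
    |∑ p ∈ Pr n, rho (wH H) (n - p) -
      ∑ x ∈ range (n + 1), rho (wH T) x * rho (wH H) (n - x)| ≤
      (n + 1) * (4 * t / B) + K * M := by
  have hM0 : 0 ≤ M := (rho_nonneg _ 0).trans (hM 0)
  have h1 : ∑ x ∈ range (n + 1), rho (wH T) x * rho (wH H) (n - x) =
      ∑ p ∈ Pr n, ∑ x ∈ range (n + 1), fp (wH T) p x * rho (wH H) (n - x) := by
    rw [sum_comm]
    refine sum_congr rfl fun x hx => ?_
    rw [mem_range] at hx
    rw [rho_eq (wH T) x n (by omega), sum_mul]
  rw [h1, ← sum_sub_distrib]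
  refine (abs_sum_le_sum_abs _ _).trans ?_
  have hterm : ∀ p ∈ Pr n, |rho (wH H) (n - p) -
      ∑ x ∈ range (n + 1), fp (wH T) p x * rho (wH H) (n - x)| ≤
      4 * t / B + (if n - p < K then M else 0) := by
    intro p hp
    simp only [Pr, mem_filter, mem_range] at hp
    have hwt := hTt p (by omega) hp.2
    have hw1 : 1 ≤ wH T p := hT1 _
    have hwr : (0 : ℝ) < wH T p := by exact_mod_cast hw1
    have hfs : ∑ x ∈ range (n + 1), fp (wH T) p x =
        (((range (n + 1)).filter (fun x => p ≤ x ∧ x < p + wH T p)).card : ℝ) * (1 / (wH T p : ℝ)) := by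
      unfold fp
      rw [← sum_filter, sum_const, nsmul_eq_mul]
    by_cases h : n - p < K
    · rw [if_pos h]
      have hle1 : ∑ x ∈ range (n + 1), fp (wH T) p x ≤ 1 := by
        rw [hfs, mul_one_div, div_le_one hwr]
        have h6 : (range (n + 1)).filter (fun x => p ≤ x ∧ x < p + wH T p) ⊆
            Ico p (p + wH T p) := by
          intro x hx
          rw [mem_filter] at hx
          rw [mem_Ico]
          exact hx.2
        have h7 := card_le_card h6
        rw [Nat.card_Ico, Nat.add_sub_cancel_left] at h7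
        exact_mod_cast h7
      have h3 : ∑ x ∈ range (n + 1), fp (wH T) p x * rho (wH H) (n - x) ≤ M := by
        calc ∑ x ∈ range (n + 1), fp (wH T) p x * rho (wH H) (n - x)
            ≤ ∑ x ∈ range (n + 1), fp (wH T) p x * M :=
              sum_le_sum fun x _ => mul_le_mul_of_nonneg_left (hM _) (fp_nonneg _ _ _)
          _ = (∑ x ∈ range (n + 1), fp (wH T) p x) * M := by rw [sum_mul]
          _ ≤ 1 * M := by gcongr
          _ = M := one_mul M
      have h4 : 0 ≤ ∑ x ∈ range (n + 1), fp (wH T) p x * rho (wH H) (n - x) :=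
        sum_nonneg fun x _ => mul_nonneg (fp_nonneg _ _ _) (rho_nonneg _ _)
      have h5 := hM (n - p)
      have h6 := rho_nonneg (wH H) (n - p)
      have h7 : 0 ≤ 4 * (t : ℝ) / B := by positivity
      rw [abs_le]
      constructor <;> linarith
    · rw [if_neg h, add_zero]
      have hone : ∑ x ∈ range (n + 1), fp (wH T) p x = 1 := by
        have h6 : (range (n + 1)).filter (fun x => p ≤ x ∧ x < p + wH T p) =
            Ico p (p + wH T p) := by
          ext x
          rw [mem_filter, mem_range, mem_Ico]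
          omega
        rw [hfs, h6, Nat.card_Ico, Nat.add_sub_cancel_left, mul_one_div, div_self hwr.ne']
      have h3 : rho (wH H) (n - p) - ∑ x ∈ range (n + 1), fp (wH T) p x * rho (wH H) (n - x) =
          ∑ x ∈ range (n + 1), fp (wH T) p x * (rho (wH H) (n - p) - rho (wH H) (n - x)) := by
        simp only [mul_sub]
        rw [sum_sub_distrib, ← sum_mul, hone, one_mul]
      rw [h3]
      calc |∑ x ∈ range (n + 1), fp (wH T) p x * (rho (wH H) (n - p) - rho (wH H) (n - x))|
          ≤ ∑ x ∈ range (n + 1), |fp (wH T) p x * (rho (wH H) (n - p) - rho (wH H) (n - x))| :=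
            abs_sum_le_sum_abs _ _
        _ ≤ ∑ x ∈ range (n + 1), fp (wH T) p x * (4 * t / B) := by
            refine sum_le_sum fun x hx => ?_
            rw [mem_range] at hx
            rw [abs_mul, abs_of_nonneg (fp_nonneg _ _ _)]
            by_cases hx2 : p ≤ x ∧ x < p + wH T p
            · refine mul_le_mul_of_nonneg_left ?_ (fp_nonneg _ _ _)
              have h4 : n - x = (n - p) - (x - p) := by omega
              rw [h4]
              refine (lip H hH1 hH2 (n - p) (x - p) (by omega) B hB (fun q hq hq2 =>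
                hwB q hq (by omega))).trans ?_
              have h5 : ((x - p : ℕ) : ℝ) ≤ t := by
                have : x - p ≤ t := by omega
                exact_mod_cast this
              gcongr
            · have h4 : fp (wH T) p x = 0 := by
                unfold fp
                rw [if_neg hx2]
              rw [h4, zero_mul, zero_mul]
        _ = 4 * t / B := by rw [← sum_mul, hone, one_mul]
  refine (sum_le_sum hterm).trans ?_
  rw [sum_add_distrib, sum_const, nsmul_eq_mul, ← sum_filter, sum_const, nsmul_eq_mul]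
  have hc1 : ((Pr n).card : ℝ) ≤ n + 1 := by
    have : (Pr n).card ≤ n + 1 := (card_filter_le _ _).trans (by rw [card_range])
    exact_mod_cast this
  have hc2 : (((Pr n).filter (fun p => n - p < K)).card : ℝ) ≤ K := by
    have h3 : ((Pr n).filter (fun p => n - p < K)).card ≤ (range K).card := by
      refine card_le_card_of_injOn (fun p => n - p) ?_ ?_
      · intro p hp
        simp only [Pr, coe_filter, mem_filter, mem_range, Set.mem_ofPred_eq] at hp
        rw [mem_coe, mem_range]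
        exact hp.2
      · intro p hp q hq h
        simp only [Pr, coe_filter, mem_filter, mem_range, Set.mem_ofPred_eq] at hp hq h
        omega
    rw [card_range] at h3
    exact_mod_cast h3
  have h7 : 0 ≤ 4 * (t : ℝ) / B := by positivity
  exact add_le_add (mul_le_mul_of_nonneg_right hc1 h7) (mul_le_mul_of_nonneg_right hc2 hM0)

end Pool.Agent.helper306_pp
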