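import Pool.Agent.helper24_UT.Mtc

/-!
# Primes in almost all short intervals, in mean
-/

set_option autoImplicit false

namespace Pool.Agent.helper306_pp

open Finset Filter
open Pool.Agent.H373R2.T7 (lamI lamzI lamz Vz pz mem_pz)
open Pool.Agent.helper24_UT

lemma sum_int (a : ℤ → ℝ) (u W : ℕ) :
    ∑ m ∈ Ioc (u : ℤ) (u + W), a m = ∑ m ∈ Ioc u (u + W), a (m : ℤ) := by
  symm
  refine Finset.sum_nbij (fun m : ℕ => (m : ℤ)) ?_ ?_ ?_ (fun _ _ => rfl)
  · intro m hm
    rw [mem_Ioc] at hm ⊢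
    omega
  · intro m _ m' _ h
    simpa using h
  · intro b hb
    rw [Finset.mem_coe, mem_Ioc] at hb
    refine ⟨b.toNat, ?_, ?_⟩
    · rw [Finset.mem_coe, mem_Ioc]
      omega
    · show ((b.toNat : ℕ) : ℤ) = b
      omega

lemma NN_one (a : ℤ → ℝ) (u W : ℕ) :
    NN a (u : ℤ) W 1 = (∑ m ∈ Ioc u (u + W), a (m : ℤ)) ^ 2 := by
  unfold NN
  rw [sum_range_one, ← sum_int]
  congr 2
  ext m
  simp [Int.emod_one]

lemma Vz_pos (z : ℕ) : 0 < Vz z := by
  unfold Vz
  refine Finset.prod_pos fun p hp => ?_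
  have h1 := (mem_pz.1 hp).2.two_le
  have h2 : (2 : ℝ) ≤ p := by exact_mod_cast h1
  have h3 : 1 / (p : ℝ) ≤ 1 / 2 := one_div_le_one_div_of_le (by norm_num) h2
  linarith

lemma nuf_one (u p : ℕ) (hp : p.Prime) :
    nuf (fun _ : Fin 1 => (1 : ℤ)) (fun _ => (u : ℤ)) p = 1 := by
  classical
  unfold nuf
  rw [Finset.card_eq_one]
  have hp0 : (0 : ℤ) < p := by exact_mod_cast hp.pos
  refine ⟨((-(u : ℤ)) % (p : ℤ)).toNat, ?_⟩
  have h1 := Int.emod_nonneg (-(u : ℤ)) hp0.ne'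
  have h2 := Int.emod_lt_of_pos (-(u : ℤ)) hp0
  ext t
  rw [mem_filter, mem_range, mem_singleton]
  constructor
  · rintro ⟨ht, i, hi⟩
    rw [one_mul] at hi
    have h3 : (t : ℤ) % p = (-(u : ℤ)) % p := by
      rw [Int.emod_eq_emod_iff_emod_sub_eq_zero]
      have h6 : (t : ℤ) - -(u : ℤ) = t + u := by ring
      rw [h6]
      exact Int.emod_eq_zero_of_dvd hi
    rw [Int.emod_eq_of_lt (by omega) (by omega)] at h3
    omega
  · intro h
    have h4 : (t : ℤ) = (-(u : ℤ)) % p := by omega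
    refine ⟨by omega, 0, ?_⟩
    rw [one_mul, h4]
    have h5 := Int.emod_add_mul_ediv (-(u : ℤ)) p
    refine ⟨-((-(u : ℤ)) / p), ?_⟩
    linarith

lemma gz_one (z u : ℕ) : gz z (fun _ : Fin 1 => (1 : ℤ)) (fun _ => (u : ℤ)) 1 0 = 1 := by
  classical
  unfold gz
  rw [if_neg]
  · have h1 : (pz z).filter (fun p => ¬ p ∣ 1) = pz z := by
      apply Finset.filter_true_of_mem
      intro p hp h
      exact (mem_pz.1 hp).2.one_lt.ne' (Nat.dvd_one.1 h)
    rw [h1]
    have h2 : ∏ p ∈ pz z, (1 - (nuf (fun _ : Fin 1 => (1 : ℤ)) (fun _ => (u : ℤ)) p : ℝ) / p) = Vz z := by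
      unfold Vz
      refine Finset.prod_congr rfl fun p hp => ?_
      rw [nuf_one u p (mem_pz.1 hp).2, Nat.cast_one]
    rw [h2, pow_one]
    exact inv_mul_cancel₀ (Vz_pos z).ne'
  · rintro ⟨p, hp, h, _⟩
    exact (mem_pz.1 hp).2.one_lt.ne' (Nat.dvd_one.1 h)

lemma lz_eq (z m : ℕ) (hm : 1 ≤ m) : lz z (m : ℤ) = lamzI z (m : ℤ) := by
  classical
  unfold lz lamzI lamz
  rw [if_pos (by exact_mod_cast hm : (1 : ℤ) ≤ (m : ℤ)), Int.toNat_natCast]
  simp only [Int.natCast_dvd_natCast]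

lemma model (E : ℕ) : ∃ W₀ : ℕ, ∀ W : ℕ, W₀ ≤ W → ∀ z : ℕ, 1 ≤ z → (z : ℝ) ≤ (Real.log W) ^ E →
    ∀ u : ℕ, |∑ m ∈ Ioc u (u + W), lamzI z (m : ℤ) - W| ≤ 2 * (W / Real.log W) := by
  obtain ⟨B, N₀, h⟩ := Pool.Agent.helper24_UT.Mtc.main 1 E 1
  -- the small error term
  have hev : ∀ᶠ W : ℕ in atTop, Real.exp (B * Real.log (Real.log W) ^ 2) ≤ W / Real.log W := by
    have hlog : Tendsto (fun N : ℕ => Real.log (N : ℝ)) atTop atTop :=
      Real.tendsto_log_atTop.comp tendsto_natCast_atTop_atTop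
    have h3 : ∀ᶠ x : ℝ in atTop, ‖Real.log x ^ 2‖ ≤ 1 / (2 * (B + 1) : ℝ) * ‖x‖ :=
      (Real.isLittleO_pow_log_id_atTop (n := 2)).bound (by positivity)
    have h4 : ∀ᶠ x : ℝ in atTop, ‖Real.log x ^ 1‖ ≤ 1 / 2 * ‖x‖ :=
      (Real.isLittleO_pow_log_id_atTop (n := 1)).bound (by positivity)
    filter_upwards [hlog.eventually h3, hlog.eventually h4, hlog.eventually_ge_atTop 1,
      eventually_ge_atTop 1] with W g3 g4 g5 g6
    have hW0 : (0 : ℝ) < W := by exact_mod_cast g6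
    set L := Real.log (W : ℝ) with hL
    have hL0 : 0 < L := by linarith
    rw [Real.norm_eq_abs, Real.norm_eq_abs, abs_of_pos hL0] at g3 g4
    have g3' := (le_abs_self _).trans g3
    have g4' := (le_abs_self _).trans g4
    rw [pow_one] at g4'
    have g7 : (B : ℝ) * Real.log L ^ 2 ≤ L / 2 := by
      have hB : (0 : ℝ) ≤ B := Nat.cast_nonneg _
      have g8 : Real.log L ^ 2 * (2 * (B + 1)) ≤ L := by
        rw [div_mul_eq_mul_div, one_mul, le_div_iff₀ (by positivity)] at g3'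
        exact g3'
      nlinarith [sq_nonneg (Real.log L)]
    have g9 : Real.log L ≤ L / 2 := by linarith
    rw [le_div_iff₀ hL0]
    calc Real.exp (B * Real.log L ^ 2) * L = Real.exp (B * Real.log L ^ 2 + Real.log L) := by
          rw [Real.exp_add, Real.exp_log hL0]
      _ ≤ Real.exp L := Real.exp_le_exp.mpr (by linarith)
      _ = W := by rw [hL, Real.exp_log hW0]
  obtain ⟨W₁, hW₁⟩ := eventually_atTop.1 hev
  refine ⟨max N₀ W₁, fun W hW z hz hzE u => ?_⟩
  have h1 := h W ((le_max_left _ _).trans hW) z hz hzE (fun _ => 1) (fun _ => (u : ℤ))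
    (fun _ => Or.inl rfl) 1 0 W le_rfl le_rfl
  rw [gz_one] at h1
  have h2 : ∑ n ∈ (Icc 1 W).filter (fun n => n % 1 = 0 % 1),
      ∏ i : Fin 1, lz z ((fun _ : Fin 1 => (1 : ℤ)) i * n + (fun _ : Fin 1 => (u : ℤ)) i) =
      ∑ m ∈ Ioc u (u + W), lamzI z (m : ℤ) := by
    have h3 : (Icc 1 W).filter (fun n => n % 1 = 0 % 1) = Icc 1 W := by
      apply Finset.filter_true_of_mem
      intro n _
      omega
    rw [h3]
    symm
    refine Finset.sum_nbij' (fun m => m - u) (fun n => n + u) ?_ ?_ ?_ ?_ ?_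
    · intro m hm; rw [mem_Ioc] at hm; rw [mem_Icc]; omega
    · intro n hn; rw [mem_Icc] at hn; rw [mem_Ioc]; omega
    · intro m hm; rw [mem_Ioc] at hm; omega
    · intro n _; omega
    · intro m hm
      rw [mem_Ioc] at hm
      rw [Fin.prod_univ_one, ← lz_eq z m (by omega)]
      congr 1
      push_cast [Nat.cast_sub hm.1.le]
      ring
  rw [h2] at h1
  refine le_trans ?_ (h1.trans ?_)
  · apply le_of_eq
    congr 1
    push_cast
    ring
  · have h4 := hW₁ W ((le_max_right _ _).trans hW)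
    rw [Nat.cast_one, div_one, pow_one]
    linarith

/-- `∑ log p` over the primes of `(u, u + W]` -/
noncomputable def thW (u W : ℕ) : ℝ := ∑ p ∈ (Ioc u (u + W)).filter Nat.Prime, Real.log p

/-- the proper prime powers -/
noncomputable def npp (m : ℕ) : ℝ := if m.Prime then 0 else ArithmeticFunction.vonMangoldt m

lemma npp_nonneg (m : ℕ) : 0 ≤ npp m := by
  unfold npp
  split_ifs
  · exact le_rfl
  · exact ArithmeticFunction.vonMangoldt_nonneg

lemma lam_split (u W : ℕ) :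
    ∑ m ∈ Ioc u (u + W), lamI (m : ℤ) = thW u W + ∑ m ∈ Ioc u (u + W), npp m := by
  unfold thW
  rw [Finset.sum_filter, ← Finset.sum_add_distrib]
  refine Finset.sum_congr rfl fun m hm => ?_
  rw [mem_Ioc] at hm
  unfold lamI npp
  rw [if_pos (by omega), Int.toNat_natCast]
  by_cases h : m.Prime
  · rw [if_pos h, if_pos h, ArithmeticFunction.vonMangoldt_apply_prime h, add_zero]
  · rw [if_neg h, if_neg h, zero_add]

lemma npp_sum (X W : ℕ) (hX : 1 ≤ X) :
    ∑ u ∈ range X, ∑ m ∈ Ioc u (u + W), npp m ≤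
      W * (2 * Real.sqrt (X + W : ℕ) * Real.log (X + W : ℕ)) := by
  have h1 : ∀ u, ∑ m ∈ Ioc u (u + W), npp m = ∑ t ∈ Icc 1 W, npp (u + t) := by
    intro u
    refine Finset.sum_nbij' (fun m => m - u) (fun t => u + t) ?_ ?_ ?_ ?_ ?_
    · intro m hm; rw [mem_Ioc] at hm; rw [mem_Icc]; omega
    · intro n hn; rw [mem_Icc] at hn; rw [mem_Ioc]; omega
    · intro m hm; rw [mem_Ioc] at hm; omega
    · intro n _; omega
    · intro m hm
      rw [mem_Ioc] at hm
      congr 1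
      omega
  rw [Finset.sum_congr rfl (fun u _ => h1 u), Finset.sum_comm]
  have h2 : ∀ t ∈ Icc 1 W, ∑ u ∈ range X, npp (u + t) ≤ ∑ m ∈ Ioc 0 (X + W), npp m := by
    intro t ht
    rw [mem_Icc] at ht
    calc ∑ u ∈ range X, npp (u + t) = ∑ m ∈ (range X).image (fun u => u + t), npp m := by
          rw [Finset.sum_image]
          intro a _ b _ h
          simpa using h
      _ ≤ ∑ m ∈ Ioc 0 (X + W), npp m := by
          refine Finset.sum_le_sum_of_subset_of_nonneg ?_ (fun m _ _ => npp_nonneg m)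
          intro m hm
          rw [mem_image] at hm
          obtain ⟨u, hu, rfl⟩ := hm
          rw [mem_range] at hu
          rw [mem_Ioc]
          omega
  have h3 : ∑ m ∈ Ioc 0 (X + W), npp m ≤ 2 * Real.sqrt (X + W : ℕ) * Real.log (X + W : ℕ) := by
    have h4 := Chebyshev.psi_sub_theta_eq_sum_not_prime ((X + W : ℕ) : ℝ)
    rw [Nat.floor_natCast] at h4
    have h5 : ∑ m ∈ Ioc 0 (X + W), npp m =
        ∑ n ∈ Ioc 0 (X + W) with ¬n.Prime, ArithmeticFunction.vonMangoldt n := by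
      rw [Finset.sum_filter]
      refine Finset.sum_congr rfl fun m _ => ?_
      unfold npp
      by_cases h : m.Prime
      · rw [if_pos h, if_neg (not_not.2 h)]
      · rw [if_neg h, if_pos h]
    rw [h5, ← h4]
    exact Chebyshev.psi_sub_theta_le (by
      have : 1 ≤ X + W := by omega
      exact_mod_cast this)
  calc ∑ t ∈ Icc 1 W, ∑ u ∈ range X, npp (u + t)
      ≤ ∑ _t ∈ Icc 1 W, ∑ m ∈ Ioc 0 (X + W), npp m := Finset.sum_le_sum h2
    _ = W * ∑ m ∈ Ioc 0 (X + W), npp m := by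
        rw [Finset.sum_const, Nat.card_Icc, nsmul_eq_mul, Nat.add_sub_cancel]
    _ ≤ _ := mul_le_mul_of_nonneg_left h3 (Nat.cast_nonneg _)

end Pool.Agent.helper306_pp
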